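import Mathlib

/-! Block SD-KING: the subadditive ergodic theorem for bounded subadditive sequences (known theorem,
used as a tool).

Proof (Katznelson-Weiss). Let `f x = liminf g n x / n`. `g (n+1) x <= g 1 x + g n (T x)` gives
`f x <= f (T x)`; a bounded measurable `f` with `f <= f ∘ T` and `∫ f ∘ T = ∫ f` has `f ∘ T = f` a.e.
Fix `e > 0` and let `B_N = {x | ∀ n, 1 <= n -> n <= N -> n (f x + e) < g n x}`; `μ B_N -> 0` (decreasing,
empty intersection). Greedy decomposition: for `x` with `f (T^[k] x) = f x` for all `k`,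
`g n x <= n (f x + e) + 2 C #{k < n | T^[k] x ∈ B_N} + 2 C N`
(strong induction on `n`: if `x ∉ B_N` and `n > N` use a block of length `<= N`, if `x ∈ B_N` use a block
of length one, `g 1 x <= C <= (f x + e) + 2 C`).
* Additive case first (Birkhoff for a bounded function `h`, `g n = ∑_{k<n} h (T^[k] x)`): integrate, divide
  by `n`: `∫ h <= ∫ f + e + 2 C μ B_N`, so `∫ h <= ∫ liminf`, and with `-h`:
  `∫ limsup <= ∫ h`; so `liminf = limsup` a.e. and the limit has integral `∫ h`.
* General case: Birkhoff for `1_{B_N}`: the limit `b_N` has integral `μ B_N`; so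
  `limsup g n x / n <= f x + e + 2 C b_N x` a.e.; the integral of the positive part of
  `limsup - liminf - e` is at most `2 C μ B_N -> 0`; then `e -> 0`.
* Integrals: dominated convergence (`|g n x / n| <= C`). `G x` = `limsup` (measurable), which is within
  `[-C, C]`. -/

set_option autoImplicit false
open MeasureTheory Filter Topology

namespace Pool.Agent.Helper18.SD

section KingAux
variable {X : Type*} {g : ℕ → X → ℝ} {C : ℝ}

private noncomputable def lo (g : ℕ → X → ℝ) (x : X) : ℝ :=
  liminf (fun n : ℕ => g n x / n) atTop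
private noncomputable def hi (g : ℕ → X → ℝ) (x : X) : ℝ :=
  limsup (fun n : ℕ => g n x / n) atTop

private theorem quot_abs (hC : ∀ n x, |g n x| ≤ C * n) (hC0 : 0 ≤ C) (x : X) (n : ℕ) :
    |g n x / n| ≤ C := by
  rcases Nat.eq_zero_or_pos n with h | h
  · subst h; simpa using hC0
  · have hn : (0 : ℝ) < n := by exact_mod_cast h
    rw [abs_div, abs_of_pos hn, div_le_iff₀ hn]
    exact hC n x

private theorem bddA (hC : ∀ n x, |g n x| ≤ C * n) (hC0 : 0 ≤ C) (x : X) :
    IsBoundedUnder (· ≤ ·) atTop (fun n : ℕ => g n x / n) :=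
  isBoundedUnder_of ⟨C, fun n => (abs_le.1 (quot_abs hC hC0 x n)).2⟩

private theorem bddB (hC : ∀ n x, |g n x| ≤ C * n) (hC0 : 0 ≤ C) (x : X) :
    IsBoundedUnder (· ≥ ·) atTop (fun n : ℕ => g n x / n) :=
  isBoundedUnder_of ⟨-C, fun n => (abs_le.1 (quot_abs hC hC0 x n)).1⟩

private theorem lo_ge (hC : ∀ n x, |g n x| ≤ C * n) (hC0 : 0 ≤ C) (x : X) : -C ≤ lo g x :=
  le_liminf_of_le (bddA hC hC0 x).isCoboundedUnder_ge
    (Eventually.of_forall fun n => (abs_le.1 (quot_abs hC hC0 x n)).1)

private theorem hi_le (hC : ∀ n x, |g n x| ≤ C * n) (hC0 : 0 ≤ C) (x : X) : hi g x ≤ C :=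
  limsup_le_of_le (bddB hC hC0 x).isCoboundedUnder_le
    (Eventually.of_forall fun n => (abs_le.1 (quot_abs hC hC0 x n)).2)

private theorem lo_le_hi (hC : ∀ n x, |g n x| ≤ C * n) (hC0 : 0 ≤ C) (x : X) : lo g x ≤ hi g x :=
  liminf_le_limsup (bddA hC hC0 x) (bddB hC hC0 x)

private theorem lo_abs (hC : ∀ n x, |g n x| ≤ C * n) (hC0 : 0 ≤ C) (x : X) : |lo g x| ≤ C :=
  abs_le.2 ⟨lo_ge hC hC0 x, (lo_le_hi hC hC0 x).trans (hi_le hC hC0 x)⟩

private theorem hi_abs (hC : ∀ n x, |g n x| ≤ C * n) (hC0 : 0 ≤ C) (x : X) : |hi g x| ≤ C :=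
  abs_le.2 ⟨(lo_ge hC hC0 x).trans (lo_le_hi hC hC0 x), hi_le hC hC0 x⟩

/-- The lower limit increases along the orbit. -/
private theorem lo_le_comp {T : X → X} (hC : ∀ n x, |g n x| ≤ C * n) (hC0 : 0 ≤ C)
    (hsub : ∀ n m x, g (n + m) x ≤ g n x + g m (T^[n] x)) (x : X) : lo g x ≤ lo g (T x) := by
  refine le_of_forall_gt_imp_ge_of_dense fun b hb => ?_
  obtain ⟨b', h1, h2⟩ := exists_between hb
  have hf : ∃ᶠ n : ℕ in atTop, g n (T x) / n < b' :=
    frequently_lt_of_liminf_lt (bddA hC hC0 (T x)).isCoboundedUnder_ge h1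
  refine liminf_le_of_frequently_le ?_ (bddB hC hC0 x)
  rw [frequently_atTop] at hf ⊢
  intro N
  obtain ⟨K, hK⟩ := exists_nat_gt ((C - b) / (b - b'))
  obtain ⟨n, hn, hlt⟩ := hf (max (max N K) 1)
  have hn1 : 1 ≤ n := le_trans (le_max_right _ _) hn
  have hnN : N ≤ n := le_trans (le_trans (le_max_left _ _) (le_max_left _ _)) hn
  have hnK : K ≤ n := le_trans (le_trans (le_max_right _ _) (le_max_left _ _)) hn
  refine ⟨n + 1, by omega, ?_⟩
  have hnp : (0 : ℝ) < n := by exact_mod_cast hn1
  rw [div_lt_iff₀ hnp] at hlt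
  have hs := hsub 1 n x
  rw [show T^[1] x = T x by rfl, add_comm 1 n] at hs
  have h1C := (abs_le.1 (hC 1 x)).2
  rw [Nat.cast_one, mul_one] at h1C
  have hbb : 0 < b - b' := by linarith
  have hKn : (C - b) / (b - b') < n := lt_of_lt_of_le hK (by exact_mod_cast hnK)
  rw [div_lt_iff₀ hbb] at hKn
  rw [div_le_iff₀ (by positivity)]
  push_cast
  nlinarith

/-- The greedy decomposition. -/
private theorem greedy {T : X → X} (hC : ∀ n x, |g n x| ≤ C * n) (hC0 : 0 ≤ C)
    (hsub : ∀ n m x, g (n + m) x ≤ g n x + g m (T^[n] x)) {f : X → ℝ} (hf : ∀ x, -C ≤ f x)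
    {e : ℝ} (he : 0 ≤ e) (N : ℕ) {B : Set X}
    (hB : ∀ x, x ∉ B → ∃ n, 1 ≤ n ∧ n ≤ N ∧ g n x ≤ n * (f x + e)) (n : ℕ) :
    ∀ x : X, (∀ k, f (T^[k] x) = f x) →
      g n x ≤ n * (f x + e) + 2 * C * ∑ k ∈ Finset.range n, B.indicator 1 (T^[k] x)
        + 2 * C * N := by
  induction n using Nat.strong_induction_on with
  | _ n ih =>
    intro x hx
    have hsum0 : ∀ m : ℕ, ∀ y, 0 ≤ ∑ k ∈ Finset.range m, B.indicator (1 : X → ℝ) (T^[k] y) :=
      fun m y => Finset.sum_nonneg fun k _ => Set.indicator_nonneg (fun _ _ => zero_le_one) _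
    rcases le_or_gt n N with hnN | hnN
    · have h1 := (abs_le.1 (hC n x)).2
      have h2 : (n : ℝ) ≤ N := by exact_mod_cast hnN
      have h3 := hf x
      have h4 := mul_nonneg (mul_nonneg zero_le_two hC0) (hsum0 n x)
      have h5 : (0 : ℝ) ≤ n := Nat.cast_nonneg n
      have h6 : (n : ℝ) * (-C) ≤ n * (f x + e) :=
        mul_le_mul_of_nonneg_left (by linarith) h5
      have h7 : C * n ≤ C * N := mul_le_mul_of_nonneg_left h2 hC0
      linarith
    · -- a general step of length m
      have step : ∀ m : ℕ, 1 ≤ m → m ≤ n →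
          g n x ≤ g m x + (((n - m : ℕ) : ℝ) * (f x + e)
            + 2 * C * ∑ k ∈ Finset.Ico m n, B.indicator (1 : X → ℝ) (T^[k] x) + 2 * C * N) := by
        intro m hm hmn
        have hs := hsub m (n - m) x
        rw [Nat.add_sub_cancel' hmn] at hs
        have hi' := ih (n - m) (by omega) (T^[m] x) (by
          intro k
          rw [← Function.iterate_add_apply, hx, hx])
        rw [hx m] at hi'
        have hre : ∑ k ∈ Finset.range (n - m), B.indicator (1 : X → ℝ) (T^[k] (T^[m] x))
            = ∑ k ∈ Finset.Ico m n, B.indicator (1 : X → ℝ) (T^[k] x) := by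
          rw [Finset.sum_Ico_eq_sum_range]
          refine Finset.sum_congr rfl fun k _ => ?_
          rw [← Function.iterate_add_apply, add_comm k m]
        rw [hre] at hi'
        linarith
      by_cases hxB : x ∈ B
      · have hn1 : 1 ≤ n := by omega
        have h1 := step 1 le_rfl hn1
        have h2 := (abs_le.1 (hC 1 x)).2
        rw [Nat.cast_one, mul_one] at h2
        have h3 : ∑ k ∈ Finset.range n, B.indicator (1 : X → ℝ) (T^[k] x)
            = 1 + ∑ k ∈ Finset.Ico 1 n, B.indicator (1 : X → ℝ) (T^[k] x) := by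
          rw [Finset.range_eq_Ico, Finset.sum_eq_sum_Ico_succ_bot (by omega : 0 < n)]
          simp [hxB]
        rw [h3]
        have h4 : (((n - 1 : ℕ) : ℝ)) = n - 1 := by push_cast [hn1]; ring
        rw [h4] at h1
        have h5 := hf x
        nlinarith
      · obtain ⟨m, hm1, hmN, hgm⟩ := hB x hxB
        have h1 := step m hm1 (by omega)
        have h2 : ∑ k ∈ Finset.Ico m n, B.indicator (1 : X → ℝ) (T^[k] x)
            ≤ ∑ k ∈ Finset.range n, B.indicator (1 : X → ℝ) (T^[k] x) := by
          refine Finset.sum_le_sum_of_subset_of_nonneg ?_ fun k _ _ =>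
            Set.indicator_nonneg (fun _ _ => zero_le_one) _
          intro k hk
          rw [Finset.mem_Ico] at hk
          exact Finset.mem_range.2 hk.2
        have h3 : (((n - m : ℕ) : ℝ)) = n - m := by push_cast [show m ≤ n by omega]; ring
        rw [h3] at h1
        have h4 := mul_le_mul_of_nonneg_left h2 (mul_nonneg zero_le_two hC0)
        linarith

end KingAux

section KingMeas
variable {X : Type*} [MeasurableSpace X] {μ : Measure X} [IsProbabilityMeasure μ] {T : X → X}
  {g : ℕ → X → ℝ} {C : ℝ}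

private theorem lo_meas (hg : ∀ n, Measurable (g n)) : Measurable (lo g) :=
  Measurable.liminf fun n => (hg n).div_const _

private theorem hi_meas (hg : ∀ n, Measurable (g n)) : Measurable (hi g) :=
  Measurable.limsup fun n => (hg n).div_const _

private theorem int_bdd {f : X → ℝ} (hf : Measurable f) (hb : ∀ x, |f x| ≤ C) : Integrable f μ :=
  Integrable.of_bound hf.aestronglyMeasurable C (Eventually.of_forall hb)

private theorem int_comp {S : X → X} (hS : MeasurePreserving S μ μ) {f : X → ℝ}
    (hf : Measurable f) : ∫ x, f (S x) ∂μ = ∫ x, f x ∂μ := by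
  have h := integral_map (μ := μ) hS.measurable.aemeasurable (f := f)
    hf.aestronglyMeasurable
  rw [hS.map_eq] at h
  exact h.symm

/-- A bounded measurable function which increases along orbits is invariant a.e. -/
private theorem inv_ae (hT : MeasurePreserving T μ μ) {f : X → ℝ} (hf : Measurable f)
    (hb : ∀ x, |f x| ≤ C) (hle : ∀ x, f x ≤ f (T x)) :
    ∀ᵐ x ∂μ, ∀ k, f (T^[k] x) = f x := by
  have h1 : ∀ᵐ x ∂μ, f (T x) = f x := by
    have hfT : Measurable fun x => f (T x) := hf.comp hT.measurable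
    have hi1 : Integrable (fun x => f (T x)) μ := int_bdd (C := C) hfT fun x => hb _
    have hi2 : Integrable f μ := int_bdd hf hb
    have hz : ∫ x, (f (T x) - f x) ∂μ = 0 := by
      rw [integral_sub hi1 hi2, int_comp hT hf, sub_self]
    have := (integral_eq_zero_iff_of_nonneg (f := fun x => f (T x) - f x)
      (fun x => sub_nonneg.2 (hle x)) (hi1.sub hi2)).1 hz
    filter_upwards [this] with x hx
    have hx' : f (T x) - f x = 0 := hx
    linarith
  have h2 : ∀ k : ℕ, ∀ᵐ x ∂μ, f (T (T^[k] x)) = f (T^[k] x) := fun k =>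
    (hT.iterate k).quasiMeasurePreserving.ae h1
  filter_upwards [ae_all_iff.2 h2] with x hx k
  induction k with
  | zero => rfl
  | succ k ih => rw [Function.iterate_succ_apply', hx k, ih]

/-- The bad sets. -/
private def bad (g : ℕ → X → ℝ) (e : ℝ) (N : ℕ) : Set X :=
  {x | ∀ n, 1 ≤ n → n ≤ N → n * (lo g x + e) < g n x}

private theorem bad_meas (hg : ∀ n, Measurable (g n)) (e : ℝ) (N : ℕ) :
    MeasurableSet (bad g e N) := by
  have : bad g e N = ⋂ n : ℕ, ⋂ _ : 1 ≤ n, ⋂ _ : n ≤ N, {x | n * (lo g x + e) < g n x} := by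
    ext x; simp [bad]
  rw [this]
  refine MeasurableSet.iInter fun n => MeasurableSet.iInter fun _ => MeasurableSet.iInter fun _ => ?_
  exact measurableSet_lt (((lo_meas hg).add_const e).const_mul _) (hg n)

private theorem bad_tendsto (hg : ∀ n, Measurable (g n)) (hC : ∀ n x, |g n x| ≤ C * n)
    (hC0 : 0 ≤ C) {e : ℝ} (he : 0 < e) :
    Tendsto (fun N => μ.real (bad g e N)) atTop (𝓝 0) := by
  have hanti : Antitone (bad g e) := by
    intro M N hMN x hx n h1 h2
    exact hx n h1 (h2.trans hMN)
  have hint : ⋂ N, bad g e N = (∅ : Set X) := by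
    ext x
    simp only [Set.mem_iInter, Set.mem_empty_iff_false, iff_false, not_forall]
    by_contra hcon
    push Not at hcon
    have h1 : lo g x + e ≤ lo g x := by
      refine le_liminf_of_le (bddA hC hC0 x).isCoboundedUnder_ge ?_
      filter_upwards [eventually_ge_atTop 1] with n hn
      have hnp : (0 : ℝ) < n := by exact_mod_cast hn
      rw [le_div_iff₀ hnp]
      have := hcon n n hn le_rfl
      linarith
    linarith
  have h := tendsto_measure_iInter_atTop (μ := μ) (s := bad g e)
    (fun N => (bad_meas hg e N).nullMeasurableSet) hanti ⟨0, measure_ne_top _ _⟩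
  rw [hint, measure_empty] at h
  have h2 := (ENNReal.tendsto_toReal ENNReal.zero_ne_top).comp h
  simpa [Measure.real, Function.comp_def] using h2

private theorem greedy_ae (hT : MeasurePreserving T μ μ) (hg : ∀ n, Measurable (g n))
    (hC : ∀ n x, |g n x| ≤ C * n) (hC0 : 0 ≤ C)
    (hsub : ∀ n m x, g (n + m) x ≤ g n x + g m (T^[n] x)) {e : ℝ} (he : 0 ≤ e) (N : ℕ) :
    ∀ᵐ x ∂μ, ∀ n : ℕ, g n x ≤ n * (lo g x + e)
      + 2 * C * ∑ k ∈ Finset.range n, (bad g e N).indicator 1 (T^[k] x) + 2 * C * N := by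
  filter_upwards [inv_ae hT (lo_meas hg) (lo_abs hC hC0) (lo_le_comp hC hC0 hsub)] with x hx n
  refine greedy hC hC0 hsub (lo_ge hC hC0) he N ?_ n x hx
  intro y hy
  simp only [bad, Set.mem_ofPred_eq, not_forall, not_lt] at hy
  obtain ⟨n, h1, h2, h3⟩ := hy
  exact ⟨n, h1, h2, h3⟩

/-- The additive sequence of a bounded function. -/
private noncomputable def bsum (T : X → X) (h : X → ℝ) (n : ℕ) (x : X) : ℝ :=
  ∑ k ∈ Finset.range n, h (T^[k] x)

private theorem bsum_meas (hT : Measurable T) {h : X → ℝ} (hh : Measurable h) (n : ℕ) :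
    Measurable (bsum T h n) :=
  Finset.measurable_fun_sum _ fun k _ => hh.comp (hT.iterate k)

private theorem bsum_abs {h : X → ℝ} (hC : ∀ x, |h x| ≤ C) (n : ℕ) (x : X) :
    |bsum T h n x| ≤ C * n := by
  calc |bsum T h n x| ≤ ∑ k ∈ Finset.range n, |h (T^[k] x)| := Finset.abs_sum_le_sum_abs _ _
    _ ≤ ∑ _k ∈ Finset.range n, C := Finset.sum_le_sum fun k _ => hC _
    _ = C * n := by rw [Finset.sum_const, Finset.card_range, nsmul_eq_mul, mul_comm]

private theorem bsum_add {h : X → ℝ} (n m : ℕ) (x : X) :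
    bsum T h (n + m) x = bsum T h n x + bsum T h m (T^[n] x) := by
  unfold bsum
  rw [Finset.sum_range_add]
  congr 1
  refine Finset.sum_congr rfl fun k _ => ?_
  rw [← Function.iterate_add_apply, add_comm n k]

private theorem bsum_int (hT : MeasurePreserving T μ μ) {h : X → ℝ} (hh : Measurable h)
    (hC : ∀ x, |h x| ≤ C) (n : ℕ) : ∫ x, bsum T h n x ∂μ = n * ∫ x, h x ∂μ := by
  unfold bsum
  have h0 := integral_finsetSum (μ := μ) (Finset.range n) (f := fun k x => h (T^[k] x))
    (fun k _ => int_bdd (C := C) (hh.comp (hT.iterate k).measurable) fun x => hC _)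
  rw [h0, Finset.sum_congr rfl fun k _ => int_comp (hT.iterate k) hh, Finset.sum_const,
    Finset.card_range, nsmul_eq_mul]

/-- One half of the ergodic theorem: the mean is at most the mean of the lower limit. -/
private theorem half (hT : MeasurePreserving T μ μ) {h : X → ℝ} (hh : Measurable h)
    (hC0 : 0 ≤ C) (hC : ∀ x, |h x| ≤ C) : ∫ x, h x ∂μ ≤ ∫ x, lo (bsum T h) x ∂μ := by
  set g := bsum T h with hgdef
  have hg : ∀ n, Measurable (g n) := bsum_meas hT.measurable hh
  have hCg : ∀ n x, |g n x| ≤ C * n := bsum_abs hC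
  have hsub : ∀ n m x, g (n + m) x ≤ g n x + g m (T^[n] x) := fun n m x => (bsum_add n m x).le
  have hilo : Integrable (lo g) μ := int_bdd (lo_meas hg) (lo_abs hCg hC0)
  -- for every e > 0 and N
  have key : ∀ e : ℝ, 0 < e → ∀ N : ℕ,
      ∫ x, h x ∂μ ≤ ∫ x, lo g x ∂μ + e + 2 * C * μ.real (bad g e N) := by
    intro e he N
    have hga := greedy_ae hT hg hCg hC0 hsub he.le N
    have hind : Measurable ((bad g e N).indicator (1 : X → ℝ)) :=
      measurable_one.indicator (bad_meas hg e N)
    have hindb : ∀ x, |(bad g e N).indicator (1 : X → ℝ) x| ≤ 1 := by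
      intro x
      by_cases hx : x ∈ bad g e N
      · simp [hx]
      · simp [hx]
    have hall : ∀ n : ℕ, n * ∫ x, h x ∂μ ≤ n * (∫ x, lo g x ∂μ + e)
        + 2 * C * (n * μ.real (bad g e N)) + 2 * C * N := by
      intro n
      rw [← bsum_int hT hh hC n]
      have hs : ∫ x, ∑ k ∈ Finset.range n, (bad g e N).indicator (1 : X → ℝ) (T^[k] x) ∂μ
          = n * μ.real (bad g e N) := by
        have := bsum_int (μ := μ) hT hind hindb n
        rw [integral_indicator_one (bad_meas hg e N)] at this
        exact this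
      have hi1 : Integrable (fun x => (n : ℝ) * (lo g x + e)) μ :=
        (hilo.add (integrable_const e)).const_mul _
      have hi2 : Integrable (fun x => 2 * C *
          ∑ k ∈ Finset.range n, (bad g e N).indicator (1 : X → ℝ) (T^[k] x)) μ := by
        refine Integrable.const_mul ?_ _
        exact int_bdd (C := 1 * n) (bsum_meas hT.measurable hind n) (bsum_abs hindb n)
      have hi12 : Integrable (fun x => (n : ℝ) * (lo g x + e) + 2 * C *
          ∑ k ∈ Finset.range n, (bad g e N).indicator (1 : X → ℝ) (T^[k] x)) μ := hi1.add hi2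
      calc ∫ x, g n x ∂μ
          ≤ ∫ x, ((n : ℝ) * (lo g x + e) + 2 * C *
            ∑ k ∈ Finset.range n, (bad g e N).indicator (1 : X → ℝ) (T^[k] x)
              + 2 * C * N) ∂μ := by
            refine integral_mono_ae (int_bdd (hg n) (hCg n))
              (hi12.add (integrable_const _)) ?_
            filter_upwards [hga] with x hx
            exact hx n
        _ = _ := by
            rw [integral_add hi12 (integrable_const _), integral_add hi1 hi2,
              integral_const_mul, integral_const_mul, hs,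
              integral_add hilo (integrable_const e)]
            simp
    -- divide by n
    refine le_of_forall_pos_le_add fun δ hδ => ?_
    obtain ⟨n, hn⟩ := exists_nat_gt (2 * C * N / δ)
    have hn0 : (0 : ℝ) < n := lt_of_le_of_lt (by positivity) hn
    rw [div_lt_iff₀ hδ] at hn
    have := hall n
    have h3 : (n : ℝ) * ∫ x, h x ∂μ ≤
        n * (∫ x, lo g x ∂μ + e + 2 * C * μ.real (bad g e N) + δ) := by nlinarith
    exact le_of_mul_le_mul_left h3 hn0
  refine le_of_forall_pos_le_add fun e he => ?_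
  have hlim : Tendsto (fun N => ∫ x, lo g x ∂μ + e + 2 * C * μ.real (bad g e N)) atTop
      (𝓝 (∫ x, lo g x ∂μ + e + 2 * C * 0)) :=
    tendsto_const_nhds.add ((bad_tendsto hg hCg hC0 he).const_mul _)
  rw [mul_zero, add_zero] at hlim
  exact ge_of_tendsto' hlim (key e he)

end KingMeas

theorem birkhoff_bdd {X : Type*} [MeasurableSpace X] {μ : Measure X} [IsProbabilityMeasure μ]
    {T : X → X} (hT : MeasurePreserving T μ μ) {h : X → ℝ} (hh : Measurable h) {C : ℝ}
    (hC : ∀ x, |h x| ≤ C) :
    ∃ G : X → ℝ, Measurable G ∧ (∀ x, |G x| ≤ C) ∧ (∀ᵐ x ∂μ, G (T x) = G x) ∧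
      (∀ᵐ x ∂μ, Tendsto (fun n : ℕ => (∑ k ∈ Finset.range n, h (T^[k] x)) / n) atTop (𝓝 (G x))) ∧
      ∫ x, G x ∂μ = ∫ x, h x ∂μ := by
  have hne : Nonempty X := by
    by_contra hcon
    rw [not_nonempty_iff] at hcon
    have := measure_univ (μ := μ)
    rw [Set.univ_eq_empty_iff.2 hcon, measure_empty] at this
    exact zero_ne_one this
  obtain ⟨x0⟩ := hne
  have hC0 : 0 ≤ C := (abs_nonneg _).trans (hC x0)
  set g := bsum T h with hgdef
  have hg : ∀ n, Measurable (g n) := bsum_meas hT.measurable hh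
  have hCg : ∀ n x, |g n x| ≤ C * n := bsum_abs hC
  have hsub : ∀ n m x, g (n + m) x ≤ g n x + g m (T^[n] x) := fun n m x => (bsum_add n m x).le
  have hilo : Integrable (lo g) μ := int_bdd (lo_meas hg) (lo_abs hCg hC0)
  have hihi : Integrable (hi g) μ := int_bdd (hi_meas hg) (hi_abs hCg hC0)
  have h1 := half hT hh hC0 hC
  have hh' : Measurable fun x => -h x := hh.neg
  have hC' : ∀ x, |-h x| ≤ C := fun x => by rw [abs_neg]; exact hC x
  have h2 := half hT hh' hC0 hC'
  have hg' : ∀ n, Measurable (bsum T (fun x => -h x) n) := bsum_meas hT.measurable hh'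
  have hCg' : ∀ n x, |bsum T (fun x => -h x) n x| ≤ C * n := bsum_abs hC'
  have h3 : ∀ x, hi g x ≤ -lo (bsum T fun x => -h x) x := by
    intro x
    refine le_of_forall_pos_le_add fun δ hδ => ?_
    have hev := eventually_lt_of_lt_liminf
      (show lo (bsum T fun x => -h x) x - δ < liminf
        (fun n : ℕ => bsum T (fun x => -h x) n x / n) atTop from sub_lt_self _ hδ)
      (bddB hCg' hC0 x)
    refine limsup_le_of_le (bddB hCg hC0 x).isCoboundedUnder_le ?_
    filter_upwards [hev] with n hn
    have : bsum T (fun x => -h x) n x = -g n x := by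
      rw [hgdef]; unfold bsum; rw [Finset.sum_neg_distrib]
    rw [this, neg_div] at hn
    linarith
  have h4 : ∫ x, hi g x ∂μ ≤ ∫ x, h x ∂μ := by
    have : ∫ x, hi g x ∂μ ≤ ∫ x, -lo (bsum T fun x => -h x) x ∂μ :=
      integral_mono hihi (int_bdd (lo_meas hg') (lo_abs hCg' hC0)).neg h3
    rw [integral_neg] at this
    rw [integral_neg] at h2
    linarith
  have h5 : ∫ x, lo g x ∂μ ≤ ∫ x, hi g x ∂μ := integral_mono hilo hihi (lo_le_hi hCg hC0)
  have heq : ∀ᵐ x ∂μ, lo g x = hi g x := by
    have hz : ∫ x, (hi g x - lo g x) ∂μ = 0 := by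
      rw [integral_sub hihi hilo]; linarith
    have := (integral_eq_zero_iff_of_nonneg (f := fun x => hi g x - lo g x)
      (fun x => sub_nonneg.2 (lo_le_hi hCg hC0 x)) (hihi.sub hilo)).1 hz
    filter_upwards [this] with x hx
    have hx' : hi g x - lo g x = 0 := hx
    linarith
  have hinv : ∀ᵐ x ∂μ, lo g (T x) = lo g x := by
    filter_upwards [inv_ae hT (lo_meas hg) (lo_abs hCg hC0) (lo_le_comp hCg hC0 hsub)] with x hx
    exact hx 1
  refine ⟨hi g, hi_meas hg, hi_abs hCg hC0, ?_, ?_, by linarith⟩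
  · filter_upwards [hinv, heq, hT.quasiMeasurePreserving.ae heq] with x a b c
    rw [← c, a, b]
  · filter_upwards [heq] with x hx
    exact tendsto_of_liminf_eq_limsup hx rfl (bddA hCg hC0 x) (bddB hCg hC0 x)

theorem kingman_bdd {X : Type*} [MeasurableSpace X] {μ : Measure X} [IsProbabilityMeasure μ]
    {T : X → X} (hT : MeasurePreserving T μ μ) {g : ℕ → X → ℝ} (hg : ∀ n, Measurable (g n)) {C : ℝ}
    (hC : ∀ n x, |g n x| ≤ C * n) (hsub : ∀ n m x, g (n + m) x ≤ g n x + g m (T^[n] x)) :
    ∃ G : X → ℝ, Measurable G ∧ (∀ x, |G x| ≤ C) ∧ (∀ᵐ x ∂μ, G (T x) = G x) ∧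
      (∀ᵐ x ∂μ, Tendsto (fun n : ℕ => g n x / n) atTop (𝓝 (G x))) ∧
      Tendsto (fun n : ℕ => (∫ x, g n x ∂μ) / n) atTop (𝓝 (∫ x, G x ∂μ)) := by
  have hne : Nonempty X := by
    by_contra hcon
    rw [not_nonempty_iff] at hcon
    have := measure_univ (μ := μ)
    rw [Set.univ_eq_empty_iff.2 hcon, measure_empty] at this
    exact zero_ne_one this
  obtain ⟨x0⟩ := hne
  have hC0 : 0 ≤ C := by
    have := (abs_nonneg _).trans (hC 1 x0)
    simpa using this
  have hilo : Integrable (lo g) μ := int_bdd (lo_meas hg) (lo_abs hC hC0)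
  have hihi : Integrable (hi g) μ := int_bdd (hi_meas hg) (hi_abs hC hC0)
  -- the upper limit exceeds the lower limit by at most e
  have hA : ∀ e : ℝ, 0 < e → ∀ᵐ x ∂μ, hi g x ≤ lo g x + e := by
    intro e he
    have hN : ∀ N : ℕ, ∫ x, max (hi g x - lo g x - e) 0 ∂μ ≤ 2 * C * μ.real (bad g e N) := by
      intro N
      have hind : Measurable ((bad g e N).indicator (1 : X → ℝ)) :=
        measurable_one.indicator (bad_meas hg e N)
      have hindb : ∀ x, |(bad g e N).indicator (1 : X → ℝ) x| ≤ 1 := by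
        intro x
        by_cases hx : x ∈ bad g e N
        · simp [hx]
        · simp [hx]
      obtain ⟨b, hb1, hb2, -, hb4, hb5⟩ := birkhoff_bdd hT hind hindb
      rw [integral_indicator_one (bad_meas hg e N)] at hb5
      rw [← hb5, ← integral_const_mul]
      refine integral_mono_ae ?_ ((int_bdd hb1 hb2).const_mul _) ?_
      · exact ((hihi.sub hilo).sub (integrable_const e)).pos_part
      · filter_upwards [greedy_ae hT hg hC hC0 hsub he.le N, hb4] with x hx hbx
        have hb0 : 0 ≤ b x := by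
          refine ge_of_tendsto' hbx fun n => ?_
          refine div_nonneg (Finset.sum_nonneg fun k _ => ?_) (Nat.cast_nonneg n)
          exact Set.indicator_nonneg (fun _ _ => zero_le_one) _
        refine max_le ?_ (by positivity)
        have hle : hi g x ≤ lo g x + e + 2 * C * b x := by
          have ht : Tendsto (fun n : ℕ => (lo g x + e) + 2 * C *
              ((∑ k ∈ Finset.range n, (bad g e N).indicator (1 : X → ℝ) (T^[k] x)) / n)
                + 2 * C * N / n) atTop (𝓝 ((lo g x + e) + 2 * C * b x + 0)) := by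
            refine (tendsto_const_nhds.add (hbx.const_mul _)).add ?_
            exact tendsto_const_div_atTop_nhds_zero_nat _
          rw [add_zero] at ht
          have hl := ht.limsup_eq
          rw [← hl]
          refine limsup_le_limsup ?_ (bddB hC hC0 x).isCoboundedUnder_le ht.isBoundedUnder_le
          filter_upwards [eventually_ge_atTop 1] with n hn
          have hnp : (0 : ℝ) < n := by exact_mod_cast hn
          have := hx n
          rw [div_le_iff₀ hnp]
          have e1 : ((lo g x + e) + 2 * C *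
              ((∑ k ∈ Finset.range n, (bad g e N).indicator (1 : X → ℝ) (T^[k] x)) / n)
                + 2 * C * N / n) * n = n * (lo g x + e)
              + 2 * C * (∑ k ∈ Finset.range n, (bad g e N).indicator (1 : X → ℝ) (T^[k] x))
                + 2 * C * N := by
            field_simp
          rw [e1]
          exact this
        linarith
    have hlim : Tendsto (fun N => 2 * C * μ.real (bad g e N)) atTop (𝓝 (2 * C * 0)) :=
      (bad_tendsto hg hC hC0 he).const_mul _
    rw [mul_zero] at hlim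
    have h0 : ∫ x, max (hi g x - lo g x - e) 0 ∂μ ≤ 0 := ge_of_tendsto' hlim hN
    have h1 : 0 ≤ ∫ x, max (hi g x - lo g x - e) 0 ∂μ :=
      integral_nonneg fun x => le_max_right _ _
    have h2 := (integral_eq_zero_iff_of_nonneg (f := fun x => max (hi g x - lo g x - e) 0)
      (fun x => le_max_right _ _)
      ((hihi.sub hilo).sub (integrable_const e)).pos_part).1 (le_antisymm h0 h1)
    filter_upwards [h2] with x hx
    have hx' : max (hi g x - lo g x - e) 0 = 0 := hx
    have := le_max_left (hi g x - lo g x - e) 0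
    linarith
  have heq : ∀ᵐ x ∂μ, lo g x = hi g x := by
    have h := ae_all_iff.2 fun j : ℕ => hA (1 / ((j : ℝ) + 1)) (by positivity)
    filter_upwards [h] with x hx
    refine le_antisymm (lo_le_hi hC hC0 x) ?_
    refine le_of_forall_pos_le_add fun δ hδ => ?_
    obtain ⟨j, hj⟩ := exists_nat_one_div_lt hδ
    have := hx j
    linarith
  have hinv : ∀ᵐ x ∂μ, lo g (T x) = lo g x := by
    filter_upwards [inv_ae hT (lo_meas hg) (lo_abs hC hC0) (lo_le_comp hC hC0 hsub)] with x hx
    exact hx 1
  have htend : ∀ᵐ x ∂μ, Tendsto (fun n : ℕ => g n x / n) atTop (𝓝 (hi g x)) := by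
    filter_upwards [heq] with x hx
    exact tendsto_of_liminf_eq_limsup hx rfl (bddA hC hC0 x) (bddB hC hC0 x)
  refine ⟨hi g, hi_meas hg, hi_abs hC hC0, ?_, htend, ?_⟩
  · filter_upwards [hinv, heq, hT.quasiMeasurePreserving.ae heq] with x a b c
    rw [← c, a, b]
  · have := tendsto_integral_of_dominated_convergence (μ := μ)
      (F := fun n : ℕ => fun x => g n x / n) (f := hi g) (fun _ => C)
      (fun n => ((hg n).div_const _).aestronglyMeasurable) (integrable_const C)
      (fun n => Eventually.of_forall fun x => quot_abs hC hC0 x n) htend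
    refine this.congr fun n => ?_
    rw [integral_div]

end Pool.Agent.Helper18.SD
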