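import Mathlib
import Pool.Agent.Helper78.SM.Key
import Pool.Agent.Helper78.SM.Num
import Pool.Agent.Helper78.SM.SliceA

/-! Block SD-KEY: helper78's `dist_bound`, `key_bound` with different forcing terms `η`, `η'`
(constants 2, 32, 16 replaced by 3, 48, 24), and the numerical facts for typical windows.

`dist_boundE`: as `Helper78.SM.dist_bound`; in the step `z (i+2) - z' (i+2)` has the additional term
`η i - η' i`, which is at most `1/2 x b`, so the total is at most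
`(3/2 + 1/2 + 1/2) x b <= 3 x b` (`x = |φ (z (i+1))|`, `b = 3 ^ i P i c`).
`key_boundE`: as `Helper78.SM.key_bound`: `|φ (z (i+1)) - φ (z' (i+1))| <= K 3 ^ i P i c`, terms
`K 3 ^ i P i c 2 ^ i 4 ^ i = K 24 ^ i P i c`; closeness `2 K 3 ^ (m+1) |φ (z 1)| 8 ^ (m+1)`.
`typ_HS48`, `typ_HC24`: as `Helper78.SM.typ_HS`, `typ_HC` (there is room: `48 <= 64`, `b >= 1000`). -/

set_option autoImplicit false
open Real

namespace Pool.Agent.Helper18.SD

open Pool.Agent.Helper78.SM (Typ typ_lo typ_Q_small typ_Q_large contract prodbound cross_wronskian)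

section
variable {φ ψ : ℝ → ℝ} {K : ℝ} {z z' v v' η η' : ℕ → ℝ} {N : ℕ} {κ mder lo : ℝ}

theorem dist_boundE (hK : 0 ≤ K) (H1 : ∀ s s', |ψ s - ψ s'| ≤ (|φ s| + K * |s - s'|) * |s - s'|)
    (hz0 : z 0 = z' 0) (hz : ∀ i, z (i+2) = ψ (z (i+1)) - z i + η i)
    (hz' : ∀ i, z' (i+2) = ψ (z' (i+1)) - z' i + η' i) (hκ : 1 ≤ κ) {m : ℕ}
    (hE : ∀ i, i ≤ m → 2 * |η i - η' i| ≤
      3 ^ i * (∏ l ∈ Finset.range (i+1), |φ (z (l+1))|) * |z 1 - z' 1|)
    (hpair : ∀ i, i + 1 ≤ m → κ ≤ |φ (z (i+1)) * φ (z (i+2))|)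
    (hC : ∀ i, i ≤ m → 2 * K * (3 ^ i * (∏ l ∈ Finset.range i, |φ (z (l+1))|) * |z 1 - z' 1|) ≤
      |φ (z (i+1))|) :
    ∀ i, i ≤ m + 1 → |z (i+1) - z' (i+1)| ≤
      3 ^ i * (∏ l ∈ Finset.range i, |φ (z (l+1))|) * |z 1 - z' 1| := by
  set P : ℕ → ℝ := fun i => ∏ l ∈ Finset.range i, |φ (z (l+1))| with hP
  have hP0 : ∀ i, 0 ≤ P i := fun i => Finset.prod_nonneg (fun _ _ => abs_nonneg _)
  have hPs : ∀ i, P (i+1) = P i * |φ (z (i+1))| := fun i => Finset.prod_range_succ _ _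
  have step : ∀ i, i ≤ m → |z (i+1) - z' (i+1)| ≤ 3 ^ i * P i * |z 1 - z' 1| →
      |z i - z' i| ≤ (if i = 0 then 0 else 3 ^ (i-1) * P (i-1) * |z 1 - z' 1|) →
      |z (i+2) - z' (i+2)| ≤ 3 ^ (i+1) * P (i+1) * |z 1 - z' 1| := by
    intro i hi h1 h2
    have hCi := hC i hi
    have hEi := hE i hi
    have e : z (i+2) - z' (i+2) = ((ψ (z (i+1)) - ψ (z' (i+1))) - (z i - z' i)) +
        (η i - η' i) := by
      rw [hz, hz']; ring
    rw [e]
    have h3 := abs_sub (ψ (z (i+1)) - ψ (z' (i+1))) (z i - z' i)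
    have h3' := abs_add_le ((ψ (z (i+1)) - ψ (z' (i+1))) - (z i - z' i)) (η i - η' i)
    rw [Finset.prod_range_succ] at hEi
    have h4 := H1 (z (i+1)) (z' (i+1))
    set d := |z (i+1) - z' (i+1)| with hd
    set x := |φ (z (i+1))| with hx
    set b := 3 ^ i * P i * |z 1 - z' 1| with hb
    have hx0 : 0 ≤ x := abs_nonneg _
    have hd0 : 0 ≤ d := abs_nonneg _
    have hb0 : 0 ≤ b := by
      have := hP0 i
      have := abs_nonneg (z 1 - z' 1)
      positivity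
    have h5 : K * d ≤ x / 2 := by
      have : K * d ≤ K * b := by gcongr
      linarith
    have h6 : (x + K * d) * d ≤ (3 / 2 * x) * b := by
      calc (x + K * d) * d ≤ (x + x / 2) * b := by gcongr
        _ = _ := by ring
    have h7 : |z i - z' i| ≤ 1 / 2 * (x * b) := by
      rcases Nat.eq_zero_or_pos i with h0 | h0
      · rw [if_pos h0] at h2
        have : 0 ≤ x * b := by positivity
        linarith
      · rw [if_neg (by omega)] at h2
        refine h2.trans ?_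
        obtain ⟨i', rfl⟩ : ∃ i', i = i' + 1 := ⟨i - 1, by omega⟩
        rw [Nat.add_sub_cancel]
        have hp := hpair i' (by omega)
        rw [abs_mul] at hp
        have e2 : 1 / 2 * (x * b) = (3 / 2) * (|φ (z (i'+1))| * x) * (3 ^ i' * P i' * |z 1 - z' 1|) := by
          rw [hb, hPs]; ring
        rw [e2]
        have h8 : 0 ≤ 3 ^ i' * P i' * |z 1 - z' 1| := by
          have := hP0 i'
          have := abs_nonneg (z 1 - z' 1)
          positivity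
        have h9 : 1 ≤ |φ (z (i'+1))| * x := hκ.trans hp
        nlinarith
    have h10 : 2 * |η i - η' i| ≤ x * b := by
      refine hEi.trans (le_of_eq ?_)
      rw [hb]; ring
    have h11 : 0 ≤ x * b := by positivity
    rw [hPs]
    have e3 : 3 ^ (i+1) * (P i * x) * |z 1 - z' 1| = 3 * (x * b) := by rw [hb]; ring
    rw [e3]
    linarith
  intro i
  induction i using Nat.strong_induction_on with
  | _ i ih =>
    intro hi
    match i, ih, hi with
    | 0, _, _ => simp [P]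
    | 1, ih, _ =>
      have := step 0 (by omega) (ih 0 (by omega) (by omega)) (by simp [hz0])
      exact this
    | (i+2), ih, hi =>
      have h1 := ih (i+1) (by omega) (by omega)
      have h2 := ih i (by omega) (by omega)
      have := step (i+1) (by omega) h1 (by
        rw [if_neg (by omega), Nat.add_sub_cancel]; exact h2)
      exact this

theorem key_boundE (hK : 0 ≤ K)
    (H1 : ∀ s s', |ψ s - ψ s'| ≤ (|φ s| + K * |s - s'|) * |s - s'|)
    (H2 : ∀ s s', |φ s - φ s'| ≤ K * |s - s'|)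
    (hz0 : z 0 = z' 0) (hz : ∀ i, z (i+2) = ψ (z (i+1)) - z i + η i)
    (hz' : ∀ i, z' (i+2) = ψ (z' (i+1)) - z' i + η' i)
    (hE : ∀ i, i + 1 < N → 2 * |η i - η' i| ≤
      3 ^ i * (∏ l ∈ Finset.range (i+1), |φ (z (l+1))|) * |z 1 - z' 1|)
    (hv : ∀ i, v (i+2) = φ (z (i+1)) * v (i+1) - v i)
    (hv' : ∀ i, v' (i+2) = φ (z' (i+1)) * v' (i+1) - v' i)
    (hv0 : v 0 = v' 0) (hv1 : v 1 = v' 1) (hv1ne : v 1 ≠ 0)
    (hκ : 1 ≤ κ) (hpair : ∀ i, i + 1 < N → κ ≤ |φ (z (i+1)) * φ (z (i+2))|)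
    (hcon : ∀ i, i < N → |φ (z (i+1))| * |v (i+1)| ≤ 2 * |v i|)
    (hcon' : ∀ i, i < N → |φ (z' (i+1))| * |v' (i+1)| ≤ 2 * |v' i|)
    (hlo : 0 < lo) (hl : ∀ i, i < N → lo ≤ |φ (z (i+1))|)
    (hl' : ∀ i, i < N → lo ≤ |φ (z' (i+1))|)
    (hmder : 0 < mder) (Hm : mder * |z 1 - z' 1| ≤ |φ (z 1) - φ (z' 1)|)
    (HS : ∀ i, 1 ≤ i → i < N → 2 * 48 ^ i * K * |φ (z 1)| ≤
      mder * ((∏ l ∈ Finset.range i, |φ (z (l+2))|) * |φ (z (i+1))|))
    {m0 : ℕ}
    (HC : ∀ m, m0 ≤ m → m + 1 < N → 2 * 24 ^ (m+1) * K * |φ (z 1)| ≤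
      mder * lo * (∏ l ∈ Finset.range (m+1), |φ (z (l+2))|))
    (hbase : ∀ i, i ≤ m0 → 2 * K * (3 ^ i * (∏ l ∈ Finset.range i, |φ (z (l+1))|) * |z 1 - z' 1|) ≤
      |φ (z (i+1))|) :
    ∀ m, m0 ≤ m → m + 1 < N →
      |z 1 - z' 1| * (mder * lo * (∏ l ∈ Finset.range m, |φ (z (l+2))|) ^ 2) ≤ 8 ^ (m+1) := by
  set c := |z 1 - z' 1| with hc
  have hc0 : 0 ≤ c := abs_nonneg _
  set P : ℕ → ℝ := fun i => ∏ l ∈ Finset.range i, |φ (z (l+1))| with hP
  set Q : ℕ → ℝ := fun i => ∏ l ∈ Finset.range i, |φ (z (l+2))| with hQ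
  have hPQ : ∀ i, P (i+1) = |φ (z 1)| * Q i := by
    intro i
    rw [hP, hQ]; simp only
    rw [Finset.prod_range_succ', mul_comm]
  have hQs : ∀ i, Q (i+1) = Q i * |φ (z (i+2))| := fun i => Finset.prod_range_succ _ _
  have hQpos : ∀ i, i < N → 0 < Q i := by
    intro i hi
    apply Finset.prod_pos
    intro l hl1
    rw [Finset.mem_range] at hl1
    exact lt_of_lt_of_le hlo (hl (l+1) (by omega))
  have hP0 : ∀ i, 0 ≤ P i := fun i => Finset.prod_nonneg (fun _ _ => abs_nonneg _)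
  have hv1pos : 0 < |v 1| := abs_pos.2 hv1ne
  -- first claim
  have claim1 : ∀ m, m + 1 < N → (∀ i, i ≤ m → 2 * K * (3 ^ i * P i * c) ≤ |φ (z (i+1))|) →
      c * (mder * lo * Q m ^ 2) ≤ 8 ^ (m+1) := by
    intro m hm hC
    have hd := dist_boundE (κ := κ) hK H1 hz0 hz hz' hκ (m := m)
      (fun i hi => hE i (by omega)) (fun i hi => hpair i (by omega)) hC
    have hff : ∀ i, i ≤ m → |φ (z (i+1)) - φ (z' (i+1))| ≤ K * (3 ^ i * P i * c) := by
      intro i hi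
      refine (H2 _ _).trans ?_
      have := hd i (by omega)
      gcongr
    have hfhalf : ∀ i, i ≤ m → |φ (z (i+1))| ≤ 2 * |φ (z' (i+1))| := by
      intro i hi
      have h1 := hff i hi
      have h2 := hC i hi
      have h3 := abs_sub_abs_le_abs_sub (φ (z (i+1))) (φ (z' (i+1)))
      linarith
    have hvb := prodbound (f := fun i => φ (z (i+1))) (v := v) (b := 2) (by norm_num) (m := m)
      (fun i _ hi => hcon i (by omega))
    have hvb' := prodbound (f := fun i => φ (z (i+1))) (v := v') (b := 4) (by norm_num) (m := m)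
      (fun i _ hi => by
        have h1 := hfhalf i hi
        have h2 := hcon' i (by omega)
        have h3 := abs_nonneg (v' (i+1))
        nlinarith)
    have hQe : ∀ i, (∏ l ∈ Finset.range i, |(fun i => φ (z (i+1))) (l+1)|) = Q i := fun i => rfl
    -- terms
    have hterm : ∀ i, 1 ≤ i → i ≤ m →
        |(φ (z (i+1)) - φ (z' (i+1))) * (v (i+1) * v' (i+1))| ≤
          mder * c * |v 1| ^ 2 * (1 / 2 * (1 / 2) ^ i) := by
      intro i hi1 him
      have hQi : 0 < Q i := hQpos i (by omega)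
      have h1 := hvb i him
      have h2 := hvb' i him
      rw [hQe, ← hv1] at h2
      rw [hQe] at h1
      have h3 := hff i him
      have hS := HS i hi1 (by omega)
      have e1 : Q i ^ 2 * |(φ (z (i+1)) - φ (z' (i+1))) * (v (i+1) * v' (i+1))| =
          |φ (z (i+1)) - φ (z' (i+1))| * ((Q i * |v (i+1)|) * (Q i * |v' (i+1)|)) := by
        rw [abs_mul, abs_mul]; ring
      have h4 : Q i ^ 2 * |(φ (z (i+1)) - φ (z' (i+1))) * (v (i+1) * v' (i+1))| ≤
          K * (3 ^ i * P i * c) * ((2 ^ i * |v 1|) * (4 ^ i * |v 1|)) := by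
        rw [e1]
        have := hP0 i
        gcongr
      obtain ⟨i', rfl⟩ : ∃ i', i = i' + 1 := ⟨i - 1, by omega⟩
      rw [hPQ] at h4
      have e2 : K * (3 ^ (i'+1) * (|φ (z 1)| * Q i') * c) * ((2 ^ (i'+1) * |v 1|) *
          (4 ^ (i'+1) * |v 1|)) =
          (2 * 48 ^ (i'+1) * K * |φ (z 1)|) * (Q i' * c * |v 1| ^ 2 * (1 / 2 * (1 / 2) ^ (i'+1))) := by
        have h32 : (48:ℝ) ^ (i'+1) = 3 ^ (i'+1) * 2 ^ (i'+1) * 4 ^ (i'+1) * 2 ^ (i'+1) := by
          rw [← mul_pow, ← mul_pow, ← mul_pow]; norm_num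
        have h12 : (1 / 2 : ℝ) ^ (i'+1) * 2 ^ (i'+1) = 1 := by
          rw [← mul_pow]; norm_num
        rw [h32]
        linear_combination (-(K * 3 ^ (i'+1) * (|φ (z 1)| * Q i') * c * 2 ^ (i'+1) * |v 1| *
          4 ^ (i'+1) * |v 1|)) * h12
      rw [e2] at h4
      have h5 : (2 * 48 ^ (i'+1) * K * |φ (z 1)|) * (Q i' * c * |v 1| ^ 2 *
          (1 / 2 * (1 / 2) ^ (i'+1))) ≤
          (mder * (Q (i'+1) * |φ (z (i'+1+1))|)) * (Q i' * c * |v 1| ^ 2 *
          (1 / 2 * (1 / 2) ^ (i'+1))) := by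
        apply mul_le_mul_of_nonneg_right hS
        have : 0 < Q i' := hQpos i' (by omega)
        positivity
      have e3 : (mder * (Q (i'+1) * |φ (z (i'+1+1))|)) * (Q i' * c * |v 1| ^ 2 *
          (1 / 2 * (1 / 2) ^ (i'+1))) =
          Q (i'+1) ^ 2 * (mder * c * |v 1| ^ 2 * (1 / 2 * (1 / 2) ^ (i'+1))) := by
        have : Q (i'+1) = Q i' * |φ (z (i'+1+1))| := hQs i'
        rw [sq (Q (i'+1))]
        nth_rewrite 3 [this]
        ring
      rw [e3] at h5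
      exact le_of_mul_le_mul_left (h4.trans h5) (by positivity)
    have hW := cross_wronskian (f := fun i => φ (z (i+1))) (f' := fun i => φ (z' (i+1)))
      hv hv' hv0 hv1 (m+1)
    rw [Finset.sum_range_succ'] at hW
    have hsum : |∑ i ∈ Finset.range m, ((fun i => φ (z (i+1))) (i+1) - (fun i => φ (z' (i+1))) (i+1)) *
        (v (i+1+1) * v' (i+1+1))| ≤ mder * c * |v 1| ^ 2 * (1 / 2) := by
      refine (Finset.abs_sum_le_sum_abs _ _).trans ?_
      have h1 : ∀ i ∈ Finset.range m, |((fun i => φ (z (i+1))) (i+1) - (fun i => φ (z' (i+1))) (i+1)) *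
        (v (i+1+1) * v' (i+1+1))| ≤ mder * c * |v 1| ^ 2 * (1 / 2 * (1 / 2) ^ (i+1)) := by
        intro i hi
        rw [Finset.mem_range] at hi
        exact hterm (i+1) (by omega) (by omega)
      refine (Finset.sum_le_sum h1).trans ?_
      rw [← Finset.mul_sum, ← Finset.mul_sum]
      have h2 : ∑ i ∈ Finset.range m, (1 / 2 : ℝ) ^ (i+1) ≤ 1 := by
        simp only [pow_succ]
        rw [← Finset.sum_mul]
        have h3 := geom_sum_eq (x := (1/2:ℝ)) (by norm_num) m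
        rw [h3]
        have h4 : 0 ≤ (1/2:ℝ) ^ m := by positivity
        have h5 : ((1/2:ℝ) ^ m - 1) / (1/2 - 1) * (1/2) = 1 - (1/2:ℝ) ^ m := by
          rw [show (1/2 - 1 : ℝ) = -(1/2) by norm_num]
          field_simp
          ring
        rw [h5]
        linarith
      have h3 : 0 ≤ mder * c * |v 1| ^ 2 := by positivity
      calc mder * c * |v 1| ^ 2 * (1 / 2 * ∑ i ∈ Finset.range m, (1 / 2 : ℝ) ^ (i+1))
          ≤ mder * c * |v 1| ^ 2 * (1 / 2 * 1) := by gcongr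
        _ = _ := by ring
    have hWlow : mder * c * |v 1| ^ 2 * (1 / 2) ≤ |v (m+1+1) * v' (m+1) - v (m+1) * v' (m+1+1)| := by
      rw [hW]
      set S := ∑ i ∈ Finset.range m, ((fun i => φ (z (i+1))) (i+1) - (fun i => φ (z' (i+1))) (i+1)) *
        (v (i+1+1) * v' (i+1+1)) with hS
      set T0 := ((fun i => φ (z (i+1))) 0 - (fun i => φ (z' (i+1))) 0) * (v (0+1) * v' (0+1)) with hT0
      have h1 : mder * c * |v 1| ^ 2 ≤ |T0| := by
        have : |T0| = |φ (z 1) - φ (z' 1)| * |v 1| ^ 2 := by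
          rw [hT0]
          simp only [zero_add]
          rw [abs_mul, abs_mul, ← hv1, sq]
        rw [this]
        gcongr
      have h2 : |T0| - |S| ≤ |S + T0| := by
        have := abs_sub_abs_le_abs_sub T0 (-S)
        rw [abs_neg, sub_neg_eq_add, add_comm T0 S] at this
        exact this
      linarith
    have hup : lo * Q m ^ 2 * |v (m+1+1) * v' (m+1) - v (m+1) * v' (m+1+1)| ≤
        4 * 8 ^ m * |v 1| ^ 2 := by
      have h1 := hcon (m+1) hm
      have h2 := hcon' (m+1) hm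
      have h3 := hl (m+1) hm
      have h4 := hl' (m+1) hm
      have h5 : lo * |v (m+1+1)| ≤ 2 * |v (m+1)| := by
        refine le_trans ?_ h1
        gcongr
      have h6 : lo * |v' (m+1+1)| ≤ 2 * |v' (m+1)| := by
        refine le_trans ?_ h2
        gcongr
      have h7 := hvb m le_rfl
      have h8 := hvb' m le_rfl
      rw [hQe] at h7 h8
      rw [← hv1] at h8
      have hQm : 0 < Q m := hQpos m (by omega)
      have h9 := abs_sub (v (m+1+1) * v' (m+1)) (v (m+1) * v' (m+1+1))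
      rw [abs_mul, abs_mul] at h9
      have h10 : lo * |v (m+1+1) * v' (m+1) - v (m+1) * v' (m+1+1)| ≤
          4 * (|v (m+1)| * |v' (m+1)|) := by
        calc lo * |v (m+1+1) * v' (m+1) - v (m+1) * v' (m+1+1)|
            ≤ lo * (|v (m+1+1)| * |v' (m+1)| + |v (m+1)| * |v' (m+1+1)|) := by gcongr
          _ = (lo * |v (m+1+1)|) * |v' (m+1)| + |v (m+1)| * (lo * |v' (m+1+1)|) := by ring
          _ ≤ (2 * |v (m+1)|) * |v' (m+1)| + |v (m+1)| * (2 * |v' (m+1)|) := by gcongr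
          _ = _ := by ring
      calc lo * Q m ^ 2 * |v (m+1+1) * v' (m+1) - v (m+1) * v' (m+1+1)|
          = Q m ^ 2 * (lo * |v (m+1+1) * v' (m+1) - v (m+1) * v' (m+1+1)|) := by ring
        _ ≤ Q m ^ 2 * (4 * (|v (m+1)| * |v' (m+1)|)) := by gcongr
        _ = 4 * ((Q m * |v (m+1)|) * (Q m * |v' (m+1)|)) := by ring
        _ ≤ 4 * ((2 ^ m * |v 1|) * (4 ^ m * |v 1|)) := by gcongr
        _ = 4 * (2 ^ m * 4 ^ m) * |v 1| ^ 2 := by ring
        _ = 4 * 8 ^ m * |v 1| ^ 2 := by rw [← mul_pow]; norm_num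
    have hQm : 0 < Q m := hQpos m (by omega)
    have hfin : |v 1| ^ 2 * (c * (mder * lo * Q m ^ 2)) ≤ |v 1| ^ 2 * 8 ^ (m+1) := by
      have h1 : lo * Q m ^ 2 * (mder * c * |v 1| ^ 2 * (1 / 2)) ≤ 4 * 8 ^ m * |v 1| ^ 2 := by
        refine le_trans ?_ hup
        gcongr
      rw [pow_succ (8:ℝ) m]
      nlinarith
    exact le_of_mul_le_mul_left hfin (by positivity)
  -- closeness for all m
  have hCall : ∀ m, m0 ≤ m → m < N → ∀ i, i ≤ m → 2 * K * (3 ^ i * P i * c) ≤ |φ (z (i+1))| := by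
    intro m hm
    induction m, hm using Nat.le_induction with
    | base => intro _; exact hbase
    | succ m hm ih =>
      intro hmN i hi
      have ihm := ih (by omega)
      rcases Nat.lt_or_ge m i with hlt | hge
      · have him : i = m + 1 := by omega
        subst him
        have h1 := claim1 m hmN ihm
        have h2 := HC m hm hmN
        have hQm : 0 < Q m := hQpos m (by omega)
        have hpos : 0 < mder * lo * Q m := by positivity
        rw [hPQ]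
        apply le_of_mul_le_mul_left _ hpos
        calc mder * lo * Q m * (2 * K * (3 ^ (m+1) * (|φ (z 1)| * Q m) * c))
            = (2 * K * 3 ^ (m+1) * |φ (z 1)|) * (c * (mder * lo * Q m ^ 2)) := by ring
          _ ≤ (2 * K * 3 ^ (m+1) * |φ (z 1)|) * 8 ^ (m+1) := by gcongr
          _ = 2 * (3 ^ (m+1) * 8 ^ (m+1)) * K * |φ (z 1)| := by ring
          _ = 2 * 24 ^ (m+1) * K * |φ (z 1)| := by rw [← mul_pow]; norm_num
          _ ≤ mder * lo * Q (m+1) := h2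
          _ = mder * lo * Q m * |φ (z (m+1+1))| := by rw [hQs]; ring
      · exact ihm i hge
  intro m hm hmN
  exact claim1 m hmN (hCall m hm (by omega))

end

section
variable {f : ℕ → ℝ} {b : ℝ} {N : ℕ}

theorem typ_HS48 (hb : 1000 ≤ b) (hN : 12 ≤ N) (hup : ∀ i, |f i| ≤ 9 * b ^ 10)
    (t1 : ∀ i, i + 1 < N → 4096 ≤ |f i * f (i+1)|) (t2 : ∀ i, i ≤ 8 → b ^ 9 ≤ |f i|) :
    ∀ i, 1 ≤ i → i < N → 2 * 48 ^ i * (40 * b ^ 10) * |f 0| ≤
      b ^ 9 * ((∏ l ∈ Finset.range i, |f (l+1)|) * |f i|) := by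
  intro i hi1 hiN
  have hb0 : 0 < b := by linarith
  have hb100 : 100 ≤ b := by linarith
  have hf0 := hup 0
  have hL : 2 * 48 ^ i * (40 * b ^ 10) * |f 0| ≤ 720 * 48 ^ i * b ^ 20 := by
    calc 2 * 48 ^ i * (40 * b ^ 10) * |f 0| ≤ 2 * 48 ^ i * (40 * b ^ 10) * (9 * b ^ 10) := by gcongr
      _ = _ := by ring
  refine hL.trans ?_
  rcases Nat.lt_or_ge i 9 with h | h
  · have h1 := typ_Q_small hb100 t2 (show i ≤ 8 by omega)
    have h2 := t2 i (by omega)
    have hb7 : (1000:ℝ) ^ 7 ≤ b ^ 7 := pow_le_pow_left₀ (by norm_num) hb 7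
    have h3 : (48:ℝ) ^ (i - 1) ≤ (b ^ 9) ^ (i - 1) := by
      apply pow_le_pow_left₀ (by norm_num)
      have : (1000:ℝ) ^ 9 ≤ b ^ 9 := pow_le_pow_left₀ (by norm_num) hb 9
      linarith
    obtain ⟨i', rfl⟩ : ∃ i', i = i' + 1 := ⟨i - 1, by omega⟩
    rw [Nat.add_sub_cancel] at h3
    calc 720 * 48 ^ (i'+1) * b ^ 20 = b ^ 20 * 34560 * 48 ^ i' := by ring
      _ ≤ b ^ 20 * b ^ 7 * (b ^ 9) ^ i' := by gcongr; linarith
      _ = b ^ 9 * (b ^ (9 * (i'+1)) * b ^ 9) := by rw [← pow_mul]; ring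
      _ ≤ _ := by gcongr
  · obtain ⟨j, rfl⟩ : ∃ j, i = 8 + j := ⟨i - 8, by omega⟩
    have h1 := typ_Q_large hb100 hN hup t1 t2 hiN
    have h2 := typ_lo hb100 (by omega) hup t1 (8 + j) hiN
    have hb41 : (1000:ℝ) ^ 41 ≤ b ^ 41 := pow_le_pow_left₀ (by norm_num) hb 41
    have h3 : (48:ℝ) ^ j ≤ 64 ^ j := pow_le_pow_left₀ (by norm_num) (by norm_num) j
    calc 720 * 48 ^ (8 + j) * b ^ 20 = b ^ 20 * (720 * 48 ^ 8) * 48 ^ j := by rw [pow_add]; ring
      _ ≤ b ^ 20 * b ^ 41 * 64 ^ j := by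
          gcongr
          refine le_trans ?_ hb41
          norm_num
      _ = b ^ 61 * 64 ^ j * 1 := by ring
      _ ≤ b ^ 61 * 64 ^ j * 400 := by gcongr; norm_num
      _ = b ^ 9 * (b ^ 62 * 64 ^ j * (400 / b ^ 10)) := by field_simp
      _ ≤ _ := by gcongr

theorem typ_HC24 (hb : 1000 ≤ b) (hN : 12 ≤ N) (hup : ∀ i, |f i| ≤ 9 * b ^ 10)
    (t1 : ∀ i, i + 1 < N → 4096 ≤ |f i * f (i+1)|) (t2 : ∀ i, i ≤ 8 → b ^ 9 ≤ |f i|) :
    ∀ m, 3 ≤ m → m + 1 < N → 2 * 24 ^ (m+1) * (40 * b ^ 10) * |f 0| ≤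
      b ^ 9 * (400 / b ^ 10) * (∏ l ∈ Finset.range (m+1), |f (l+1)|) := by
  intro m hm hmN
  have hb0 : 0 < b := by linarith
  have hb100 : 100 ≤ b := by linarith
  have hf0 := hup 0
  have hL : 2 * 24 ^ (m+1) * (40 * b ^ 10) * |f 0| ≤ 720 * 24 ^ (m+1) * b ^ 20 := by
    calc 2 * 24 ^ (m+1) * (40 * b ^ 10) * |f 0| ≤ 2 * 24 ^ (m+1) * (40 * b ^ 10) * (9 * b ^ 10) := by
          gcongr
      _ = _ := by ring
  refine hL.trans ?_
  have hR : b ^ 9 * (400 / b ^ 10) = 400 / b := by field_simp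
  rw [hR]
  have hmain : 2 * 24 ^ (m+1) * b ^ 21 ≤ ∏ l ∈ Finset.range (m+1), |f (l+1)| := by
    rcases Nat.lt_or_ge m 8 with h | h
    · have h1 := typ_Q_small hb100 t2 (show m + 1 ≤ 8 by omega)
      refine le_trans ?_ h1
      obtain ⟨j, rfl⟩ : ∃ j, m = 3 + j := ⟨m - 3, by omega⟩
      have hb15 : (1000:ℝ) ^ 15 ≤ b ^ 15 := pow_le_pow_left₀ (by norm_num) hb 15
      have h3 : (24:ℝ) ^ j ≤ (b ^ 9) ^ j := by
        apply pow_le_pow_left₀ (by norm_num)
        have : (1000:ℝ) ^ 9 ≤ b ^ 9 := pow_le_pow_left₀ (by norm_num) hb 9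
        linarith
      calc 2 * 24 ^ (3 + j + 1) * b ^ 21 = b ^ 21 * (2 * 24 ^ 4) * 24 ^ j := by ring
        _ ≤ b ^ 21 * b ^ 15 * (b ^ 9) ^ j := by
            gcongr
            refine le_trans ?_ hb15
            norm_num
        _ = b ^ (9 * (3 + j + 1)) := by rw [← pow_mul, ← pow_add, ← pow_add]; ring_nf
    · obtain ⟨j, hj⟩ : ∃ j, m + 1 = 8 + j := ⟨m - 7, by omega⟩
      rw [hj]
      have h1 := typ_Q_large hb100 hN hup t1 t2 (show 8 + j < N by omega)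
      refine le_trans ?_ h1
      have hb41 : (1000:ℝ) ^ 41 ≤ b ^ 41 := pow_le_pow_left₀ (by norm_num) hb 41
      have h3 : (24:ℝ) ^ j ≤ 64 ^ j := pow_le_pow_left₀ (by norm_num) (by norm_num) j
      calc 2 * 24 ^ (8 + j) * b ^ 21 = b ^ 21 * (2 * 24 ^ 8) * 24 ^ j := by rw [pow_add]; ring
        _ ≤ b ^ 21 * b ^ 41 * 64 ^ j := by
            gcongr
            refine le_trans ?_ hb41
            norm_num
        _ = _ := by ring
  rw [div_mul_eq_mul_div, le_div_iff₀ hb0]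
  calc 720 * 24 ^ (m+1) * b ^ 20 * b = 360 * (2 * 24 ^ (m+1) * b ^ 21) := by ring
    _ ≤ 400 * (2 * 24 ^ (m+1) * b ^ 21) := by gcongr; norm_num
    _ ≤ _ := by gcongr

/-- for the first nine steps, with `lo = b ^ 9` -/
theorem typ_HC24' (hb : 1000 ≤ b) (hup : ∀ i, |f i| ≤ 9 * b ^ 10)
    (t2 : ∀ i, i ≤ 8 → b ^ 9 ≤ |f i|) :
    ∀ m, m + 1 < 9 → 2 * 24 ^ (m+1) * (40 * b ^ 10) * |f 0| ≤
      b ^ 9 * b ^ 9 * (∏ l ∈ Finset.range (m+1), |f (l+1)|) := by
  intro m hm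
  have hb0 : 0 < b := by linarith
  have hb100 : 100 ≤ b := by linarith
  have hf0 := hup 0
  have h1 := typ_Q_small hb100 t2 (show m + 1 ≤ 8 by omega)
  have hb7 : (1000:ℝ) ^ 7 ≤ b ^ 7 := pow_le_pow_left₀ (by norm_num) hb 7
  have h3 : (24:ℝ) ^ m ≤ (b ^ 9) ^ m := by
    apply pow_le_pow_left₀ (by norm_num)
    have : (1000:ℝ) ^ 9 ≤ b ^ 9 := pow_le_pow_left₀ (by norm_num) hb 9
    linarith
  calc 2 * 24 ^ (m+1) * (40 * b ^ 10) * |f 0|
      ≤ 2 * 24 ^ (m+1) * (40 * b ^ 10) * (9 * b ^ 10) := by gcongr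
    _ = b ^ 20 * 17280 * 24 ^ m := by ring
    _ ≤ b ^ 20 * b ^ 7 * (b ^ 9) ^ m := by gcongr; linarith
    _ = b ^ 9 * b ^ 9 * b ^ (9 * (m+1)) := by rw [← pow_mul]; ring
    _ ≤ _ := by gcongr

/-- all products of the first factors are large -/
theorem typ_prod_ge (hb : 1000 ≤ b) (hN : 12 ≤ N) (hup : ∀ i, |f i| ≤ 9 * b ^ 10)
    (t1 : ∀ i, i + 1 < N → 4096 ≤ |f i * f (i+1)|) (t2 : ∀ i, i ≤ 8 → b ^ 9 ≤ |f i|) :
    ∀ i, i < N → 2 * b ^ 2 ≤ ∏ l ∈ Finset.range (i+1), |f l| := by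
  intro i hi
  have hb0 : 0 < b := by linarith
  have hb100 : 100 ≤ b := by linarith
  have hQ : 1 ≤ ∏ l ∈ Finset.range i, |f (l+1)| := by
    rcases Nat.lt_or_ge i 9 with h | h
    · have h1 := typ_Q_small hb100 t2 (show i ≤ 8 by omega)
      exact le_trans (one_le_pow₀ (by linarith)) h1
    · obtain ⟨j, rfl⟩ : ∃ j, i = 8 + j := ⟨i - 8, by omega⟩
      have h1 := typ_Q_large hb100 hN hup t1 t2 hi
      refine le_trans ?_ h1
      have h4 : (1:ℝ) ≤ b ^ 62 := one_le_pow₀ (by linarith)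
      have h5 : (1:ℝ) ≤ 64 ^ j := one_le_pow₀ (by norm_num)
      nlinarith
  have h0 := t2 0 (by norm_num)
  rw [Finset.prod_range_succ']
  have hb7 : (1000:ℝ) ^ 7 ≤ b ^ 7 := pow_le_pow_left₀ (by norm_num) hb 7
  calc 2 * b ^ 2 ≤ b ^ 7 * b ^ 2 := by gcongr; linarith
    _ = 1 * b ^ 9 := by ring
    _ ≤ _ := by gcongr

end

end Pool.Agent.Helper18.SD
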