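import Mathlib
import Pool.Agent.Helper18.SD.Key

/-! Block SD-SLICE: two typical noises for which the same direction is contracted for `N` steps are
very close, or in exceptional position.

Proof. As `Helper78.SM.slice_close` (with `typ_HS48`, `typ_HC24`, `typ_prod_ge` for `hE`:
`2 |η i - η' i| <= 2 b ^ 2 c <= (∏ ...) c`).
Contraction `hcon`, `hcon'` from `contract`; `v 1 ≠ 0` as there.
Case `c = |z 1 - z' 1| <= 1 / b ^ 2`. `Hm` gives `b ^ 9 c <= |φ (z 1) - φ (z' 1)|`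
(`250 b ^ 10 c <= b ^ 9`). First `key_boundE` with `N := 9`, `lo := b ^ 9`, `m0 := 0`
(`typ_HC24'`, `hbase`: `80 b ^ 10 c <= b ^ 9 <= |φ (z 1)|`), `m = 7`:
`c b ^ 18 (b ^ 63) ^ 2 <= 8 ^ 8`, so `c b ^ 80 <= 1` (even `c b ^ 140 <= 1`). Then `key_boundE` with `N`,
`lo = 400 / b ^ 10`, `m0 = 3` as in `slice_close` (`hbase` from `c b ^ 80 <= 1`), which gives
`c b ^ (6 N) <= b ^ 42`.
Case `1 / b ^ 2 < c`: `hcon 1`: `|φ (z 2)| |v 2| <= 2 |v 1|`, `v 2 = φ (z 1) v 1 - v 0`, so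
`|φ (z 1) - v 0 / v 1| <= 2 / b ^ 9`, the same for `z' 1`, so `|φ (z 1) - φ (z' 1)| <= 4 / b ^ 9`. But
`φ (z 1) - φ (z' 1) = 2 π a (cos 2πz - cos 2πz') = -4 π a sin (π (z 1 + z' 1)) sin (π (z 1 - z' 1))` and
`|sin (π t)| >= 2 |t|` for `|t| <= 1/2`. -/

set_option autoImplicit false
open Real

namespace Pool.Agent.Helper18.SD

open Pool.Agent.Helper78.SM (psi phi dphi Typ typ_lo typ_Q_small contract)

private theorem hup' {a b : ℝ} (hb : 1000 ≤ b) (hab : |a| = b ^ 10) (x : ℝ) :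
    |phi a x| ≤ 9 * b ^ 10 := by
  have hb1 : 1 ≤ b := by linarith
  have ha1 : 1 ≤ |a| := by rw [hab]; exact one_le_pow₀ hb1
  have := Pool.Agent.Helper78.SM.abs_phi_le ha1 x
  rwa [hab] at this

/-- the part of the argument after closeness -/
private theorem slice_closeE {a b : ℝ} (hb : 1000 ≤ b) (hab : |a| = b ^ 10) {N : ℕ} (hN : 12 ≤ N)
    {z z' v v' η η' : ℕ → ℝ} (hz0 : z 0 = z' 0)
    (hz : ∀ i, z (i+2) = psi a (z (i+1)) - z i + η i)
    (hz' : ∀ i, z' (i+2) = psi a (z' (i+1)) - z' i + η' i)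
    (hE : ∀ i, i + 1 < N → 2 * |η i - η' i| ≤
      3 ^ i * (∏ l ∈ Finset.range (i+1), |phi a (z (l+1))|) * |z 1 - z' 1|)
    (hv : ∀ i, v (i+2) = phi a (z (i+1)) * v (i+1) - v i)
    (hv' : ∀ i, v' (i+2) = phi a (z' (i+1)) * v' (i+1) - v' i)
    (hv0 : v 0 = v' 0) (hv1 : v 1 = v' 1) (hv1ne : v 1 ≠ 0)
    (hcon : ∀ i, i < N → |phi a (z (i+1))| * |v (i+1)| ≤ 2 * |v i|)
    (hcon' : ∀ i, i < N → |phi a (z' (i+1))| * |v' (i+1)| ≤ 2 * |v' i|)
    (ht : Typ b N (fun i => phi a (z (i+1))) (dphi a (z 1)))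
    (ht' : Typ b N (fun i => phi a (z' (i+1))) (dphi a (z' 1)))
    (hHm : b ^ 9 * |z 1 - z' 1| ≤ |phi a (z 1) - phi a (z' 1)|)
    (hclose : |z 1 - z' 1| * b ^ 80 ≤ 1) : |z 1 - z' 1| * b ^ (6 * N) ≤ b ^ 42 := by
  have hb0 : 0 < b := by linarith
  have hb1 : 1 ≤ b := by linarith
  have hb100 : 100 ≤ b := by linarith
  have ha1 : 1 ≤ |a| := by rw [hab]; exact one_le_pow₀ hb1
  have hup := hup' hb hab
  have hlo := typ_lo (f := fun i => phi a (z (i+1))) hb100 (by omega) (fun i => hup _) ht.t1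
  have hlo' := typ_lo (f := fun i => phi a (z' (i+1))) hb100 (by omega) (fun i => hup _) ht'.t1
  have hlpos : (0:ℝ) < 400 / b ^ 10 := by positivity
  set c := |z 1 - z' 1| with hc
  have hc0 : 0 ≤ c := abs_nonneg _
  have hcl : c ≤ 1 / b ^ 80 := by rw [le_div_iff₀ (by positivity)]; exact hclose
  have hpow : ∀ n : ℕ, (100:ℝ) ^ n ≤ b ^ n := fun n => pow_le_pow_left₀ (by norm_num) hb100 n
  have hfi := key_boundE (φ := phi a) (ψ := psi a) (K := 40 * b ^ 10) (N := N) (κ := 4096)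
    (mder := b ^ 9) (lo := 400 / b ^ 10) (by positivity)
    (by rw [← hab]; exact Pool.Agent.Helper78.SM.H1 a)
    (by rw [← hab]; exact Pool.Agent.Helper78.SM.H2 a) hz0 hz hz' hE hv hv' hv0 hv1 hv1ne
    (by norm_num) ht.t1
    (fun i hi => hcon i hi) (fun i hi => hcon' i hi) hlpos (fun i hi => hlo i hi)
    (fun i hi => hlo' i hi) (by positivity) hHm
    (typ_HS48 (f := fun i => phi a (z (i+1))) hb hN (fun i => hup _) ht.t1 ht.t2) (m0 := 3)
    (typ_HC24 (f := fun i => phi a (z (i+1))) hb hN (fun i => hup _) ht.t1 ht.t2)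
    (by
      intro i hi
      have h1 := ht.t2 i (by omega)
      refine le_trans ?_ h1
      have h2 : (∏ l ∈ Finset.range i, |phi a (z (l+1))|) ≤ (9 * b ^ 10) ^ i := by
        calc (∏ l ∈ Finset.range i, |phi a (z (l+1))|) ≤ ∏ l ∈ Finset.range i, (9 * b ^ 10) := by
              apply Finset.prod_le_prod
              · intro _ _; exact abs_nonneg _
              · intro _ _; exact hup _
          _ = _ := by rw [Finset.prod_const, Finset.card_range]
      have h3 : (9 * b ^ 10) ^ i ≤ (9 * b ^ 10) ^ 3 := by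
        apply pow_le_pow_right₀ _ hi
        have : 1 ≤ b ^ 10 := one_le_pow₀ hb1
        linarith
      have h4 : (3:ℝ) ^ i ≤ 3 ^ 3 := pow_le_pow_right₀ (by norm_num) hi
      have hPn : 0 ≤ ∏ l ∈ Finset.range i, |phi a (z (l+1))| :=
        Finset.prod_nonneg (fun _ _ => abs_nonneg _)
      calc 2 * (40 * b ^ 10) * (3 ^ i * (∏ l ∈ Finset.range i, |phi a (z (l+1))|) * c)
          ≤ 2 * (40 * b ^ 10) * (3 ^ 3 * (9 * b ^ 10) ^ 3 * (1 / b ^ 80)) := by
            gcongr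
            exact h2.trans h3
        _ = 1574640 / b ^ 40 := by field_simp; norm_num
        _ ≤ b ^ 9 := by
            rw [div_le_iff₀ (by positivity), ← pow_add]
            have h49 := hpow 49
            refine le_trans ?_ h49
            norm_num)
    (N - 2) (by omega) (by omega)
  have hQ := Pool.Agent.Helper78.SM.typ_Q_fin (f := fun i => phi a (z (i+1))) hb100 hN
    (fun i => hup _) ht.t1 ht.t5
  set Q := ∏ l ∈ Finset.range (N-2), |phi a (z (l+2))| with hQd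
  have hQ' : b ^ (7 * N) ≤ Q ^ 2 * (81 * b ^ 20) ^ 2 := hQ
  rw [show N - 2 + 1 = N - 1 by omega] at hfi
  -- c * (400 / b) * Q^2 ≤ 8^(N-1)
  have e1 : b ^ 9 * (400 / b ^ 10) * Q ^ 2 = 400 / b * Q ^ 2 := by field_simp
  rw [e1] at hfi
  have h8 : (8:ℝ) ^ (N-1) ≤ b ^ N := by
    calc (8:ℝ) ^ (N-1) ≤ b ^ (N-1) := pow_le_pow_left₀ (by norm_num) (by linarith) _
      _ ≤ b ^ N := pow_le_pow_right₀ hb1 (by omega)
  have h9 : c * (400 * b ^ (7 * N)) ≤ b ^ N * (6561 * b ^ 41) := by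
    calc c * (400 * b ^ (7 * N)) ≤ c * (400 * (Q ^ 2 * (81 * b ^ 20) ^ 2)) := by gcongr
      _ = (c * (400 / b * Q ^ 2)) * (6561 * b ^ 41) := by field_simp; ring
      _ ≤ 8 ^ (N-1) * (6561 * b ^ 41) := by gcongr
      _ ≤ _ := by gcongr
  have h10 : b ^ N * (400 * (c * b ^ (6 * N))) ≤ b ^ N * (400 * b ^ 42) := by
    calc b ^ N * (400 * (c * b ^ (6 * N))) = c * (400 * b ^ (7 * N)) := by
          rw [show 7 * N = N + 6 * N by ring, pow_add]; ring
      _ ≤ b ^ N * (6561 * b ^ 41) := h9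
      _ ≤ b ^ N * (400 * b ^ 42) := by
          have h12 : 6561 * b ^ 41 ≤ 400 * b ^ 42 := by
            have : (6561:ℝ) ≤ 400 * b := by linarith
            calc 6561 * b ^ 41 ≤ (400 * b) * b ^ 41 := by gcongr
              _ = _ := by ring
          exact mul_le_mul_of_nonneg_left h12 (by positivity)
  have h11 := le_of_mul_le_mul_left h10 (by positivity)
  linarith

private theorem two_mul_le_abs_sin {t : ℝ} (ht : |t| ≤ 1 / 2) : 2 * |t| ≤ |Real.sin (π * t)| := by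
  have hpi := Real.pi_pos
  have key : ∀ s : ℝ, 0 ≤ s → s ≤ 1 / 2 → 2 * s ≤ Real.sin (π * s) := by
    intro s hs0 hs
    have h := Real.mul_le_sin (x := π * s) (by positivity) (by nlinarith)
    have e : 2 / π * (π * s) = 2 * s := by field_simp
    rwa [e] at h
  rcases le_total 0 t with h | h
  · rw [abs_of_nonneg h] at ht ⊢
    exact (key t h ht).trans (le_abs_self _)
  · rw [abs_of_nonpos h] at ht ⊢
    have h1 := key (-t) (by linarith) ht
    have e : Real.sin (π * (-t)) = -Real.sin (π * t) := by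
      rw [mul_neg, Real.sin_neg]
    rw [e] at h1
    exact h1.trans (neg_le_abs _)

/-- far apart parameters: exceptional position -/
private theorem far_case {a b c x x' w0 w1 : ℝ} (hb : 1000 ≤ b) (hab : |a| = b ^ 10)
    (hc : |x - x'| = c) (hc1 : 1 / b ^ 2 ≤ c) (hc2 : c ≤ 1 / 2) (hw : w1 ≠ 0)
    (h1 : b ^ 9 * |phi a x * w1 - w0| ≤ 2 * |w1|)
    (h2 : b ^ 9 * |phi a x' * w1 - w0| ≤ 2 * |w1|) :
    |Real.sin (π * (x + x'))| ≤ 1 / b ^ 17 := by
  have hb0 : 0 < b := by linarith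
  have hpi := Real.pi_pos
  have hpi3 := Real.pi_gt_three
  have hw1 : 0 < |w1| := abs_pos.2 hw
  have h3 : b ^ 9 * |phi a x - phi a x'| ≤ 4 := by
    have e : (phi a x - phi a x') * w1 = (phi a x * w1 - w0) - (phi a x' * w1 - w0) := by ring
    have h4 : |phi a x - phi a x'| * |w1| ≤ |phi a x * w1 - w0| + |phi a x' * w1 - w0| := by
      rw [← abs_mul, e]; exact abs_sub _ _
    have h5 : (b ^ 9 * |phi a x - phi a x'|) * |w1| ≤ 4 * |w1| := by
      calc (b ^ 9 * |phi a x - phi a x'|) * |w1| = b ^ 9 * (|phi a x - phi a x'| * |w1|) := by ring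
        _ ≤ b ^ 9 * (|phi a x * w1 - w0| + |phi a x' * w1 - w0|) := by gcongr
        _ = b ^ 9 * |phi a x * w1 - w0| + b ^ 9 * |phi a x' * w1 - w0| := by ring
        _ ≤ _ := by linarith
    exact le_of_mul_le_mul_right h5 hw1
  have e1 : phi a x - phi a x' =
      -(4 * π) * a * Real.sin (π * (x + x')) * Real.sin (π * (x - x')) := by
    unfold Pool.Agent.Helper78.SM.phi
    have h := Real.cos_sub_cos (2 * π * x) (2 * π * x')
    rw [show (2 * π * x + 2 * π * x') / 2 = π * (x + x') by ring,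
      show (2 * π * x - 2 * π * x') / 2 = π * (x - x') by ring] at h
    linear_combination (2 * π * a) * h
  have e2 : |phi a x - phi a x'| =
      4 * π * b ^ 10 * |Real.sin (π * (x + x'))| * |Real.sin (π * (x - x'))| := by
    rw [e1, abs_mul, abs_mul, abs_mul, abs_neg, hab, abs_of_pos (by positivity : (0:ℝ) < 4 * π)]
  have h6 : 2 * c ≤ |Real.sin (π * (x - x'))| := by
    rw [← hc]
    exact two_mul_le_abs_sin (by rw [hc]; exact hc2)
  have h7 : 2 / b ^ 2 ≤ |Real.sin (π * (x - x'))| := by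
    refine le_trans ?_ h6
    have : 2 / b ^ 2 = 2 * (1 / b ^ 2) := by ring
    rw [this]
    linarith
  set S := |Real.sin (π * (x + x'))| with hS
  have hS0 : 0 ≤ S := abs_nonneg _
  rw [e2] at h3
  have h8 : b ^ 9 * (4 * π * b ^ 10 * S * (2 / b ^ 2)) ≤ 4 := by
    refine le_trans ?_ h3
    gcongr
  have e3 : b ^ 9 * (4 * π * b ^ 10 * S * (2 / b ^ 2)) = 8 * π * (S * b ^ 17) := by
    field_simp
    ring
  rw [e3] at h8
  rw [le_div_iff₀ (by positivity)]
  have h9 : 0 ≤ S * b ^ 17 := by positivity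
  nlinarith

private theorem v1_ne {a b : ℝ} (hb : 1000 ≤ b) {N : ℕ} (hN : 12 ≤ N)
    {z v : ℕ → ℝ} (hv : ∀ i, v (i+2) = phi a (z (i+1)) * v (i+1) - v i)
    (hvne : ¬ (v 0 = 0 ∧ v 1 = 0))
    (ht : Typ b N (fun i => phi a (z (i+1))) (dphi a (z 1)))
    (hcon : ∀ i, i < N → |phi a (z (i+1))| * |v (i+1)| ≤ 2 * |v i|) : v 1 ≠ 0 := by
  have hb0 : 0 < b := by linarith
  intro h1
  apply hvne
  refine ⟨?_, h1⟩
  have h2 := hcon 1 (by omega)
  have h3 : b ^ 9 ≤ |phi a (z (1+1))| := ht.t2 1 (by omega)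
  rw [h1, abs_zero, mul_zero] at h2
  have h4 : |v (1+1)| = 0 := by
    have h5 := abs_nonneg (v (1+1))
    rcases h5.eq_or_lt with h6 | h6
    · exact h6.symm
    · have : 0 < |phi a (z (1+1))| * |v (1+1)| :=
        mul_pos (lt_of_lt_of_le (by positivity) h3) h6
      linarith
  have h6 : v (0+2) = 0 := abs_eq_zero.1 h4
  rw [hv 0, h1, mul_zero, zero_sub, neg_eq_zero] at h6
  exact h6

theorem slice_two {a b : ℝ} (hb : 1000 ≤ b) (hab : |a| = b ^ 10) {N : ℕ} (hN : 12 ≤ N)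
    {z z' v v' η η' : ℕ → ℝ} (hz0 : z 0 = z' 0)
    (hz : ∀ i, z (i+2) = psi a (z (i+1)) - z i + η i)
    (hz' : ∀ i, z' (i+2) = psi a (z' (i+1)) - z' i + η' i)
    (hη : ∀ i, i + 1 < N → |η i - η' i| ≤ b ^ 2 * |z 1 - z' 1|)
    (hv : ∀ i, v (i+2) = phi a (z (i+1)) * v (i+1) - v i)
    (hv' : ∀ i, v' (i+2) = phi a (z' (i+1)) * v' (i+1) - v' i)
    (hv0 : v 0 = v' 0) (hv1 : v 1 = v' 1) (hvne : ¬ (v 0 = 0 ∧ v 1 = 0))
    (ht : Typ b N (fun i => phi a (z (i+1))) (dphi a (z 1)))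
    (ht' : Typ b N (fun i => phi a (z' (i+1))) (dphi a (z' 1)))
    (hbad : |v (N+1)| ≤ |v N|) (hbad' : |v' (N+1)| ≤ |v' N|)
    (hhalf : |z 1 - z' 1| ≤ 1 / 2) :
    |z 1 - z' 1| * b ^ (6 * N) ≤ b ^ 42 ∨ |Real.sin (π * (z 1 + z' 1))| ≤ 1 / b ^ 17 := by
  have hb0 : 0 < b := by linarith
  have hb1 : 1 ≤ b := by linarith
  have hb100 : 100 ≤ b := by linarith
  have hup := hup' hb hab
  have hcon : ∀ i, i < N → |phi a (z (i+1))| * |v (i+1)| ≤ 2 * |v i| :=
    contract (f := fun i => phi a (z (i+1))) (κ := 4096) (by norm_num) (N := N) hv ht.t1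
      ht.t4 hbad
  have hcon' : ∀ i, i < N → |phi a (z' (i+1))| * |v' (i+1)| ≤ 2 * |v' i| :=
    contract (f := fun i => phi a (z' (i+1))) (κ := 4096) (by norm_num) (N := N) hv'
      ht'.t1 ht'.t4 hbad'
  have hv1ne : v 1 ≠ 0 := v1_ne hb hN hv hvne ht hcon
  set c := |z 1 - z' 1| with hc
  have hc0 : 0 ≤ c := abs_nonneg _
  have hE : ∀ i, i + 1 < N → 2 * |η i - η' i| ≤
      3 ^ i * (∏ l ∈ Finset.range (i+1), |phi a (z (l+1))|) * c := by
    intro i hi
    have h1 := hη i hi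
    have h2 : 2 * b ^ 2 ≤ ∏ l ∈ Finset.range (i+1), |phi a (z (l+1))| :=
      typ_prod_ge (f := fun i => phi a (z (i+1))) hb hN (fun i => hup _) ht.t1 ht.t2 i (by omega)
    have h3 : (1:ℝ) ≤ 3 ^ i := one_le_pow₀ (by norm_num)
    have hPn : 0 ≤ ∏ l ∈ Finset.range (i+1), |phi a (z (l+1))| :=
      Finset.prod_nonneg (fun _ _ => abs_nonneg _)
    calc 2 * |η i - η' i| ≤ 2 * (b ^ 2 * c) := by gcongr
      _ = (2 * b ^ 2) * c := by ring
      _ ≤ (∏ l ∈ Finset.range (i+1), |phi a (z (l+1))|) * c := by gcongr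
      _ = 1 * (∏ l ∈ Finset.range (i+1), |phi a (z (l+1))|) * c := by ring
      _ ≤ _ := by gcongr
  rcases le_or_gt c (1 / b ^ 2) with hsmall | hlarge
  · left
    have hHm : b ^ 9 * c ≤ |phi a (z 1) - phi a (z' 1)| := by
      apply Pool.Agent.Helper78.SM.Hm ht.t3
      rw [hab]
      calc 250 * b ^ 10 * c ≤ 250 * b ^ 10 * (1 / b ^ 2) := by gcongr
        _ = 250 * b ^ 8 := by field_simp
        _ ≤ b * b ^ 8 := by gcongr; linarith
        _ = b ^ 9 := by ring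
    have hfi := key_boundE (φ := phi a) (ψ := psi a) (K := 40 * b ^ 10) (N := 9) (κ := 4096)
      (mder := b ^ 9) (lo := b ^ 9) (by positivity)
      (by rw [← hab]; exact Pool.Agent.Helper78.SM.H1 a)
      (by rw [← hab]; exact Pool.Agent.Helper78.SM.H2 a) hz0 hz hz'
      (fun i hi => hE i (by omega)) hv hv' hv0 hv1 hv1ne
      (by norm_num) (fun i hi => ht.t1 i (by omega))
      (fun i hi => hcon i (by omega)) (fun i hi => hcon' i (by omega)) (by positivity)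
      (fun i hi => ht.t2 i (by omega))
      (fun i hi => ht'.t2 i (by omega)) (by positivity) hHm
      (fun i hi1 hi => typ_HS48 (f := fun i => phi a (z (i+1))) hb hN (fun i => hup _) ht.t1 ht.t2
        i hi1 (by omega)) (m0 := 0)
      (fun m _ hm => typ_HC24' (f := fun i => phi a (z (i+1))) hb (fun i => hup _) ht.t2 m hm)
      (by
        intro i hi
        obtain rfl : i = 0 := by omega
        have h1 := ht.t2 0 (by omega)
        refine le_trans ?_ h1
        rw [Finset.range_zero, Finset.prod_empty, pow_zero, one_mul, one_mul]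
        calc 2 * (40 * b ^ 10) * c ≤ 2 * (40 * b ^ 10) * (1 / b ^ 2) := by gcongr
          _ = 80 * b ^ 8 := by field_simp; norm_num
          _ ≤ b * b ^ 8 := by gcongr; linarith
          _ = b ^ 9 := by ring)
      7 (by omega) (by omega)
    have hQ7 : b ^ (9 * 7) ≤ ∏ l ∈ Finset.range 7, |phi a (z (l+2))| :=
      typ_Q_small (f := fun i => phi a (z (i+1))) hb100 ht.t2 (show 7 ≤ 8 by omega)
    have hclose : c * b ^ 80 ≤ 1 := by
      have h1 : c * (b ^ 9 * b ^ 9 * (b ^ (9 * 7)) ^ 2) ≤ 8 ^ (7 + 1) := by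
        refine le_trans ?_ hfi
        gcongr
      have h2 : c * (b ^ 9 * b ^ 9 * (b ^ (9 * 7)) ^ 2) = (c * b ^ 80) * b ^ 64 := by ring
      rw [h2] at h1
      have h3 : (8:ℝ) ^ (7 + 1) ≤ 1 * b ^ 64 := by
        have h4 : (1000:ℝ) ^ 64 ≤ b ^ 64 := pow_le_pow_left₀ (by norm_num) hb 64
        rw [one_mul]
        refine le_trans ?_ h4
        norm_num
      exact le_of_mul_le_mul_right (h1.trans h3) (by positivity)
    exact slice_closeE hb hab hN hz0 hz hz' hE hv hv' hv0 hv1 hv1ne hcon hcon' ht ht' hHm hclose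
  · right
    have hg : b ^ 9 * |v 2| ≤ 2 * |v 1| := by
      have h1 := hcon 1 (by omega)
      have h2 : b ^ 9 ≤ |phi a (z (1+1))| := ht.t2 1 (by omega)
      refine le_trans ?_ h1
      exact mul_le_mul_of_nonneg_right h2 (abs_nonneg _)
    have hg' : b ^ 9 * |v' 2| ≤ 2 * |v' 1| := by
      have h1 := hcon' 1 (by omega)
      have h2 : b ^ 9 ≤ |phi a (z' (1+1))| := ht'.t2 1 (by omega)
      refine le_trans ?_ h1
      exact mul_le_mul_of_nonneg_right h2 (abs_nonneg _)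
    have e1 : v 2 = phi a (z 1) * v 1 - v 0 := hv 0
    have e2 : v' 2 = phi a (z' 1) * v 1 - v 0 := by rw [hv1, hv0]; exact hv' 0
    rw [e1] at hg
    rw [e2, ← hv1] at hg'
    exact far_case hb hab hc.symm hlarge.le hhalf hv1ne hg hg'

/-- a contracted direction in a typical window was already bad at the beginning -/
theorem bad_start {a b : ℝ} (hb : 1000 ≤ b) (hab : |a| = b ^ 10) {N : ℕ} (hN : 12 ≤ N)
    {z v : ℕ → ℝ} (hv : ∀ i, v (i+2) = phi a (z (i+1)) * v (i+1) - v i)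
    (hvne : ¬ (v 0 = 0 ∧ v 1 = 0))
    (ht : Typ b N (fun i => phi a (z (i+1))) (dphi a (z 1)))
    (hbad : |v (N+1)| ≤ |v N|) : |v 1| < |v 0| := by
  have hb0 : 0 < b := by linarith
  have hcon : ∀ i, i < N → |phi a (z (i+1))| * |v (i+1)| ≤ 2 * |v i| :=
    contract (f := fun i => phi a (z (i+1))) (κ := 4096) (by norm_num) (N := N) hv ht.t1
      ht.t4 hbad
  have hv1ne : v 1 ≠ 0 := v1_ne hb hN hv hvne ht hcon
  have h1 : |phi a (z 1)| * |v 1| ≤ 2 * |v 0| := hcon 0 (by omega)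
  have h2 : b ^ 9 ≤ |phi a (z 1)| := ht.t2 0 (by omega)
  have h3 : 0 < |v 1| := abs_pos.2 hv1ne
  have h4 : (1000:ℝ) ^ 9 ≤ b ^ 9 := pow_le_pow_left₀ (by norm_num) hb 9
  have h5 : (4:ℝ) ≤ |phi a (z 1)| := by
    refine le_trans ?_ (h4.trans h2)
    norm_num
  have h6 : 4 * |v 1| ≤ |phi a (z 1)| * |v 1| := by gcongr
  linarith

end Pool.Agent.Helper18.SD
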