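import Mathlib
import Pool.Agent.Helper18.SD.Slice
import Pool.Agent.Helper18.SG.ProbHyp
import Pool.Agent.Helper18.SG.CalcA

/-! Block SD-CORE: one resampling step. `p = (x, y)`, orbit `Z a c p.2 p.1`.

`vol_At'`: this is `Helper78.SM.vol_At` with `j := k` there, in the notation `Z` (`zc_eq`).
`vol_exc`: for fixed noise, `Z (k+1)` mod 1 is uniformly distributed when `p` is
(`Helper78.SM.vol_tau`, with the set `B = {θ | |sin (2 π θ - s)| <= t} × univ` on the torus; write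
`sin (2 π x - s)` as a function on the circle by `csn` of a translate, `Helper78.SM.sublevel` with `c = 0`).

`core_step`: let `X` be the set of `(ξ, p)` in the typical set with window `Z (j+2+i)`, `i < N`, and
`Bad (j+1+N)`. With `z i = Z (j+1+i)`, `v i = v (j+1+i)`, `η i = c (j+1+i)` and the same for `ρ ξ`:
`z 0`, `v 0`, `v 1` coincide (`Z_congr`, `v_congr`), `z 1 - z' 1 = c ξ j - c (ρ ξ) j`.
`X ⊆ Bad (j+1)` by `bad_start`; `Bad (j+1)` only depends on `c i`, `i < j`, so it is invariant under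
`(ξ, p) ↦ (ρ ξ, p)`. If `(ξ, p)` and `(ρ ξ, p)` are both in `X` and `|c (ρ ξ) j - c ξ j| >= r0`,
then by `slice_two` `|sin (π (2 Z (j+2) + (c (ρ ξ) j - c ξ j)))| <= 1 / b ^ 17`, measure at most
`3 / b ^ 17`. So, `P` the product measure, `R` the map `(ξ, p) ↦ (ρ ξ, p)` (measure preserving):
`2 P X = P X + P (R⁻¹ X) = P (X ∪ R⁻¹ X) + P (X ∩ R⁻¹ X) <= P (Bad (j+1)) + δ0 + 3 / b ^ 17`.
Finally `P (Bad (j+1+N)) <= P (not typical) + P X`. (Measurability: `continuous_Zc`, `continuous_vc`,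
`hc`; for the typical set copy `Helper78.SM.measurableSet_TypSet`.) -/

set_option autoImplicit false
open Real Set MeasureTheory
open scoped ENNReal

namespace Pool.Agent.Helper18.SD

open Pool.Agent.Helper78.SM (psi phi dphi Typ sq)
open Pool.Agent.Helper18.SG (Z v W)

theorem vol_At' {a b : ℝ} (hb : 100 ≤ b) (hab : |a| = b ^ 10) {N : ℕ} (hN : 1 ≤ N) (c : ℕ → ℝ)
    (k : ℕ) :
    volume {p : ℝ × ℝ | p ∈ sq ∧ ¬ Typ b N (fun i => phi a (Z a c p.2 p.1 (k+1+i)))
      (dphi a (Z a c p.2 p.1 (k+1)))} ≤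
      ENNReal.ofReal (N * (4 * 4096 * Real.log |a| / |a| ^ 2) + 7 / b) := by
  have h := Pool.Agent.Helper78.SM.vol_At hb hab hN (Pool.Agent.Helper18.SG.om c) k
  have e : {p : ℝ × ℝ | p ∈ sq ∧ ¬ Typ b N (fun i => phi a (Z a c p.2 p.1 (k+1+i)))
      (dphi a (Z a c p.2 p.1 (k+1)))} =
      Pool.Agent.Helper78.SM.At a b N (Pool.Agent.Helper18.SG.om c) k := by
    ext p
    unfold Pool.Agent.Helper78.SM.At
    rw [mem_ofPred_eq, mem_ofPred_eq]
    have e1 : (fun i => phi a (Z a c p.2 p.1 (k+1+i))) =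
        fun i => phi a (Pool.Agent.Helper78.SM.zc a (Pool.Agent.Helper18.SG.om c) (k+i) p) := by
      funext i
      rw [Pool.Agent.Helper18.SG.zc_eq, show k + 1 + i = k + i + 1 by ring]
    rw [e1, Pool.Agent.Helper18.SG.zc_eq]
  rw [e]
  exact h

/-- sublevel sets of a translated sine on the circle -/
private theorem vol_snn_shift {t : ℝ} (ht : 0 ≤ t) (s : ℝ) :
    volume {θ : UnitAddCircle |
      |Pool.Agent.Helper78.SM.snn (θ - ((s / (2 * π) : ℝ) : UnitAddCircle))| ≤ t} ≤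
      ENNReal.ofReal (5 / 2 * t) := by
  have h1 := Pool.Agent.Helper78.SM.sublevel_snn ht
  have h2 : MeasurePreserving (fun θ : UnitAddCircle => θ - ((s / (2 * π) : ℝ) : UnitAddCircle))
      volume volume := measurePreserving_sub_right volume _
  have h3 : MeasurableSet {θ : UnitAddCircle | |Pool.Agent.Helper78.SM.snn θ| ≤ t} :=
    measurableSet_le
      (continuous_abs.comp Pool.Agent.Helper78.SM.continuous_snn).measurable measurable_const
  have h4 := h2.measure_preimage h3.nullMeasurableSet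
  rw [← h4] at h1
  exact h1

theorem vol_exc {a t : ℝ} (ht : 0 ≤ t) (c : ℕ → ℝ) (k : ℕ) (s : ℝ) :
    volume {p : ℝ × ℝ | p ∈ sq ∧ |Real.sin (2 * π * Z a c p.2 p.1 (k+1) - s)| ≤ t} ≤
      ENNReal.ofReal (5 / 2 * t) := by
  have hm : MeasurableSet ({θ : UnitAddCircle |
      |Pool.Agent.Helper78.SM.snn (θ - ((s / (2 * π) : ℝ) : UnitAddCircle))| ≤ t} ×ˢ
      (univ : Set UnitAddCircle)) := by
    apply MeasurableSet.prod _ MeasurableSet.univ
    refine measurableSet_le ?_ measurable_const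
    exact (continuous_abs.comp (Pool.Agent.Helper78.SM.continuous_snn.comp
      (continuous_id.sub continuous_const))).measurable
  have h1 := Pool.Agent.Helper78.SM.vol_tau (a := a) (Pool.Agent.Helper18.SG.om c) k hm
    (s := {p : ℝ × ℝ | p ∈ sq ∧ |Real.sin (2 * π * Z a c p.2 p.1 (k+1) - s)| ≤ t})
    (fun p hp => hp.1) (by
      intro p hp
      refine ⟨?_, mem_univ _⟩
      show |Pool.Agent.Helper78.SM.snn
        (((Pool.Agent.Helper78.SM.zc a (Pool.Agent.Helper18.SG.om c) k p : ℝ) : UnitAddCircle) -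
          ((s / (2 * π) : ℝ) : UnitAddCircle))| ≤ t
      rw [← AddCircle.coe_sub, Pool.Agent.Helper78.SM.snn_coe, Pool.Agent.Helper18.SG.zc_eq]
      have e : 2 * π * (Z a c p.2 p.1 (k+1) - s / (2 * π)) = 2 * π * Z a c p.2 p.1 (k+1) - s := by
        have := Real.pi_pos
        field_simp
      rw [e]
      exact hp.2)
  refine h1.trans ?_
  rw [Measure.volume_eq_prod, Measure.prod_prod, UnitAddCircle.measure_univ, mul_one]
  exact vol_snn_shift ht s

/-- the bad event at time `k` in the product -/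
def Bad {Ω : Type*} (a : ℝ) (c : Ω → ℕ → ℝ) (k : ℕ) : Set (Ω × (ℝ × ℝ)) :=
  {q | |v a (c q.1) q.2.2 q.2.1 (k+1)| < |v a (c q.1) q.2.2 q.2.1 k|}

theorem measurableSet_Bad {Ω : Type*} [MeasurableSpace Ω] {a : ℝ} {c : Ω → ℕ → ℝ}
    (hc : ∀ k, Measurable (fun ξ => c ξ k)) (k : ℕ) : MeasurableSet (Bad a c k) := by
  have hcm : Measurable c := measurable_pi_iff.2 hc
  have hm : Measurable (fun q : Ω × (ℝ × ℝ) => (c q.1, (q.2.2, q.2.1))) :=
    (hcm.comp measurable_fst).prodMk (measurable_snd.snd.prodMk measurable_snd.fst)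
  have hv : ∀ j, Measurable (fun q : Ω × (ℝ × ℝ) => |v a (c q.1) q.2.2 q.2.1 j|) := fun j =>
    (continuous_abs.comp (Pool.Agent.Helper18.SG.continuous_vc a j)).measurable.comp hm
  exact measurableSet_lt (hv (k+1)) (hv k)

/-- the typical set in the product, window `Z (k+1+i)` -/
private def TS29 {Ω : Type*} (a b : ℝ) (c : Ω → ℕ → ℝ) (N k : ℕ) : Set (Ω × (ℝ × ℝ)) :=
  {q | Typ b N (fun i => phi a (Z a (c q.1) q.2.2 q.2.1 (k+1+i)))
    (dphi a (Z a (c q.1) q.2.2 q.2.1 (k+1)))}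

private theorem measurable_Z29 {Ω : Type*} [MeasurableSpace Ω] {a : ℝ} {c : Ω → ℕ → ℝ}
    (hc : ∀ k, Measurable (fun ξ => c ξ k)) (k : ℕ) :
    Measurable (fun q : Ω × (ℝ × ℝ) => Z a (c q.1) q.2.2 q.2.1 k) := by
  have hcm : Measurable c := measurable_pi_iff.2 hc
  have hm : Measurable (fun q : Ω × (ℝ × ℝ) => (c q.1, (q.2.2, q.2.1))) :=
    (hcm.comp measurable_fst).prodMk (measurable_snd.snd.prodMk measurable_snd.fst)
  exact (Pool.Agent.Helper18.SG.continuous_Zc a k).measurable.comp hm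

private theorem measurableSet_TS29 {Ω : Type*} [MeasurableSpace Ω] {a b : ℝ} {c : Ω → ℕ → ℝ}
    (hc : ∀ k, Measurable (fun ξ => c ξ k)) (N k : ℕ) : MeasurableSet (TS29 a b c N k) := by
  classical
  have hphi : ∀ j, Measurable (fun q : Ω × (ℝ × ℝ) => phi a (Z a (c q.1) q.2.2 q.2.1 j)) :=
    fun j => (Pool.Agent.Helper78.SM.continuous_phi a).measurable.comp (measurable_Z29 hc j)
  have hdphi : ∀ j, Measurable (fun q : Ω × (ℝ × ℝ) => dphi a (Z a (c q.1) q.2.2 q.2.1 j)) :=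
    fun j => (Pool.Agent.Helper78.SM.continuous_dphi a).measurable.comp (measurable_Z29 hc j)
  have e : TS29 a b c N k =
      (((⋂ i : ℕ, ⋂ _ : i + 1 < N, {q : Ω × (ℝ × ℝ) |
        4096 ≤ |phi a (Z a (c q.1) q.2.2 q.2.1 (k+1+i)) *
          phi a (Z a (c q.1) q.2.2 q.2.1 (k+1+(i+1)))|}) ∩
      (⋂ i : ℕ, ⋂ _ : i ≤ 8, {q : Ω × (ℝ × ℝ) |
        b ^ 9 ≤ |phi a (Z a (c q.1) q.2.2 q.2.1 (k+1+i))|})) ∩
      ({q : Ω × (ℝ × ℝ) | 2 * b ^ 9 ≤ |dphi a (Z a (c q.1) q.2.2 q.2.1 (k+1))|} ∩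
      {q : Ω × (ℝ × ℝ) | 2 ≤ |phi a (Z a (c q.1) q.2.2 q.2.1 (k+1+(N-1)))|})) ∩
      {q : Ω × (ℝ × ℝ) | (∑ i ∈ Finset.range N,
        if |phi a (Z a (c q.1) q.2.2 q.2.1 (k+1+i))| < b ^ 5 then 10 else 0) ≤ N} := by
    ext q
    simp only [TS29, mem_inter_iff, mem_iInter, mem_ofPred_eq]
    have ec : (∑ i ∈ Finset.range N,
        if |phi a (Z a (c q.1) q.2.2 q.2.1 (k+1+i))| < b ^ 5 then 10 else 0) =
        10 * ((Finset.range N).filter
          (fun i => |phi a (Z a (c q.1) q.2.2 q.2.1 (k+1+i))| < b ^ 5)).card := by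
      rw [Finset.card_filter, Finset.mul_sum]
      apply Finset.sum_congr rfl
      intro i _
      split_ifs <;> simp
    rw [ec]
    constructor
    · intro h
      refine ⟨⟨⟨h.t1, h.t2⟩, h.t3, h.t4⟩, ?_⟩
      convert h.t5
    · rintro ⟨⟨⟨h1, h2⟩, h3, h4⟩, h5⟩
      refine ⟨h1, h2, h3, h4, ?_⟩
      convert h5
  rw [e]
  refine MeasurableSet.inter (MeasurableSet.inter (MeasurableSet.inter ?_ ?_)
    (MeasurableSet.inter ?_ ?_)) ?_
  · refine MeasurableSet.iInter (fun i => MeasurableSet.iInter (fun _ => ?_))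
    exact measurableSet_le measurable_const
      (continuous_abs.measurable.comp ((hphi (k+1+i)).mul (hphi (k+1+(i+1)))))
  · refine MeasurableSet.iInter (fun i => MeasurableSet.iInter (fun _ => ?_))
    exact measurableSet_le measurable_const (continuous_abs.measurable.comp (hphi (k+1+i)))
  · exact measurableSet_le measurable_const (continuous_abs.measurable.comp (hdphi (k+1)))
  · exact measurableSet_le measurable_const (continuous_abs.measurable.comp (hphi (k+1+(N-1))))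
  · refine measurableSet_le ?_ measurable_const
    refine Finset.measurable_sum _ (fun i _ => ?_)
    refine Measurable.ite ?_ measurable_const measurable_const
    exact measurableSet_lt (continuous_abs.measurable.comp (hphi (k+1+i))) measurable_const

private theorem vne29 (a : ℝ) (c : ℕ → ℝ) (y x : ℝ) (k : ℕ) :
    ¬ (v a c y x k = 0 ∧ v a c y x (k+1) = 0) := by
  rintro ⟨h1, h2⟩
  have h := Pool.Agent.Helper18.SG.W_pos a c y x k
  unfold W Pool.Agent.Helper18.SG.mx at h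
  rw [h1, h2] at h
  simp at h

/-- pointwise part of the resampling argument -/
private theorem point29 {a b : ℝ} (hb : 1000 ≤ b) (hab : |a| = b ^ 10) {c c' : ℕ → ℝ} {N : ℕ}
    (hN : 12 ≤ N) {j : ℕ} (hpast : ∀ i, i < j → c' i = c i) (hhalf : |c' j - c j| ≤ 1 / 2)
    {r0 : ℝ} (hr0 : b ^ 42 < r0 * b ^ (6 * N)) (hr : r0 ≤ |c' j - c j|)
    (hfut : ∀ i, i + 1 < N → |c' (j+1+i) - c (j+1+i)| ≤ b ^ 2 * |c' j - c j|) {y x : ℝ}
    (ht : Typ b N (fun i => phi a (Z a c y x (j+1+1+i))) (dphi a (Z a c y x (j+1+1))))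
    (ht' : Typ b N (fun i => phi a (Z a c' y x (j+1+1+i))) (dphi a (Z a c' y x (j+1+1))))
    (hbad : |v a c y x (j+1+N+1)| < |v a c y x (j+1+N)|)
    (hbad' : |v a c' y x (j+1+N+1)| < |v a c' y x (j+1+N)|) :
    |Real.sin (2 * π * Z a c y x (j+1+1) - (-(π * (c' j - c j))))| ≤ 1 / b ^ 17 := by
  have hb0 : 0 < b := by linarith
  have hcc : ∀ i, i + 1 < j + 1 → c i = c' i := fun i hi => (hpast i (by omega)).symm
  have hZ := Pool.Agent.Helper18.SG.Z_congr (a := a) hcc y x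
  have hV := Pool.Agent.Helper18.SG.v_congr (a := a) hcc y x
  have hd : Z a c y x (j+1+1) - Z a c' y x (j+1+1) = c j - c' j := by
    have e1 : Z a c y x (j+1+1) = psi a (Z a c y x (j+1)) - Z a c y x j + c j :=
      Pool.Agent.Helper18.SG.Z_rec a c y x j
    have e2 : Z a c' y x (j+1+1) = psi a (Z a c' y x (j+1)) - Z a c' y x j + c' j :=
      Pool.Agent.Helper18.SG.Z_rec a c' y x j
    rw [e1, e2, hZ (j+1) le_rfl, hZ j (by omega)]
    ring
  have hdabs : |Z a c y x (j+1+1) - Z a c' y x (j+1+1)| = |c' j - c j| := by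
    rw [hd, abs_sub_comm]
  have hshift : ∀ i, j + 1 + (i + 1) = j + 1 + 1 + i := fun i => by ring
  have key := slice_two (z := fun i => Z a c y x (j+1+i)) (z' := fun i => Z a c' y x (j+1+i))
    (v := fun i => v a c y x (j+1+i)) (v' := fun i => v a c' y x (j+1+i))
    (η := fun i => c (j+1+i)) (η' := fun i => c' (j+1+i)) hb hab hN
    (hZ (j+1) le_rfl)
    (fun i => Pool.Agent.Helper18.SG.Z_rec a c y x (j+1+i))
    (fun i => Pool.Agent.Helper18.SG.Z_rec a c' y x (j+1+i))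
    (by
      intro i hi
      have := hfut i hi
      show |c (j+1+i) - c' (j+1+i)| ≤ b ^ 2 * |Z a c y x (j+1+1) - Z a c' y x (j+1+1)|
      rw [hdabs, abs_sub_comm]
      exact this)
    (fun i => Pool.Agent.Helper18.SG.v_rec a c y x (j+1+i))
    (fun i => Pool.Agent.Helper18.SG.v_rec a c' y x (j+1+i))
    (hV (j+1) (by omega)) (hV (j+1+1) le_rfl)
    (vne29 a c y x (j+1))
    (by
      have e : (fun i => phi a (Z a c y x (j+1+(i+1)))) =
          fun i => phi a (Z a c y x (j+1+1+i)) := by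
        funext i; rw [hshift]
      show Typ b N (fun i => phi a (Z a c y x (j+1+(i+1)))) (dphi a (Z a c y x (j+1+1)))
      rw [e]; exact ht)
    (by
      have e : (fun i => phi a (Z a c' y x (j+1+(i+1)))) =
          fun i => phi a (Z a c' y x (j+1+1+i)) := by
        funext i; rw [hshift]
      show Typ b N (fun i => phi a (Z a c' y x (j+1+(i+1)))) (dphi a (Z a c' y x (j+1+1)))
      rw [e]; exact ht')
    hbad.le hbad'.le
    (by
      show |Z a c y x (j+1+1) - Z a c' y x (j+1+1)| ≤ 1 / 2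
      rw [hdabs]; exact hhalf)
  rcases key with h | h
  · exfalso
    have h' : |Z a c y x (j+1+1) - Z a c' y x (j+1+1)| * b ^ (6 * N) ≤ b ^ 42 := h
    rw [hdabs] at h'
    have h2 : r0 * b ^ (6 * N) ≤ |c' j - c j| * b ^ (6 * N) :=
      mul_le_mul_of_nonneg_right hr (by positivity)
    linarith
  · have h' : |Real.sin (π * (Z a c y x (j+1+1) + Z a c' y x (j+1+1)))| ≤ 1 / b ^ 17 := h
    have e : π * (Z a c y x (j+1+1) + Z a c' y x (j+1+1)) =
        2 * π * Z a c y x (j+1+1) - (-(π * (c' j - c j))) := by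
      have : Z a c' y x (j+1+1) = Z a c y x (j+1+1) + (c' j - c j) := by linarith
      rw [this]; ring
    rw [e] at h'
    exact h'

private theorem start29 {a b : ℝ} (hb : 1000 ≤ b) (hab : |a| = b ^ 10) {c : ℕ → ℝ} {N : ℕ}
    (hN : 12 ≤ N) {j : ℕ} {y x : ℝ}
    (ht : Typ b N (fun i => phi a (Z a c y x (j+1+1+i))) (dphi a (Z a c y x (j+1+1))))
    (hbad : |v a c y x (j+1+N+1)| < |v a c y x (j+1+N)|) :
    |v a c y x (j+1+1)| < |v a c y x (j+1)| := by
  have hshift : ∀ i, j + 1 + (i + 1) = j + 1 + 1 + i := fun i => by ring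
  exact bad_start (z := fun i => Z a c y x (j+1+i)) (v := fun i => v a c y x (j+1+i)) hb hab hN
    (fun i => Pool.Agent.Helper18.SG.v_rec a c y x (j+1+i))
    (vne29 a c y x (j+1))
    (by
      have e : (fun i => phi a (Z a c y x (j+1+(i+1)))) =
          fun i => phi a (Z a c y x (j+1+1+i)) := by
        funext i; rw [hshift]
      show Typ b N (fun i => phi a (Z a c y x (j+1+(i+1)))) (dphi a (Z a c y x (j+1+1)))
      rw [e]; exact ht)
    hbad.le

private theorem sq_univ29 : ((volume : Measure (ℝ × ℝ)).restrict sq) univ = 1 := by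
  rw [Measure.restrict_apply_univ, Pool.Agent.Helper78.SM.sq, Measure.volume_eq_prod,
    Measure.prod_prod, Real.volume_Ioc]
  simp

theorem core_step {Ω : Type*} [MeasurableSpace Ω] (μ : Measure Ω) [IsProbabilityMeasure μ]
    {a b : ℝ} (hb : 1000 ≤ b) (hab : |a| = b ^ 10) {c : Ω → ℕ → ℝ}
    (hc : ∀ k, Measurable (fun ξ => c ξ k)) {N : ℕ} (hN : 12 ≤ N) {j : ℕ} {ρ : Ω → Ω}
    (hρ : MeasurePreserving ρ μ μ) (hpast : ∀ ξ i, i < j → c (ρ ξ) i = c ξ i)
    (hhalf : ∀ ξ, |c (ρ ξ) j - c ξ j| ≤ 1 / 2) {r0 δ0 : ℝ} (hδ0 : 0 ≤ δ0)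
    (hr0 : b ^ 42 < r0 * b ^ (6 * N))
    (hδ : μ {ξ | |c (ρ ξ) j - c ξ j| < r0} ≤ ENNReal.ofReal δ0)
    (hfut : ∀ ξ i, i + 1 < N → r0 ≤ |c (ρ ξ) j - c ξ j| →
      |c (ρ ξ) (j+1+i) - c ξ (j+1+i)| ≤ b ^ 2 * |c (ρ ξ) j - c ξ j|) :
    (μ.prod ((volume : Measure (ℝ × ℝ)).restrict sq)) (Bad a c (j+1+N)) ≤
      ENNReal.ofReal (N * (4 * 4096 * Real.log |a| / |a| ^ 2) + 8 / b + δ0 / 2) +
      (1 / 2) * (μ.prod ((volume : Measure (ℝ × ℝ)).restrict sq)) (Bad a c (j+1)) := by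
  have hb0 : 0 < b := by linarith
  have hb100 : 100 ≤ b := by linarith
  have hfin : IsProbabilityMeasure ((volume : Measure (ℝ × ℝ)).restrict sq) := ⟨sq_univ29⟩
  set ν := (volume : Measure (ℝ × ℝ)).restrict sq with hν
  set P := μ.prod ν with hP
  set T := TS29 a b c N (j+1) with hT
  have hTm : MeasurableSet T := measurableSet_TS29 hc N (j+1)
  have hBm : MeasurableSet (Bad a c (j+1+N)) := measurableSet_Bad hc _
  have hB1m : MeasurableSet (Bad a c (j+1)) := measurableSet_Bad hc _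
  set X := T ∩ Bad a c (j+1+N) with hX
  have hXm : MeasurableSet X := hTm.inter hBm
  set R : Ω × (ℝ × ℝ) → Ω × (ℝ × ℝ) := Prod.map ρ id with hR
  have hRmp : MeasurePreserving R P P := hρ.prod (MeasurePreserving.id ν)
  -- the complement of the typical set
  have h1 : P Tᶜ ≤ ENNReal.ofReal (N * (4 * 4096 * Real.log |a| / |a| ^ 2) + 7 / b) := by
    rw [hP, Measure.prod_apply hTm.compl]
    calc _ ≤ ∫⁻ _ξ, ENNReal.ofReal (N * (4 * 4096 * Real.log |a| / |a| ^ 2) + 7 / b) ∂μ := by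
          apply lintegral_mono
          intro ξ
          simp only
          rw [hν, Measure.restrict_apply' Pool.Agent.Helper78.SM.measurableSet_sq]
          have h2 := vol_At' hb100 hab (by omega : 1 ≤ N) (c ξ) (j+1)
          refine le_trans (measure_mono ?_) h2
          rintro p ⟨hp1, hp2⟩
          exact ⟨hp2, hp1⟩
      _ = _ := by simp
  -- the exceptional set
  set E := {q : Ω × (ℝ × ℝ) |
    |Real.sin (2 * π * Z a (c q.1) q.2.2 q.2.1 (j+1+1) -
      (-(π * (c (ρ q.1) j - c q.1 j))))| ≤ 1 / b ^ 17} with hE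
  have hdm : Measurable (fun ξ => c (ρ ξ) j - c ξ j) := ((hc j).comp hρ.measurable).sub (hc j)
  have hEm : MeasurableSet E := by
    refine measurableSet_le ?_ measurable_const
    refine continuous_abs.measurable.comp (Real.continuous_sin.measurable.comp ?_)
    refine ((measurable_Z29 hc (j+1+1)).const_mul (2 * π)).sub ?_
    exact ((hdm.comp measurable_fst).const_mul π).neg
  have h2 : P E ≤ ENNReal.ofReal (5 / 2 * (1 / b ^ 17)) := by
    rw [hP, Measure.prod_apply hEm]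
    calc _ ≤ ∫⁻ _ξ, ENNReal.ofReal (5 / 2 * (1 / b ^ 17)) ∂μ := by
          apply lintegral_mono
          intro ξ
          simp only
          rw [hν, Measure.restrict_apply' Pool.Agent.Helper78.SM.measurableSet_sq]
          have h2 := vol_exc (a := a) (t := 1 / b ^ 17) (by positivity) (c ξ) (j+1)
            (-(π * (c (ρ ξ) j - c ξ j)))
          refine le_trans (measure_mono ?_) h2
          rintro p ⟨hp1, hp2⟩
          exact ⟨hp2, hp1⟩
      _ = _ := by simp
  set D := {ξ | |c (ρ ξ) j - c ξ j| < r0} ×ˢ (univ : Set (ℝ × ℝ)) with hD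
  have h3 : P D ≤ ENNReal.ofReal δ0 := by
    rw [hP, hD, Measure.prod_prod, measure_univ, mul_one]
    exact hδ
  have hsub : X ∩ R ⁻¹' X ⊆ D ∪ E := by
    rintro ⟨ξ, p⟩ ⟨⟨hq1, hq2⟩, ⟨hq3, hq4⟩⟩
    by_cases hr : |c (ρ ξ) j - c ξ j| < r0
    · exact Or.inl ⟨hr, mem_univ _⟩
    · right
      rw [not_lt] at hr
      exact point29 hb hab hN (hpast ξ) (hhalf ξ) hr0 hr (fun i hi => hfut ξ i hi hr)
        hq1 hq3 hq2 hq4
  have h4 : P (X ∩ R ⁻¹' X) ≤ ENNReal.ofReal δ0 + ENNReal.ofReal (5 / 2 * (1 / b ^ 17)) :=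
    (measure_mono hsub).trans ((measure_union_le _ _).trans (add_le_add h3 h2))
  have hsub2 : X ∪ R ⁻¹' X ⊆ Bad a c (j+1) := by
    rintro ⟨ξ, p⟩ (⟨hq1, hq2⟩ | ⟨hq1, hq2⟩)
    · exact start29 hb hab hN hq1 hq2
    · have h5 : |v a (c (ρ ξ)) p.2 p.1 (j+1+1)| < |v a (c (ρ ξ)) p.2 p.1 (j+1)| :=
        start29 hb hab hN hq1 hq2
      have hV := Pool.Agent.Helper18.SG.v_congr (a := a) (c := c (ρ ξ)) (c' := c ξ) (k := j+1)
        (fun i hi => hpast ξ i (by omega)) p.2 p.1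
      rw [hV (j+1+1) le_rfl, hV (j+1) (by omega)] at h5
      exact h5
  have h5 : P (X ∪ R ⁻¹' X) ≤ P (Bad a c (j+1)) := measure_mono hsub2
  have h6 : P (R ⁻¹' X) = P X := hRmp.measure_preimage hXm.nullMeasurableSet
  have h7 : P X + P X ≤ P (Bad a c (j+1)) +
      (ENNReal.ofReal δ0 + ENNReal.ofReal (5 / 2 * (1 / b ^ 17))) := by
    calc P X + P X = P X + P (R ⁻¹' X) := by rw [h6]
      _ = P (X ∪ R ⁻¹' X) + P (X ∩ R ⁻¹' X) :=
        (measure_union_add_inter X (hRmp.measurable hXm)).symm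
      _ ≤ _ := add_le_add h5 h4
  have h8 : P X ≤ (1 / 2) * (P (Bad a c (j+1)) +
      (ENNReal.ofReal δ0 + ENNReal.ofReal (5 / 2 * (1 / b ^ 17)))) := by
    have e : P X = (1 / 2) * (P X + P X) := by
      rw [← two_mul, ← mul_assoc, one_div, ENNReal.inv_mul_cancel (by norm_num) (by norm_num),
        one_mul]
    rw [e]
    gcongr
  have h9 : P (Bad a c (j+1+N)) ≤ P Tᶜ + P X := by
    refine (measure_mono ?_).trans (measure_union_le _ _)
    intro q hq
    by_cases hqT : q ∈ T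
    · exact Or.inr ⟨hqT, hq⟩
    · exact Or.inl hqT
  have hlast : ENNReal.ofReal (N * (4 * 4096 * Real.log |a| / |a| ^ 2) + 7 / b) +
      (1 / 2) * (ENNReal.ofReal δ0 + ENNReal.ofReal (5 / 2 * (1 / b ^ 17))) ≤
      ENNReal.ofReal (N * (4 * 4096 * Real.log |a| / |a| ^ 2) + 8 / b + δ0 / 2) := by
    have e12 : (1 / 2 : ℝ≥0∞) = ENNReal.ofReal (1 / 2) := by
      rw [ENNReal.ofReal_div_of_pos (by norm_num)]
      simp
    have ha1 : 1 ≤ |a| := by rw [hab]; exact one_le_pow₀ (by linarith)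
    have hlog : 0 ≤ Real.log |a| := Real.log_nonneg ha1
    rw [e12, ← ENNReal.ofReal_add hδ0 (by positivity), ← ENNReal.ofReal_mul (by norm_num),
      ← ENNReal.ofReal_add (by positivity) (by positivity)]
    apply ENNReal.ofReal_le_ofReal
    have h10 : 1 / b ^ 17 ≤ 1 / (2 * b) := by
      apply one_div_le_one_div_of_le (by positivity)
      have h11 : (2:ℝ) ≤ b ^ 16 := by
        have : (1000:ℝ) ^ 16 ≤ b ^ 16 := pow_le_pow_left₀ (by norm_num) hb 16
        refine le_trans ?_ this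
        norm_num
      calc 2 * b ≤ b ^ 16 * b := by gcongr
        _ = b ^ 17 := by ring
    have h12 : 1 / (2 * b) = (1 / 2) * (1 / b) := by
      field_simp
    have h13 : (8:ℝ) / b = 7 / b + 1 / b := by ring
    have h14 : 0 < 1 / b := by positivity
    rw [h13]
    nlinarith
  calc P (Bad a c (j+1+N)) ≤ P Tᶜ + P X := h9
    _ ≤ ENNReal.ofReal (N * (4 * 4096 * Real.log |a| / |a| ^ 2) + 7 / b) +
        (1 / 2) * (P (Bad a c (j+1)) +
          (ENNReal.ofReal δ0 + ENNReal.ofReal (5 / 2 * (1 / b ^ 17)))) := add_le_add h1 h8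
    _ = (ENNReal.ofReal (N * (4 * 4096 * Real.log |a| / |a| ^ 2) + 7 / b) +
        (1 / 2) * (ENNReal.ofReal δ0 + ENNReal.ofReal (5 / 2 * (1 / b ^ 17)))) +
        (1 / 2) * P (Bad a c (j+1)) := by
      rw [mul_add (1 / 2 : ℝ≥0∞) (P (Bad a c (j+1)))]
      ring
    _ ≤ _ := by gcongr

end Pool.Agent.Helper18.SD
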