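import Mathlib
import Pool.Agent.Helper18.SD.Core

/-! Block SD-VB: measurability in the parameter, `vb`, dependence on finitely many noise terms, and the
invariance of integrals over the square under the state map.

`vb a c k` = area of the points that are bad at time `k`.
* `int_vb`: `Measure.prod_apply` and `measurableSet_Bad`.
* `measurable_pbad`: the set `{(ξ, p) | ¬ Hyp}` is measurable in the product (countable intersection of
  closed conditions, `continuous_vc`/`continuous_Zc` composed with the measurable `ξ ↦ c ξ`); then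
  `measurable_measure_prodMk_left`.
* `pbad_congr`: `Z_congr`, `v_congr` (`W k`, `k <= n`, only depends on `c i`, `i + 1 < n`).
* `int_state`: `Helper78.SM.tau_mk2`, `mp_tau`, `mp_mk2` and the swap on `T2`; a periodic function on the
  plane is `h0 ∘ mk2` (for `h0 q = h (lift q)`; or use `AddCircle.measurableEquivIoc`). -/

set_option autoImplicit false
open Real Set MeasureTheory
open scoped ENNReal

namespace Pool.Agent.Helper18.SD

open Pool.Agent.Helper78.SM (psi phi dphi Typ sq)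
open Pool.Agent.Helper18.SG (Z v W rev pbad HypS loss)

/-- area of the points that are bad at time `k` -/
noncomputable def vb (a : ℝ) (c : ℕ → ℝ) (k : ℕ) : ℝ :=
  (volume {p : ℝ × ℝ | p ∈ sq ∧ |v a c p.2 p.1 (k+1)| < |v a c p.2 p.1 k|}).toReal

private lemma vol_sq8 : (volume : Measure (ℝ × ℝ)) sq = 1 := by
  unfold Pool.Agent.Helper78.SM.sq
  rw [Measure.volume_eq_prod, Measure.prod_prod, Real.volume_Ioc]
  norm_num

private lemma toReal_le_one8 {s : Set (ℝ × ℝ)} (h : s ⊆ sq) :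
    ((volume : Measure (ℝ × ℝ)) s).toReal ≤ 1 := by
  have h1 : (volume : Measure (ℝ × ℝ)) s ≤ 1 := (measure_mono h).trans (le_of_eq vol_sq8)
  have h2 := ENNReal.toReal_mono ENNReal.one_ne_top h1
  simpa using h2

lemma vb_nonneg (a : ℝ) (c : ℕ → ℝ) (k : ℕ) : 0 ≤ vb a c k := ENNReal.toReal_nonneg

lemma vb_le_one (a : ℝ) (c : ℕ → ℝ) (k : ℕ) : vb a c k ≤ 1 :=
  toReal_le_one8 fun _ hp => hp.1

lemma pbad_nonneg (a b : ℝ) (c : ℕ → ℝ) (n : ℕ) : 0 ≤ pbad a b c n := ENNReal.toReal_nonneg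

lemma pbad_le_one (a b : ℝ) (c : ℕ → ℝ) (n : ℕ) : pbad a b c n ≤ 1 :=
  toReal_le_one8 fun _ hp => hp.1

private lemma measurableSet_sq8 : MeasurableSet sq := measurableSet_Ioc.prod measurableSet_Ioc

private lemma meas_v8 {Ω : Type*} [MeasurableSpace Ω] {a : ℝ} {c : Ω → ℕ → ℝ}
    (hc : ∀ k, Measurable (fun ξ => c ξ k)) (k : ℕ) :
    Measurable (fun q : Ω × (ℝ × ℝ) => v a (c q.1) q.2.1 q.2.2 k) := by
  have h1 : Measurable (fun q : Ω × (ℝ × ℝ) => ((c q.1, q.2) : (ℕ → ℝ) × (ℝ × ℝ))) := by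
    refine Measurable.prodMk ?_ measurable_snd
    exact measurable_pi_iff.mpr fun i => (hc i).comp measurable_fst
  exact (Pool.Agent.Helper18.SG.continuous_vc a k).measurable.comp h1

private lemma meas_v8' {Ω : Type*} [MeasurableSpace Ω] {a : ℝ} {c : Ω → ℕ → ℝ}
    (hc : ∀ k, Measurable (fun ξ => c ξ k)) (k : ℕ) :
    Measurable (fun q : Ω × (ℝ × ℝ) => v a (c q.1) q.2.2 q.2.1 k) := by
  have h1 : Measurable (fun q : Ω × (ℝ × ℝ) => ((q.1, (q.2.2, q.2.1)) : Ω × (ℝ × ℝ))) := by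
    fun_prop
  exact (meas_v8 hc k).comp h1

theorem measurable_vb {Ω : Type*} [MeasurableSpace Ω] {a : ℝ} {c : Ω → ℕ → ℝ}
    (hc : ∀ k, Measurable (fun ξ => c ξ k)) (k : ℕ) : Measurable (fun ξ => vb a (c ξ) k) := by
  have hs : MeasurableSet {q : Ω × (ℝ × ℝ) | q.2 ∈ sq ∧
      |v a (c q.1) q.2.2 q.2.1 (k+1)| < |v a (c q.1) q.2.2 q.2.1 k|} := by
    refine (measurable_snd measurableSet_sq8).inter ?_
    exact measurableSet_lt (meas_v8' hc (k+1)).abs (meas_v8' hc k).abs
  exact (measurable_measure_prodMk_left (ν := (volume : Measure (ℝ × ℝ))) hs).ennreal_toReal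

theorem measurable_pbad {Ω : Type*} [MeasurableSpace Ω] {a b : ℝ} {c : Ω → ℕ → ℝ}
    (hc : ∀ k, Measurable (fun ξ => c ξ k)) (n : ℕ) : Measurable (fun ξ => pbad a b (c ξ) n) := by
  have hW : ∀ k, Measurable (fun q : Ω × (ℝ × ℝ) => W a (c q.1) q.2.1 q.2.2 k) := by
    intro k
    exact (meas_v8 hc (k+1)).abs.max (meas_v8 hc k).abs
  have hH : MeasurableSet {q : Ω × (ℝ × ℝ) | HypS b (W a (c q.1) q.2.1 q.2.2) n} := by
    have he : {q : Ω × (ℝ × ℝ) | HypS b (W a (c q.1) q.2.1 q.2.2) n} = ⋂ (j : ℕ) (i : ℕ),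
        {q : Ω × (ℝ × ℝ) | j ≤ i → i ≤ n →
          W a (c q.1) q.2.1 q.2.2 j * b ^ (9 * (i - j)) ≤
            b ^ (2 * (n - j)) * W a (c q.1) q.2.1 q.2.2 i} := by
      ext p
      simp only [HypS, Set.mem_ofPred_eq, Set.mem_iInter]
    rw [he]
    refine MeasurableSet.iInter fun j => MeasurableSet.iInter fun i => ?_
    by_cases h1 : j ≤ i
    · by_cases h2 : i ≤ n
      · simp only [h1, h2, true_implies]
        exact measurableSet_le ((hW j).mul measurable_const) (measurable_const.mul (hW i))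
      · simp only [h2, false_implies, implies_true, Set.ofPred_true, MeasurableSet.univ]
    · simp only [h1, false_implies, Set.ofPred_true, MeasurableSet.univ]
  have hs : MeasurableSet {q : Ω × (ℝ × ℝ) | q.2 ∈ sq ∧
      ¬ HypS b (W a (c q.1) q.2.1 q.2.2) n} :=
    (measurable_snd measurableSet_sq8).inter hH.compl
  exact (measurable_measure_prodMk_left (ν := (volume : Measure (ℝ × ℝ))) hs).ennreal_toReal

theorem int_vb {Ω : Type*} [MeasurableSpace Ω] (μ : Measure Ω) [IsProbabilityMeasure μ] {a : ℝ}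
    {c : Ω → ℕ → ℝ} (hc : ∀ k, Measurable (fun ξ => c ξ k)) (k : ℕ) :
    ∫ ξ, vb a (c ξ) k ∂μ =
      ((μ.prod ((volume : Measure (ℝ × ℝ)).restrict sq)) (Bad a c k)).toReal := by
  have hB := measurableSet_Bad (a := a) hc k
  have hs : MeasurableSet {q : Ω × (ℝ × ℝ) | q.2 ∈ sq ∧
      |v a (c q.1) q.2.2 q.2.1 (k+1)| < |v a (c q.1) q.2.2 q.2.1 k|} := by
    refine (measurable_snd measurableSet_sq8).inter ?_
    exact measurableSet_lt (meas_v8' hc (k+1)).abs (meas_v8' hc k).abs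
  have hm := measurable_measure_prodMk_left (ν := (volume : Measure (ℝ × ℝ))) hs
  rw [Measure.prod_apply hB]
  have h1 : ∫ ξ, vb a (c ξ) k ∂μ = (∫⁻ ξ, (volume : Measure (ℝ × ℝ)) (Prod.mk ξ ⁻¹'
      {q : Ω × (ℝ × ℝ) | q.2 ∈ sq ∧
      |v a (c q.1) q.2.2 q.2.1 (k+1)| < |v a (c q.1) q.2.2 q.2.1 k|}) ∂μ).toReal := by
    refine integral_toReal hm.aemeasurable ?_
    refine Filter.Eventually.of_forall fun ξ => ?_
    refine lt_of_le_of_lt (measure_mono (t := sq) fun p hp => hp.1) ?_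
    rw [vol_sq8]
    exact ENNReal.one_lt_top
  rw [h1]
  congr 1
  refine lintegral_congr fun ξ => ?_
  rw [Measure.restrict_apply (measurable_prodMk_left hB)]
  congr 1
  ext p
  constructor
  · intro h
    exact ⟨h.2, h.1⟩
  · intro h
    exact ⟨h.2, h.1⟩

lemma vb_congr {a : ℝ} {c c' : ℕ → ℝ} {n : ℕ} (h : ∀ i, i + 1 < n → c i = c' i) :
    vb a c n = vb a c' n := by
  unfold vb
  congr 2
  ext p
  have h1 := Pool.Agent.Helper18.SG.v_congr (a := a) h p.2 p.1 (n+1) le_rfl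
  have h2 := Pool.Agent.Helper18.SG.v_congr (a := a) h p.2 p.1 n (Nat.le_succ n)
  simp only [Set.mem_ofPred_eq, h1, h2]

lemma pbad_congr {a b : ℝ} {c c' : ℕ → ℝ} {n : ℕ} (h : ∀ i, i + 1 < n → c i = c' i) :
    pbad a b c n = pbad a b c' n := by
  unfold Pool.Agent.Helper18.SG.pbad
  congr 2
  ext p
  have hW : ∀ j, j ≤ n → W a c p.1 p.2 j = W a c' p.1 p.2 j := by
    intro j hj
    unfold Pool.Agent.Helper18.SG.W Pool.Agent.Helper18.SG.mx
    rw [Pool.Agent.Helper18.SG.v_congr (a := a) h p.1 p.2 (j+1) (by omega),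
      Pool.Agent.Helper18.SG.v_congr (a := a) h p.1 p.2 j (by omega)]
  have hH : HypS b (W a c p.1 p.2) n ↔ HypS b (W a c' p.1 p.2) n := by
    unfold Pool.Agent.Helper18.SG.HypS
    constructor
    · intro h1 j i hji hin
      rw [← hW j (hji.trans hin), ← hW i hin]
      exact h1 j i hji hin
    · intro h1 j i hji hin
      rw [hW j (hji.trans hin), hW i hin]
      exact h1 j i hji hin
  simp only [Set.mem_ofPred_eq, hH]

private lemma zX8 (a : ℝ) (c : ℕ → ℝ) (k : ℕ) (p : ℝ × ℝ) :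
    (Pool.Agent.Helper78.SM.X a (Pool.Agent.Helper18.SG.om c) k p).2 = Z a c p.2 p.1 k := by
  cases k with
  | zero =>
    rw [Pool.Agent.Helper18.SG.Z_zero]; simp [Pool.Agent.Helper78.SM.X]
  | succ k =>
    rw [Pool.Agent.Helper78.SM.X_succ_snd, Pool.Agent.Helper18.SG.zc_eq]

private theorem int8 {f : UnitAddCircle × UnitAddCircle → ℝ} (hf : Measurable f) :
    ∫ p, f p = ∫ p in sq, f (Pool.Agent.Helper78.SM.mk2 p) := by
  have hm := Pool.Agent.Helper78.SM.mp_mk2
  rw [← hm.map_eq]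
  exact integral_map hm.measurable.aemeasurable hf.aestronglyMeasurable

theorem int_state {a : ℝ} (c : ℕ → ℝ) (T : ℕ) {h : ℝ × ℝ → ℝ} (hm : Measurable h)
    (hp : ∀ (p : ℝ × ℝ) (i j : ℤ), h (p.1 + i, p.2 + j) = h p) :
    ∫ p in sq, h (Z a c p.2 p.1 T, Z a c p.2 p.1 (T+1)) = ∫ p in sq, h p := by
  let e := AddCircle.measurableEquivIoc (1 : ℝ) 0
  let lift : UnitAddCircle → ℝ := fun θ => (e θ : ℝ)
  have hlift : Measurable lift := measurable_subtype_coe.comp e.measurable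
  have hl : ∀ θ : UnitAddCircle, ((lift θ : ℝ) : UnitAddCircle) = θ := by
    intro θ
    exact e.symm_apply_apply θ
  have hint : ∀ x : ℝ, ∃ i : ℤ, lift (x : UnitAddCircle) = x + i := by
    intro x
    have h1 := hl (x : UnitAddCircle)
    have h2 : ((lift (x : UnitAddCircle) - x : ℝ) : UnitAddCircle) = 0 := by
      rw [AddCircle.coe_sub, h1, sub_self]
    rw [AddCircle.coe_eq_zero_iff] at h2
    obtain ⟨i, hi⟩ := h2
    refine ⟨i, ?_⟩
    have h3 : ((i : ℤ) • (1 : ℝ)) = (i : ℝ) := by simp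
    rw [h3] at hi
    linarith
  let h0 : UnitAddCircle × UnitAddCircle → ℝ := fun q => h (lift q.1, lift q.2)
  have h0m : Measurable h0 :=
    hm.comp ((hlift.comp measurable_fst).prodMk (hlift.comp measurable_snd))
  have h0p : ∀ p : ℝ × ℝ, h0 (Pool.Agent.Helper78.SM.mk2 p) = h p := by
    intro p
    obtain ⟨i, hi⟩ := hint p.1
    obtain ⟨j, hj⟩ := hint p.2
    show h (lift (p.1 : UnitAddCircle), lift (p.2 : UnitAddCircle)) = h p
    rw [hi, hj]
    exact hp p i j
  have hsw : MeasurePreserving (Prod.swap : UnitAddCircle × UnitAddCircle → _)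
      (volume : Measure (UnitAddCircle × UnitAddCircle)) volume :=
    Measure.measurePreserving_swap
  have hcomp := hsw.comp (Pool.Agent.Helper78.SM.mp_tau a (Pool.Agent.Helper18.SG.om c) T)
  have e1 : ∀ p : ℝ × ℝ, h (Z a c p.2 p.1 T, Z a c p.2 p.1 (T+1))
      = h0 (Prod.swap (Pool.Agent.Helper78.SM.tau a (Pool.Agent.Helper18.SG.om c) T
        (Pool.Agent.Helper78.SM.mk2 p))) := by
    intro p
    rw [Pool.Agent.Helper78.SM.tau_mk2, Pool.Agent.Helper18.SG.zc_eq, zX8]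
    exact (h0p (Z a c p.2 p.1 T, Z a c p.2 p.1 (T+1))).symm
  have e2 : ∫ p in sq, h (Z a c p.2 p.1 T, Z a c p.2 p.1 (T+1))
      = ∫ q : UnitAddCircle × UnitAddCircle, h0 (Prod.swap
        (Pool.Agent.Helper78.SM.tau a (Pool.Agent.Helper18.SG.om c) T q)) := by
    rw [int8 (f := fun q => h0 (Prod.swap
        (Pool.Agent.Helper78.SM.tau a (Pool.Agent.Helper18.SG.om c) T q)))
        (h0m.comp hcomp.measurable)]
    exact setIntegral_congr_fun measurableSet_sq8 fun p _ => e1 p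
  have e3 : ∫ q : UnitAddCircle × UnitAddCircle, h0 (Prod.swap
        (Pool.Agent.Helper78.SM.tau a (Pool.Agent.Helper18.SG.om c) T q)) = ∫ q, h0 q :=
    Pool.Agent.Helper53.SM.comp_int hcomp h0m
  rw [e2, e3, int8 h0m]
  exact setIntegral_congr_fun measurableSet_sq8 fun p _ => h0p p

end Pool.Agent.Helper18.SD
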