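import Mathlib
import Pool.Agent.Helper18.SD.Vb
import Pool.Agent.Helper18.SG.CalcB
import Pool.Agent.Helper78.SM.Rand

/-! Block SD-FWD: sizes `W` of the transported vector for an arbitrary noise `c`, in terms of the bad
times of the REVERSED noise (energy argument).

Path by path.
* `logW_ge`: as the first half of `Helper78.SM.log_DX_ge` (`VV_step_bad`, `VV_step_good`, `vv_eq`).
* `logW_step`: `|v (k+2)| <= |φ| |v (k+1)| + |v k|`.
* `logW_crude`: sum `logW_step` and `W k <= (|φ| + 1) W (k+1)`; `|φ| + 1 <= 10 |a|`.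
* `logW_rev`: `|v' (T+1)| = |v (T+1)|` by `SG.v_rev`. If `|v' T| <= |v' (T+1)|` then
  `log W T >= log |v (T+1)| = log W' T`. Otherwise use `logW_crude` twice.
* `loss_energy`: with `U_k = log (|φ_k| + 1)` and `D_k = log W (k+1) - log W k <= U_k`:
  `max (9 log b - D_k) 0 <= (U_k - D_k) + max (9 log b - U_k) 0`, sum over `k`, `log W 0 = 0`.
Integrals over the square (`Helper78.SM.int_sq` with `zc_eq`; everything is bounded).
* `int_diff`: `log (t + 1) - gg t <= 3 / b ^ 5` for `t >= b ^ 5`, `<= 6 log b` for `t < b ^ 5`, where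
  `|Phi| < b ^ 5` has measure at most `b ^ 5 / (2 b ^ 10)` (`Helper78.SM.sublevel_Phi`); the sum is
  `<= log b / b`. `int_pos`: `<= 9 log b * b ^ 9 / (2 b ^ 10)`.
* `int_logW_ge`: `logW_rev`, `SG.W_shift` and `int_state` for the function
  `p' ↦ log W' T p' - 1_{bad' T} 2 T log (10 |a|)`, then `logW_ge` for the reversed noise;
  `2 log (10 |a|) <= 22 log b`.
* `sum_pbad_fwd`: `not_hyp_count` integrated, `loss_energy`, `int_logW_ge`, `int_diff`, `int_pos`;
  divide by `2 log b`: `(5.5 log b / b) / (2 log b) <= 3 / b`. -/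

set_option autoImplicit false
open Real Set MeasureTheory
open scoped ENNReal

namespace Pool.Agent.Helper18.SD

open Pool.Agent.Helper78.SM (psi phi dphi Typ sq gg Phi)
open Pool.Agent.Helper18.SG (Z v W rev pbad HypS loss)

attribute [local instance] Pool.Agent.Helper53.SM.instProbU Pool.Agent.Helper53.SM.instProbT2

private lemma VV24 (a : ℝ) (c : ℕ → ℝ) (y x : ℝ) (k : ℕ) :
    Pool.Agent.Helper78.SM.VV a (Pool.Agent.Helper18.SG.om c) (x, y) k = W a c y x k := by
  unfold Pool.Agent.Helper78.SM.VV W Pool.Agent.Helper18.SG.mx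
  rw [Pool.Agent.Helper18.SG.vv_eq, Pool.Agent.Helper18.SG.vv_eq]

private lemma W_zero24 (a : ℝ) (c : ℕ → ℝ) (y x : ℝ) : W a c y x 0 = 1 := by
  unfold W Pool.Agent.Helper18.SG.mx
  rw [Pool.Agent.Helper18.SG.v_one, Pool.Agent.Helper18.SG.v_zero]
  simp

private lemma W_bad24 (a : ℝ) (c : ℕ → ℝ) (y x : ℝ) (k : ℕ) :
    Real.log (W a c y x k) ≤ Real.log (|phi a (Z a c y x (k+1))| + 1) + Real.log (W a c y x (k+1)) := by
  have hV := Pool.Agent.Helper18.SG.W_pos a c y x k
  have hV1 := Pool.Agent.Helper18.SG.W_pos a c y x (k+1)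
  have h2 := Pool.Agent.Helper78.SM.VV_step_bad a (Pool.Agent.Helper18.SG.om c) (x, y) k
  rw [VV24, VV24, Pool.Agent.Helper18.SG.zc_eq] at h2
  rw [← Real.log_mul (by positivity) hV1.ne']
  exact Real.log_le_log hV h2

private lemma log_phi24 {a : ℝ} (ha : 1 ≤ |a|) (x : ℝ) :
    Real.log (|phi a x| + 1) ≤ Real.log (10 * |a|) := by
  have hf := Pool.Agent.Helper78.SM.abs_phi_le ha x
  exact Real.log_le_log (by positivity) (by linarith)

open Classical in
theorem logW_ge {a : ℝ} (ha : 1 ≤ |a|) (c : ℕ → ℝ) (y x : ℝ) (T : ℕ) :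
    ∑ k ∈ Finset.range T, (gg (phi a (Z a c y x (k+1))) -
      (if |v a c y x (k+1)| < |v a c y x k| then 2 * Real.log (10 * |a|) else 0)) ≤
      Real.log (W a c y x T) := by
  have h1 : ∑ k ∈ Finset.range T, (gg (phi a (Z a c y x (k+1))) -
      (if |v a c y x (k+1)| < |v a c y x k| then 2 * Real.log (10 * |a|) else 0)) ≤
      ∑ k ∈ Finset.range T, (Real.log (W a c y x (k+1)) - Real.log (W a c y x k)) := by
    apply Finset.sum_le_sum
    intro k _
    have hV := Pool.Agent.Helper18.SG.W_pos a c y x k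
    have hV1 := Pool.Agent.Helper18.SG.W_pos a c y x (k+1)
    have hfup := Pool.Agent.Helper78.SM.abs_phi_le ha (Z a c y x (k+1))
    split_ifs with hbad
    · have h3 := W_bad24 a c y x k
      have h4 := log_phi24 ha (Z a c y x (k+1))
      have h5 : gg (phi a (Z a c y x (k+1))) ≤ Real.log (10 * |a|) := by
        unfold Pool.Agent.Helper78.SM.gg
        apply Real.log_le_log (lt_max_of_lt_right one_pos)
        apply max_le <;> linarith
      linarith
    · rw [not_lt] at hbad
      have h2 := Pool.Agent.Helper78.SM.VV_step_good (a := a) (ω := Pool.Agent.Helper18.SG.om c)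
        (p := (x, y)) (k := k)
        (by rw [Pool.Agent.Helper18.SG.vv_eq, Pool.Agent.Helper18.SG.vv_eq]; exact hbad)
      rw [VV24, VV24, Pool.Agent.Helper18.SG.zc_eq] at h2
      have h3 : gg (phi a (Z a c y x (k+1))) + Real.log (W a c y x k) ≤
          Real.log (W a c y x (k+1)) := by
        unfold Pool.Agent.Helper78.SM.gg
        rw [← Real.log_mul (ne_of_gt (lt_max_of_lt_right one_pos)) hV.ne']
        exact Real.log_le_log (mul_pos (lt_max_of_lt_right one_pos) hV) h2
      linarith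
  refine h1.trans ?_
  rw [Finset.sum_range_sub (fun k => Real.log (W a c y x k)), W_zero24, Real.log_one, sub_zero]

theorem logW_step (a : ℝ) (c : ℕ → ℝ) (y x : ℝ) (k : ℕ) :
    Real.log (W a c y x (k+1)) - Real.log (W a c y x k) ≤
      Real.log (|phi a (Z a c y x (k+1))| + 1) := by
  have hV := Pool.Agent.Helper18.SG.W_pos a c y x k
  have hV1 := Pool.Agent.Helper18.SG.W_pos a c y x (k+1)
  have hf0 := abs_nonneg (phi a (Z a c y x (k+1)))
  have h : W a c y x (k+1) ≤ (|phi a (Z a c y x (k+1))| + 1) * W a c y x k := by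
    have h1 : |v a c y x (k+1)| ≤ W a c y x k := le_max_left _ _
    have h2 : |v a c y x k| ≤ W a c y x k := le_max_right _ _
    unfold W Pool.Agent.Helper18.SG.mx
    change max |v a c y x (k+2)| |v a c y x (k+1)| ≤
      (|phi a (Z a c y x (k+1))| + 1) * W a c y x k
    apply max_le
    · rw [Pool.Agent.Helper18.SG.v_rec]
      calc |phi a (Z a c y x (k+1)) * v a c y x (k+1) - v a c y x k| ≤
          |phi a (Z a c y x (k+1)) * v a c y x (k+1)| + |v a c y x k| := abs_sub _ _
        _ = |phi a (Z a c y x (k+1))| * |v a c y x (k+1)| + |v a c y x k| := by rw [abs_mul]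
        _ ≤ |phi a (Z a c y x (k+1))| * W a c y x k + W a c y x k := by gcongr
        _ = _ := by ring
    · nlinarith
  have h2 := Real.log_le_log hV1 h
  rw [Real.log_mul (by positivity) hV.ne'] at h2
  linarith

theorem logW_crude {a : ℝ} (ha : 1 ≤ |a|) (c : ℕ → ℝ) (y x : ℝ) (T : ℕ) :
    |Real.log (W a c y x T)| ≤ T * Real.log (10 * |a|) := by
  induction T with
  | zero => rw [W_zero24]; simp
  | succ k ih =>
    have h1 := logW_step a c y x k
    have h2 := W_bad24 a c y x k
    have h3 := log_phi24 ha (Z a c y x (k+1))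
    rw [abs_le] at ih ⊢
    push_cast
    constructor <;> linarith [ih.1, ih.2]

open Classical in
theorem logW_rev {a : ℝ} (ha : 1 ≤ |a|) (c : ℕ → ℝ) (y x : ℝ) (T : ℕ) :
    Real.log (W a (rev c T) (Z a c y x (T+1)) (Z a c y x T) T) -
      (if |v a (rev c T) (Z a c y x (T+1)) (Z a c y x T) (T+1)| <
        |v a (rev c T) (Z a c y x (T+1)) (Z a c y x T) T| then 2 * T * Real.log (10 * |a|) else 0) ≤
      Real.log (W a c y x T) := by
  split_ifs with h
  · have h1 := (abs_le.1 (logW_crude ha (rev c T) (Z a c y x (T+1)) (Z a c y x T) T)).2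
    have h2 := (abs_le.1 (logW_crude ha c y x T)).1
    linarith
  · rw [not_lt] at h
    rw [sub_zero]
    apply Real.log_le_log (Pool.Agent.Helper18.SG.W_pos _ _ _ _ _)
    have e : W a (rev c T) (Z a c y x (T+1)) (Z a c y x T) T = |v a c y x (T+1)| := by
      unfold W Pool.Agent.Helper18.SG.mx
      rw [max_eq_left h, Pool.Agent.Helper18.SG.v_rev]
    rw [e]
    exact le_max_left _ _

theorem loss_energy {a b : ℝ} (ha : 1 ≤ |a|) (c : ℕ → ℝ) (y x : ℝ) (T : ℕ) :
    ∑ k ∈ Finset.range T, loss b (W a c y x) k ≤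
      ∑ k ∈ Finset.range T, (Real.log (|phi a (Z a c y x (k+1))| + 1) +
        max (9 * Real.log b - Real.log (|phi a (Z a c y x (k+1))| + 1)) 0) -
      Real.log (W a c y x T) := by
  have h1 : Real.log (W a c y x T) =
      ∑ k ∈ Finset.range T, (Real.log (W a c y x (k+1)) - Real.log (W a c y x k)) := by
    rw [Finset.sum_range_sub (fun k => Real.log (W a c y x k)), W_zero24, Real.log_one, sub_zero]
  rw [h1, ← Finset.sum_sub_distrib]
  apply Finset.sum_le_sum
  intro k _
  have h2 := logW_step a c y x k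
  unfold Pool.Agent.Helper18.SG.loss
  have h3 := le_max_left (9 * Real.log b - Real.log (|phi a (Z a c y x (k+1))| + 1)) 0
  have h4 := le_max_right (9 * Real.log b - Real.log (|phi a (Z a c y x (k+1))| + 1)) 0
  apply max_le <;> linarith

private lemma logs26 {a b : ℝ} (hb : 1000 ≤ b) (hab : |a| = b ^ 10) :
    Real.log (10 * |a|) ≤ 11 * Real.log b := by
  have hb0 : 0 < b := by linarith
  have h : 10 * |a| ≤ b ^ 11 := by
    rw [hab, pow_succ b 10, mul_comm]
    exact mul_le_mul_of_nonneg_left (by linarith) (by positivity)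
  have h2 := Real.log_le_log (by rw [hab]; positivity) h
  rw [Real.log_pow] at h2
  exact_mod_cast h2

private lemma log_one26 {b : ℝ} (hb : 1000 ≤ b) : 1 ≤ Real.log b := by
  rw [Real.le_log_iff_exp_le (by linarith)]
  have := Real.exp_one_lt_d9
  linarith

private lemma diff_pt26 {b t : ℝ} (hb : 1000 ≤ b) :
    Real.log (|t| + 1) - gg t ≤ 3 / b ^ 5 + (if |t| ≤ b ^ 5 then 6 * Real.log b else 0) := by
  have hb0 : 0 < b := by linarith
  have hb1 : 1 < b := by linarith
  have hlog := log_one26 hb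
  have h5 : (1000:ℝ) ≤ b ^ 5 := le_trans hb (le_self_pow₀ hb1.le (by norm_num))
  have h50 : 0 < b ^ 5 := by positivity
  have ht := abs_nonneg t
  by_cases h : |t| ≤ b ^ 5
  · rw [if_pos h]
    have h1 := Pool.Agent.Helper78.SM.gg_nonneg t
    have h2 : |t| + 1 ≤ b ^ 6 := by
      have : b ^ 6 = b ^ 5 * b := by ring
      rw [this]
      nlinarith
    have h3 := Real.log_le_log (by linarith) h2
    rw [Real.log_pow] at h3
    push_cast at h3
    have h4 : 0 < 3 / b ^ 5 := by positivity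
    linarith
  · rw [if_neg h, add_zero]
    rw [not_le] at h
    have h1 : Real.log (|t| - 1) ≤ gg t := by
      unfold Pool.Agent.Helper78.SM.gg
      exact Real.log_le_log (by linarith) (le_max_left _ _)
    have h2 : 0 < |t| - 1 := by linarith
    have h3 : Real.log (|t| + 1) - Real.log (|t| - 1) = Real.log ((|t| + 1) / (|t| - 1)) := by
      rw [Real.log_div (by linarith) h2.ne']
    have h4 := Real.log_le_sub_one_of_pos (x := (|t| + 1) / (|t| - 1)) (by positivity)
    have h6 : (|t| + 1) / (|t| - 1) - 1 = 2 / (|t| - 1) := by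
      field_simp
      ring
    have h7 : 2 / (|t| - 1) ≤ 3 / b ^ 5 := by
      rw [div_le_div_iff₀ h2 h50]
      nlinarith
    linarith

private lemma meas26 (a s : ℝ) : MeasurableSet {θ : UnitAddCircle | |Phi a θ| ≤ s} :=
  measurableSet_le (continuous_abs.measurable.comp (Pool.Agent.Helper78.SM.measurable_Phi a))
    measurable_const

private lemma intS26 {a s C : ℝ} (ha : 1 ≤ |a|) (hs : 0 ≤ s) (hC : 0 ≤ C) :
    ∫ θ : UnitAddCircle, (if |Phi a θ| ≤ s then C else 0) ≤ C * (s / (2 * |a|)) := by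
  have h1 : (fun θ : UnitAddCircle => (if |Phi a θ| ≤ s then C else 0)) =
      ({θ : UnitAddCircle | |Phi a θ| ≤ s}).indicator (fun _ => C) := by
    funext θ
    by_cases h : |Phi a θ| ≤ s
    · rw [if_pos h, Set.indicator_of_mem (show θ ∈ {θ : UnitAddCircle | |Phi a θ| ≤ s} from h)]
    · rw [if_neg h, Set.indicator_of_notMem (show θ ∉ {θ : UnitAddCircle | |Phi a θ| ≤ s} from h)]
  rw [h1, integral_indicator_const C (meas26 a s), smul_eq_mul, mul_comm]
  apply mul_le_mul_of_nonneg_left _ hC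
  rw [measureReal_def]
  exact ENNReal.toReal_le_of_le_ofReal (by positivity) (Pool.Agent.Helper78.SM.sublevel_Phi ha hs)

private lemma intbS26 {a s C : ℝ} :
    Integrable (fun θ : UnitAddCircle => (if |Phi a θ| ≤ s then C else 0)) := by
  have h1 : (fun θ : UnitAddCircle => (if |Phi a θ| ≤ s then C else 0)) =
      ({θ : UnitAddCircle | |Phi a θ| ≤ s}).indicator (fun _ => C) := by
    funext θ
    by_cases h : |Phi a θ| ≤ s
    · rw [if_pos h, Set.indicator_of_mem (show θ ∈ {θ : UnitAddCircle | |Phi a θ| ≤ s} from h)]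
    · rw [if_neg h, Set.indicator_of_notMem (show θ ∉ {θ : UnitAddCircle | |Phi a θ| ≤ s} from h)]
  rw [h1]
  exact (integrable_const C).indicator (meas26 a s)

private lemma int_log26 {a : ℝ} (ha : 1 ≤ |a|) :
    Integrable (fun θ : UnitAddCircle => Real.log (|Phi a θ| + 1)) := by
  refine Integrable.of_bound (Real.measurable_log.comp
    ((continuous_abs.measurable.comp (Pool.Agent.Helper78.SM.measurable_Phi a)).add_const 1)).aestronglyMeasurable
    (Real.log (10 * |a|)) ?_
  exact Filter.Eventually.of_forall (fun θ => by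
    rw [Real.norm_eq_abs]; exact Pool.Agent.Helper78.SM.abs_log_le ha θ)

private lemma int_gg26 {a : ℝ} (ha : 1 ≤ |a|) :
    Integrable (fun θ : UnitAddCircle => gg (Phi a θ)) := by
  refine Integrable.of_bound (Pool.Agent.Helper78.SM.measurable_gg.comp
    (Pool.Agent.Helper78.SM.measurable_Phi a)).aestronglyMeasurable (Real.log (10 * |a|)) ?_
  exact Filter.Eventually.of_forall (fun θ => by
    rw [Real.norm_eq_abs]; exact Pool.Agent.Helper78.SM.abs_gg_le ha θ)

theorem int_diff {a b : ℝ} (hb : 1000 ≤ b) (hab : |a| = b ^ 10) :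
    (∫ θ : UnitAddCircle, Real.log (|Phi a θ| + 1)) - (∫ θ : UnitAddCircle, gg (Phi a θ)) ≤
      Real.log b / b := by
  have hb0 : 0 < b := by linarith
  have hb1 : 1 < b := by linarith
  have ha1 : 1 ≤ |a| := by rw [hab]; exact one_le_pow₀ hb1.le
  have hlog := log_one26 hb
  rw [← integral_sub (int_log26 ha1) (int_gg26 ha1)]
  have h1 : ∫ θ : UnitAddCircle, (Real.log (|Phi a θ| + 1) - gg (Phi a θ)) ≤
      ∫ θ : UnitAddCircle, (3 / b ^ 5 + (if |Phi a θ| ≤ b ^ 5 then 6 * Real.log b else 0)) := by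
    apply integral_mono ((int_log26 ha1).sub (int_gg26 ha1)) ((integrable_const _).add intbS26)
    intro θ
    exact diff_pt26 hb
  rw [integral_add (integrable_const _) intbS26] at h1
  have h2 : ∫ θ : UnitAddCircle, (3 / b ^ 5 : ℝ) = 3 / b ^ 5 := by
    simp
  rw [h2] at h1
  have h3 := intS26 (a := a) (s := b ^ 5) (C := 6 * Real.log b) ha1 (by positivity) (by positivity)
  have h4 : 6 * Real.log b * (b ^ 5 / (2 * |a|)) = 3 * Real.log b / b ^ 5 := by
    rw [hab]
    field_simp
    ring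
  rw [h4] at h3
  have h5 : 3 / b ^ 5 + 3 * Real.log b / b ^ 5 ≤ Real.log b / b := by
    rw [← add_div, div_le_div_iff₀ (by positivity) hb0]
    have h6 : (6:ℝ) ≤ b ^ 4 := le_trans (by linarith) (le_self_pow₀ hb1.le (by norm_num))
    have h7 : b ^ 5 = b ^ 4 * b := by ring
    rw [h7, ← mul_assoc]
    apply mul_le_mul_of_nonneg_right _ hb0.le
    nlinarith
  linarith

theorem int_pos {a b : ℝ} (hb : 1000 ≤ b) (hab : |a| = b ^ 10) :
    ∫ θ : UnitAddCircle, max (9 * Real.log b - Real.log (|Phi a θ| + 1)) 0 ≤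
      9 / 2 * (Real.log b / b) := by
  have hb0 : 0 < b := by linarith
  have hb1 : 1 < b := by linarith
  have ha1 : 1 ≤ |a| := by rw [hab]; exact one_le_pow₀ hb1.le
  have hlog := log_one26 hb
  have h1 : ∫ θ : UnitAddCircle, max (9 * Real.log b - Real.log (|Phi a θ| + 1)) 0 ≤
      ∫ θ : UnitAddCircle, (if |Phi a θ| ≤ b ^ 9 then 9 * Real.log b else 0) := by
    apply integral_mono (((integrable_const _).sub (int_log26 ha1)).sup (integrable_const 0)) intbS26
    intro θ
    show max (9 * Real.log b - Real.log (|Phi a θ| + 1)) 0 ≤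
      (if |Phi a θ| ≤ b ^ 9 then 9 * Real.log b else 0)
    have ht := abs_nonneg (Phi a θ)
    by_cases h : |Phi a θ| ≤ b ^ 9
    · rw [if_pos h]
      have h1 : 0 ≤ Real.log (|Phi a θ| + 1) := Real.log_nonneg (by linarith)
      apply max_le <;> linarith
    · rw [if_neg h]
      rw [not_le] at h
      have h1 : Real.log (b ^ 9) ≤ Real.log (|Phi a θ| + 1) := Real.log_le_log (by positivity) (by linarith)
      rw [Real.log_pow] at h1
      push_cast at h1
      apply max_le <;> linarith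
  refine h1.trans ((intS26 ha1 (by positivity) (by positivity)).trans (le_of_eq ?_))
  rw [hab]
  field_simp

private lemma finsq26 : IsFiniteMeasure ((volume : Measure (ℝ × ℝ)).restrict sq) := by
  have := Pool.Agent.Helper78.SM.prob_sq
  infer_instance

private lemma contv26 (a : ℝ) (c : ℕ → ℝ) (k : ℕ) :
    Continuous (fun p : ℝ × ℝ => v a c p.2 p.1 k) :=
  (Pool.Agent.Helper18.SG.continuous_v a c k).comp continuous_swap

private lemma contZ26 (a : ℝ) (c : ℕ → ℝ) (k : ℕ) :
    Continuous (fun p : ℝ × ℝ => Z a c p.2 p.1 k) :=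
  (Pool.Agent.Helper18.SG.continuous_Z a c k).comp continuous_swap

private lemma contW26 (a : ℝ) (c : ℕ → ℝ) (k : ℕ) :
    Continuous (fun p : ℝ × ℝ => W a c p.2 p.1 k) := by
  unfold W Pool.Agent.Helper18.SG.mx
  exact (contv26 a c (k+1)).abs.max (contv26 a c k).abs

private lemma contphi26 (a : ℝ) (c : ℕ → ℝ) (k : ℕ) :
    Continuous (fun p : ℝ × ℝ => phi a (Z a c p.2 p.1 k)) := by
  have hc : Continuous (phi a) := by
    unfold Pool.Agent.Helper78.SM.phi
    fun_prop
  exact hc.comp (contZ26 a c k)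

private lemma measBad26 (a : ℝ) (c : ℕ → ℝ) (k : ℕ) :
    MeasurableSet {p : ℝ × ℝ | |v a c p.2 p.1 (k+1)| < |v a c p.2 p.1 k|} :=
  (isOpen_lt (contv26 a c (k+1)).abs (contv26 a c k).abs).measurableSet

private lemma integrable_logW26 {a : ℝ} (ha : 1 ≤ |a|) (c : ℕ → ℝ) (T : ℕ) :
    Integrable (fun p : ℝ × ℝ => Real.log (W a c p.2 p.1 T)) (volume.restrict sq) := by
  have := finsq26
  refine Integrable.of_bound (Real.measurable_log.comp (contW26 a c T).measurable).aestronglyMeasurable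
    (T * Real.log (10 * |a|)) ?_
  exact Filter.Eventually.of_forall (fun p => by
    rw [Real.norm_eq_abs]; exact logW_crude ha c p.2 p.1 T)

open Classical in
private lemma integrable_ind26 (a : ℝ) (c : ℕ → ℝ) (k : ℕ) (C : ℝ) :
    Integrable (fun p : ℝ × ℝ => if |v a c p.2 p.1 (k+1)| < |v a c p.2 p.1 k| then C else 0)
      (volume.restrict sq) := by
  have := finsq26
  have h1 : (fun p : ℝ × ℝ => if |v a c p.2 p.1 (k+1)| < |v a c p.2 p.1 k| then C else 0) =
      {p : ℝ × ℝ | |v a c p.2 p.1 (k+1)| < |v a c p.2 p.1 k|}.indicator (fun _ => C) := by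
    funext p
    by_cases h : |v a c p.2 p.1 (k+1)| < |v a c p.2 p.1 k|
    · rw [if_pos h, Set.indicator_of_mem (show p ∈ {p : ℝ × ℝ | |v a c p.2 p.1 (k+1)| < |v a c p.2 p.1 k|} from h)]
    · rw [if_neg h, Set.indicator_of_notMem (show p ∉ {p : ℝ × ℝ | |v a c p.2 p.1 (k+1)| < |v a c p.2 p.1 k|} from h)]
  rw [h1]
  exact (integrable_const C).indicator (measBad26 a c k)

open Classical in
private lemma int_ind26 (a : ℝ) (c : ℕ → ℝ) (k : ℕ) (C : ℝ) :
    ∫ p in sq, (if |v a c p.2 p.1 (k+1)| < |v a c p.2 p.1 k| then C else 0) = C * vb a c k := by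
  have h1 : (fun p : ℝ × ℝ => if |v a c p.2 p.1 (k+1)| < |v a c p.2 p.1 k| then C else 0) =
      {p : ℝ × ℝ | |v a c p.2 p.1 (k+1)| < |v a c p.2 p.1 k|}.indicator (fun _ => C) := by
    funext p
    by_cases h : |v a c p.2 p.1 (k+1)| < |v a c p.2 p.1 k|
    · rw [if_pos h, Set.indicator_of_mem (show p ∈ {p : ℝ × ℝ | |v a c p.2 p.1 (k+1)| < |v a c p.2 p.1 k|} from h)]
    · rw [if_neg h, Set.indicator_of_notMem (show p ∉ {p : ℝ × ℝ | |v a c p.2 p.1 (k+1)| < |v a c p.2 p.1 k|} from h)]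
  rw [h1, integral_indicator_const C (measBad26 a c k), smul_eq_mul, mul_comm, measureReal_def,
    Measure.restrict_apply (measBad26 a c k)]
  unfold vb
  congr 3
  ext p
  exact and_comm

private lemma int_phi26 {a : ℝ} (c : ℕ → ℝ) (k : ℕ) {g : ℝ → ℝ} (hg : Measurable g) :
    ∫ p in sq, g (phi a (Z a c p.2 p.1 (k+1))) = ∫ θ : UnitAddCircle, g (Phi a θ) := by
  have h := Pool.Agent.Helper78.SM.int_sq (a := a) (Pool.Agent.Helper18.SG.om c) k hg
  simpa only [Pool.Agent.Helper18.SG.zc_eq] using h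

private lemma integrable_phi26 {a : ℝ} (c : ℕ → ℝ) (k : ℕ) {g : ℝ → ℝ} (hg : Measurable g) {C : ℝ}
    (hC : ∀ x, |g (phi a x)| ≤ C) :
    Integrable (fun p : ℝ × ℝ => g (phi a (Z a c p.2 p.1 (k+1)))) (volume.restrict sq) := by
  have := finsq26
  refine Integrable.of_bound (hg.comp (contphi26 a c (k+1)).measurable).aestronglyMeasurable C ?_
  exact Filter.Eventually.of_forall (fun p => by rw [Real.norm_eq_abs]; exact hC _)

open Classical in
private lemma int_gain26 {a b : ℝ} (hb : 1000 ≤ b) (hab : |a| = b ^ 10) (c : ℕ → ℝ) (T : ℕ) :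
    T * (∫ θ : UnitAddCircle, gg (Phi a θ)) - 2 * Real.log (10 * |a|) *
      (∑ k ∈ Finset.range T, vb a c k) ≤
      ∫ p in sq, Real.log (W a c p.2 p.1 T) := by
  have hb1 : 1 < b := by linarith
  have ha1 : 1 ≤ |a| := by rw [hab]; exact one_le_pow₀ hb1.le
  have hi1 : ∀ k, Integrable (fun p : ℝ × ℝ => gg (phi a (Z a c p.2 p.1 (k+1)))) (volume.restrict sq) :=
    fun k => integrable_phi26 c k Pool.Agent.Helper78.SM.measurable_gg
      (Pool.Agent.Helper78.SM.phi_gg_le ha1)
  have hi2 := fun k => integrable_ind26 a c k (2 * Real.log (10 * |a|))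
  have hi12 : ∀ k, Integrable (fun p : ℝ × ℝ => gg (phi a (Z a c p.2 p.1 (k+1))) -
      (if |v a c p.2 p.1 (k+1)| < |v a c p.2 p.1 k| then 2 * Real.log (10 * |a|) else 0))
      (volume.restrict sq) := fun k => (hi1 k).sub (hi2 k)
  have h1 : ∫ p in sq, ∑ k ∈ Finset.range T, (gg (phi a (Z a c p.2 p.1 (k+1))) -
      (if |v a c p.2 p.1 (k+1)| < |v a c p.2 p.1 k| then 2 * Real.log (10 * |a|) else 0)) ≤
      ∫ p in sq, Real.log (W a c p.2 p.1 T) := by
    apply integral_mono (integrable_finsetSum _ fun k _ => hi12 k)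
      (integrable_logW26 ha1 c T)
    intro p
    exact logW_ge ha1 c p.2 p.1 T
  refine le_trans (le_of_eq ?_) h1
  rw [integral_finsetSum _ (fun k _ => hi12 k)]
  have h2 : ∀ k, ∫ p in sq, (gg (phi a (Z a c p.2 p.1 (k+1))) -
      (if |v a c p.2 p.1 (k+1)| < |v a c p.2 p.1 k| then 2 * Real.log (10 * |a|) else 0)) =
      (∫ θ : UnitAddCircle, gg (Phi a θ)) - 2 * Real.log (10 * |a|) * vb a c k := by
    intro k
    rw [integral_sub (hi1 k) (hi2 k), int_phi26 c k Pool.Agent.Helper78.SM.measurable_gg,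
      int_ind26]
  simp only [h2]
  rw [Finset.sum_sub_distrib, Finset.sum_const, Finset.card_range, nsmul_eq_mul, Finset.mul_sum]

theorem int_logW_ge {a b : ℝ} (hb : 1000 ≤ b) (hab : |a| = b ^ 10) (c : ℕ → ℝ) (T : ℕ) :
    T * (∫ θ : UnitAddCircle, gg (Phi a θ)) - 22 * Real.log b *
      ((∑ k ∈ Finset.range T, vb a (rev c T) k) + T * vb a (rev c T) T) ≤
      ∫ p in sq, Real.log (W a c p.2 p.1 T) := by
  have hb1 : 1 < b := by linarith
  have ha1 : 1 ≤ |a| := by rw [hab]; exact one_le_pow₀ hb1.le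
  have hi1 := integrable_logW26 ha1 (rev c T) T
  have hi2 := integrable_ind26 a (rev c T) T (2 * T * Real.log (10 * |a|))
  have hm : Measurable (fun p : ℝ × ℝ => Real.log (W a (rev c T) p.2 p.1 T) -
      (if |v a (rev c T) p.2 p.1 (T+1)| < |v a (rev c T) p.2 p.1 T| then
        2 * T * Real.log (10 * |a|) else 0)) := by
    apply Measurable.sub
    · exact Real.measurable_log.comp (contW26 a (rev c T) T).measurable
    · exact Measurable.ite (measBad26 a (rev c T) T) measurable_const measurable_const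
  have hp : ∀ (p : ℝ × ℝ) (i j : ℤ), (fun p : ℝ × ℝ => Real.log (W a (rev c T) p.2 p.1 T) -
      (if |v a (rev c T) p.2 p.1 (T+1)| < |v a (rev c T) p.2 p.1 T| then
        2 * T * Real.log (10 * |a|) else 0)) (p.1 + i, p.2 + j) =
      (fun p : ℝ × ℝ => Real.log (W a (rev c T) p.2 p.1 T) -
      (if |v a (rev c T) p.2 p.1 (T+1)| < |v a (rev c T) p.2 p.1 T| then
        2 * T * Real.log (10 * |a|) else 0)) p := by
    intro p i j
    show Real.log (W a (rev c T) (p.2 + j) (p.1 + i) T) -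
      (if |v a (rev c T) (p.2 + j) (p.1 + i) (T+1)| < |v a (rev c T) (p.2 + j) (p.1 + i) T| then
        2 * T * Real.log (10 * |a|) else 0) = _
    rw [Pool.Agent.Helper18.SG.W_shift, Pool.Agent.Helper18.SG.v_shift,
      Pool.Agent.Helper18.SG.v_shift]
  have h1 := int_state (a := a) c T hm hp
  have h2 : ∫ p in sq, (Real.log (W a (rev c T) (Z a c p.2 p.1 (T+1)) (Z a c p.2 p.1 T) T) -
      (if |v a (rev c T) (Z a c p.2 p.1 (T+1)) (Z a c p.2 p.1 T) (T+1)| <
        |v a (rev c T) (Z a c p.2 p.1 (T+1)) (Z a c p.2 p.1 T) T| then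
        2 * T * Real.log (10 * |a|) else 0)) ≤ ∫ p in sq, Real.log (W a c p.2 p.1 T) := by
    apply integral_mono _ (integrable_logW26 ha1 c T)
    · intro p
      exact logW_rev ha1 c p.2 p.1 T
    · have := finsq26
      have hcont : Continuous (fun p : ℝ × ℝ => ((Z a c p.2 p.1 T, Z a c p.2 p.1 (T+1)) : ℝ × ℝ)) :=
        (contZ26 a c T).prodMk (contZ26 a c (T+1))
      have hlog0 : 0 ≤ Real.log (10 * |a|) := Real.log_nonneg (by linarith)
      refine Integrable.of_bound (hm.comp hcont.measurable).aestronglyMeasurable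
        (T * Real.log (10 * |a|) + 2 * T * Real.log (10 * |a|)) ?_
      refine Filter.Eventually.of_forall (fun p => ?_)
      rw [Real.norm_eq_abs]
      refine (abs_sub _ _).trans (add_le_add (logW_crude ha1 _ _ _ T) ?_)
      split_ifs
      · rw [abs_of_nonneg (by positivity)]
      · rw [abs_zero]; positivity
  have h3 : ∫ p in sq, (Real.log (W a (rev c T) p.2 p.1 T) -
      (if |v a (rev c T) p.2 p.1 (T+1)| < |v a (rev c T) p.2 p.1 T| then
        2 * T * Real.log (10 * |a|) else 0)) =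
      (∫ p in sq, Real.log (W a (rev c T) p.2 p.1 T)) -
        2 * T * Real.log (10 * |a|) * vb a (rev c T) T := by
    rw [integral_sub hi1 hi2, int_ind26]
  have h4 := int_gain26 hb hab (rev c T) T
  have h5 : (∫ p in sq, Real.log (W a (rev c T) p.2 p.1 T)) -
        2 * T * Real.log (10 * |a|) * vb a (rev c T) T ≤ ∫ p in sq, Real.log (W a c p.2 p.1 T) := by
    rw [← h3, ← h1]
    exact h2
  refine le_trans ?_ h5
  have h6 := logs26 hb hab
  have h7 : 0 ≤ (∑ k ∈ Finset.range T, vb a (rev c T) k) + T * vb a (rev c T) T := by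
    apply add_nonneg
    · exact Finset.sum_nonneg fun k _ => vb_nonneg _ _ _
    · exact mul_nonneg (Nat.cast_nonneg _) (vb_nonneg _ _ _)
  have h8 : 2 * Real.log (10 * |a|) *
      ((∑ k ∈ Finset.range T, vb a (rev c T) k) + T * vb a (rev c T) T) ≤ 22 * Real.log b *
      ((∑ k ∈ Finset.range T, vb a (rev c T) k) + T * vb a (rev c T) T) :=
    mul_le_mul_of_nonneg_right (by linarith) h7
  linarith

private lemma vol_swap26 (P : ℝ → ℝ → Prop) :
    volume {p : ℝ × ℝ | p ∈ sq ∧ P p.1 p.2} = volume {p : ℝ × ℝ | p ∈ sq ∧ P p.2 p.1} := by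
  have h1 : MeasurePreserving (MeasurableEquiv.prodComm : ℝ × ℝ ≃ᵐ ℝ × ℝ)
      (volume : Measure (ℝ × ℝ)) (volume : Measure (ℝ × ℝ)) :=
    MeasureTheory.Measure.measurePreserving_swap (μ := (volume : Measure ℝ)) (ν := (volume : Measure ℝ))
  rw [← h1.measure_preimage_equiv {p : ℝ × ℝ | p ∈ sq ∧ P p.1 p.2}]
  congr 1
  ext p
  show (p.swap ∈ sq ∧ P p.swap.1 p.swap.2) ↔ (p ∈ sq ∧ P p.2 p.1)
  have : p.swap ∈ sq ↔ p ∈ sq := by
    unfold Pool.Agent.Helper78.SM.sq
    rw [Set.mem_prod, Set.mem_prod]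
    exact and_comm
  rw [this]
  exact Iff.rfl

private lemma closed26 (a b : ℝ) (c : ℕ → ℝ) (n : ℕ) :
    IsClosed {p : ℝ × ℝ | HypS b (W a c p.2 p.1) n} := by
  have : {p : ℝ × ℝ | HypS b (W a c p.2 p.1) n} = ⋂ j, ⋂ i, ⋂ (_ : j ≤ i), ⋂ (_ : i ≤ n),
      {p : ℝ × ℝ | W a c p.2 p.1 j * b ^ (9 * (i - j)) ≤ b ^ (2 * (n - j)) * W a c p.2 p.1 i} := by
    ext p
    simp only [Set.mem_iInter]
    exact Iff.rfl
  rw [this]
  refine isClosed_iInter fun j => isClosed_iInter fun i => isClosed_iInter fun _ =>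
    isClosed_iInter fun _ => ?_
  exact isClosed_le ((contW26 a c j).mul continuous_const) (continuous_const.mul (contW26 a c i))

private lemma int_hyp26 (a b : ℝ) (c : ℕ → ℝ) (n : ℕ) :
    ∫ p in sq, ({p : ℝ × ℝ | HypS b (W a c p.2 p.1) n}ᶜ).indicator (1 : ℝ × ℝ → ℝ) p = pbad a b c n := by
  have hS := (closed26 a b c n).measurableSet.compl
  rw [integral_indicator_one hS, measureReal_def, Measure.restrict_apply hS]
  unfold pbad
  rw [vol_swap26 (fun y x => ¬ HypS b (W a c y x) n)]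
  congr 2
  ext p
  exact and_comm

open Classical in
private lemma point26 {a b : ℝ} (hb : 1000 ≤ b) (hab : |a| = b ^ 10) (c : ℕ → ℝ) (T : ℕ) (p : ℝ × ℝ) :
    2 * Real.log b * ∑ n ∈ Finset.Icc 1 T,
      ({p : ℝ × ℝ | HypS b (W a c p.2 p.1) n}ᶜ).indicator (1 : ℝ × ℝ → ℝ) p ≤
      ∑ k ∈ Finset.range T, (Real.log (|phi a (Z a c p.2 p.1 (k+1))| + 1) +
        max (9 * Real.log b - Real.log (|phi a (Z a c p.2 p.1 (k+1))| + 1)) 0) -
      Real.log (W a c p.2 p.1 T) := by
  have hb1 : 1 < b := by linarith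
  have ha1 : 1 ≤ |a| := by rw [hab]; exact one_le_pow₀ hb1.le
  have h1 := Pool.Agent.Helper18.SG.not_hyp_count hb1 (V := W a c p.2 p.1)
    (fun k => Pool.Agent.Helper18.SG.W_pos a c p.2 p.1 k) T
  have h3 : (((Finset.Icc 1 T).filter (fun n => ¬ HypS b (W a c p.2 p.1) n)).card : ℝ) =
      ∑ n ∈ Finset.Icc 1 T, ({p : ℝ × ℝ | HypS b (W a c p.2 p.1) n}ᶜ).indicator (1 : ℝ × ℝ → ℝ) p := by
    rw [Finset.card_filter]
    push_cast
    apply Finset.sum_congr rfl
    intro n _
    by_cases hs : HypS b (W a c p.2 p.1) n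
    · rw [if_neg (not_not.2 hs), Set.indicator_of_notMem]
      intro h
      exact h hs
    · rw [if_pos hs, Set.indicator_of_mem (show p ∈ {p : ℝ × ℝ | HypS b (W a c p.2 p.1) n}ᶜ from hs)]
      rfl
  rw [h3] at h1
  exact h1.trans (loss_energy ha1 c p.2 p.1 T)

theorem sum_pbad_fwd {a b : ℝ} (hb : 1000 ≤ b) (hab : |a| = b ^ 10) (c : ℕ → ℝ) (T : ℕ) :
    ∑ n ∈ Finset.Icc 1 T, pbad a b c n ≤ 3 * T / b +
      11 * ((∑ k ∈ Finset.range T, vb a (rev c T) k) + T * vb a (rev c T) T) := by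
  have hb0 : 0 < b := by linarith
  have hb1 : 1 < b := by linarith
  have ha1 : 1 ≤ |a| := by rw [hab]; exact one_le_pow₀ hb1.le
  have hlog := log_one26 hb
  have hlog0 : 0 < Real.log b := by linarith
  have hfin := finsq26
  have hlog10 : 0 ≤ Real.log (10 * |a|) := Real.log_nonneg (by linarith)
  have hgm : Measurable (fun t : ℝ => Real.log (|t| + 1)) :=
    Real.measurable_log.comp (continuous_abs.measurable.add_const 1)
  have hgm2 : Measurable (fun t : ℝ => max (9 * Real.log b - Real.log (|t| + 1)) 0) :=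
    (measurable_const.sub hgm).max measurable_const
  have hi1 : ∀ k, Integrable (fun p : ℝ × ℝ => Real.log (|phi a (Z a c p.2 p.1 (k+1))| + 1))
      (volume.restrict sq) := fun k => integrable_phi26 c k hgm
        (Pool.Agent.Helper78.SM.phi_log_le ha1)
  have hi2 : ∀ k, Integrable (fun p : ℝ × ℝ =>
      max (9 * Real.log b - Real.log (|phi a (Z a c p.2 p.1 (k+1))| + 1)) 0)
      (volume.restrict sq) := fun k => ((integrable_const _).sub (hi1 k)).sup (integrable_const 0)
  have hi3 : ∀ n, Integrable (({p : ℝ × ℝ | HypS b (W a c p.2 p.1) n}ᶜ).indicator (1 : ℝ × ℝ → ℝ))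
      (volume.restrict sq) := fun n =>
    (integrable_const (1:ℝ)).indicator (closed26 a b c n).measurableSet.compl
  have hi12 : ∀ k, Integrable (fun p : ℝ × ℝ => Real.log (|phi a (Z a c p.2 p.1 (k+1))| + 1) +
      max (9 * Real.log b - Real.log (|phi a (Z a c p.2 p.1 (k+1))| + 1)) 0)
      (volume.restrict sq) := fun k => (hi1 k).add (hi2 k)
  have hi4 := integrable_logW26 ha1 c T
  have h1 : ∫ p in sq, 2 * Real.log b * ∑ n ∈ Finset.Icc 1 T,
      ({p : ℝ × ℝ | HypS b (W a c p.2 p.1) n}ᶜ).indicator (1 : ℝ × ℝ → ℝ) p ≤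
      ∫ p in sq, (∑ k ∈ Finset.range T, (Real.log (|phi a (Z a c p.2 p.1 (k+1))| + 1) +
        max (9 * Real.log b - Real.log (|phi a (Z a c p.2 p.1 (k+1))| + 1)) 0) -
      Real.log (W a c p.2 p.1 T)) := by
    apply integral_mono ((integrable_finsetSum _ fun n _ => hi3 n).const_mul _)
      ((integrable_finsetSum _ fun k _ => hi12 k).sub hi4)
    intro p
    exact point26 hb hab c T p
  rw [integral_const_mul, integral_finsetSum _ (fun n _ => hi3 n),
    integral_sub (integrable_finsetSum _ fun k _ => hi12 k) hi4,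
    integral_finsetSum _ (fun k _ => hi12 k)] at h1
  simp only [int_hyp26] at h1
  have h2 : ∀ k, ∫ p in sq, (Real.log (|phi a (Z a c p.2 p.1 (k+1))| + 1) +
        max (9 * Real.log b - Real.log (|phi a (Z a c p.2 p.1 (k+1))| + 1)) 0) =
      (∫ θ : UnitAddCircle, Real.log (|Phi a θ| + 1)) +
      ∫ θ : UnitAddCircle, max (9 * Real.log b - Real.log (|Phi a θ| + 1)) 0 := by
    intro k
    rw [integral_add (hi1 k) (hi2 k), int_phi26 c k hgm, int_phi26 c k hgm2]
  simp only [h2] at h1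
  rw [Finset.sum_const, Finset.card_range, nsmul_eq_mul] at h1
  have h3 := int_diff hb hab
  have h4 := int_pos hb hab
  have h5 := int_logW_ge hb hab c T
  have hT : (0:ℝ) ≤ T := Nat.cast_nonneg T
  have h6 : (T:ℝ) * ((∫ θ : UnitAddCircle, Real.log (|Phi a θ| + 1)) +
      ∫ θ : UnitAddCircle, max (9 * Real.log b - Real.log (|Phi a θ| + 1)) 0) ≤
      T * ((∫ θ : UnitAddCircle, gg (Phi a θ)) + 11 / 2 * (Real.log b / b)) :=
    mul_le_mul_of_nonneg_left (by linarith) hT
  have h7 : 2 * Real.log b * ∑ n ∈ Finset.Icc 1 T, pbad a b c n ≤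
      2 * Real.log b * (11 / 4 * (T / b) +
      11 * ((∑ k ∈ Finset.range T, vb a (rev c T) k) + T * vb a (rev c T) T)) := by
    have e : 2 * Real.log b * (11 / 4 * (T / b) +
      11 * ((∑ k ∈ Finset.range T, vb a (rev c T) k) + T * vb a (rev c T) T)) =
      T * (11 / 2 * (Real.log b / b)) + 22 * Real.log b *
      ((∑ k ∈ Finset.range T, vb a (rev c T) k) + T * vb a (rev c T) T) := by ring
    rw [e]
    linarith
  have h8 := le_of_mul_le_mul_left h7 (by linarith)
  have h9 : (0:ℝ) ≤ T / b := by positivity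
  have h10 : 3 * (T:ℝ) / b = 3 * (T / b) := by ring
  rw [h10]
  linarith

end Pool.Agent.Helper18.SD
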