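import Mathlib
import Pool.Agent.Helper18.SD.Vb

/-! Block SD-DRIVEN: the noise `c_k = ε sin (2 π K ^ k θ)` of the driven map and its bad events.

* `mp_pow`: `AddCircle.ergodic_nsmul` for `2 <= K ^ n`, the identity for `n = 0`.
* `choose_N'`: `N = ⌈log (1/ε) / (6 log b)⌉ + 12`, as `Helper78.SM.choose_N`: `b ^ (6 N) >= b ^ 72 / ε`.
* `driven_step`: apply `core_step` with `Ω` = circle, `c θ = rev (nz ε K θ) M`, `j + N <= M`,
  `ρ θ = θ + s / K ^ (M - j)`, `s = K / 2` (natural division), `r0 = ε / b`, `δ0 = 3 / 2 / b`.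
  `rev .. M i = ε sin (2 π K ^ (M-1-i) θ)` for `i < M`. For `i < j` the resampling changes
  `K ^ (M-1-i) θ` by the integer `s K ^ (j-1-i)`; at `i = j` by `s / K ∈ [1/3, 1/2]`, so (lift to reals,
  `u = K ^ (M-1-j) θ`) the difference of the noise terms is `2 ε sin (π s / K) cos (2 π u + π s / K)`,
  of absolute value at least `1.7 ε |cos (2 π u + π s / K)|` (`sin (π s / K) >= sin (π / 3) > 0.86`).
  `u` is uniform (`mp_pow`), the cosine is `csn` of a translate of `u`, `Helper78.SM.sublevel` with `c = 0`.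
  `hfut`: `2 ε <= b ^ 2 (ε / b)`; `hhalf`: `2 ε <= 1/2`.
* `driven_bad`: induction on `k` (strong): for `k <= N` use `SG.bad_early'` for every `θ`; for `k > N` use
  `driven_step` with `j = k - 1 - N`. With `x = N κ + 9 / b`: `x + 1/2 * 2 x = 2 x`. -/

set_option autoImplicit false
open Real Set MeasureTheory
open scoped ENNReal

namespace Pool.Agent.Helper18.SD

open Pool.Agent.Helper78.SM (psi phi dphi Typ sq csn snn)
open Pool.Agent.Helper18.SG (Z v W rev pbad HypS)

attribute [local instance] Pool.Agent.Helper53.SM.instProbU Pool.Agent.Helper53.SM.instProbT2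

/-- noise of the driven map -/
noncomputable def nz (ε : ℝ) (K : ℕ) (θ : UnitAddCircle) (k : ℕ) : ℝ := ε * snn ((K ^ k) • θ)

private lemma cont_snn68 : Continuous snn := by
  unfold snn
  have h : Continuous (fun z : Circle => (z : ℂ)) := by fun_prop
  exact Complex.continuous_im.comp (h.comp AddCircle.continuous_toCircle)

private lemma abs_snn68 (θ : UnitAddCircle) : |snn θ| ≤ 1 := by
  obtain ⟨x, rfl⟩ : ∃ x : ℝ, (x : UnitAddCircle) = θ := QuotientAddGroup.mk_surjective θ
  rw [Pool.Agent.Helper78.SM.snn_coe]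
  exact Real.abs_sin_le_one _

lemma measurable_nz (ε : ℝ) (K k : ℕ) : Measurable (fun θ => nz ε K θ k) := by
  unfold nz
  have h : Continuous (fun θ : UnitAddCircle => (K ^ k) • θ) := continuous_nsmul _
  exact ((cont_snn68.comp h).const_smul ε).measurable

lemma abs_nz_le {ε : ℝ} (hε : 0 ≤ ε) (K : ℕ) (θ : UnitAddCircle) (k : ℕ) : |nz ε K θ k| ≤ ε := by
  unfold nz
  rw [abs_mul, abs_of_nonneg hε]
  exact mul_le_of_le_one_right hε (abs_snn68 _)

lemma nz_smul (ε : ℝ) (K : ℕ) (θ : UnitAddCircle) (n k : ℕ) :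
    nz ε K ((K ^ n) • θ) k = nz ε K θ (n + k) := by
  unfold nz
  rw [smul_smul, ← pow_add, add_comm k n]

lemma mp_pow {K : ℕ} (hK : 2 ≤ K) (n : ℕ) :
    MeasurePreserving (fun θ : UnitAddCircle => (K ^ n) • θ) volume volume := by
  rcases Nat.eq_zero_or_pos n with rfl | hn
  · simp only [pow_zero, one_smul]
    exact MeasurePreserving.id _
  · have h : 1 < K ^ n := Nat.one_lt_pow hn.ne' (by omega)
    exact (AddCircle.ergodic_nsmul h).toMeasurePreserving

lemma choose_N' {b ε : ℝ} (hb : 1000 ≤ b) (hε : 0 < ε) (hε4 : ε ≤ 1 / 4) :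
    ∃ N : ℕ, 12 ≤ N ∧ b ^ 42 < ε / b * b ^ (6 * N) ∧
      (N:ℝ) ≤ Real.log (1 / ε) / (6 * Real.log b) + 13 := by
  have hb0 : 0 < b := by linarith
  have hb1 : 1 < b := by linarith
  have hlb : 0 < Real.log b := Real.log_pos hb1
  have hle : 0 ≤ Real.log (1 / ε) := by
    apply Real.log_nonneg
    rw [le_div_iff₀ hε]; linarith
  set x := Real.log (1 / ε) / (6 * Real.log b) with hx
  have hx0 : 0 ≤ x := by positivity
  refine ⟨⌈x⌉₊ + 12, by omega, ?_, ?_⟩
  · have h1 : 1 / ε ≤ b ^ (6 * ⌈x⌉₊) := by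
      rw [← Real.log_le_log_iff (by positivity) (by positivity), Real.log_pow]
      have h2 := Nat.le_ceil x
      have h3 : Real.log (1 / ε) = x * (6 * Real.log b) := by
        rw [hx]; field_simp
      rw [h3]
      push_cast
      nlinarith
    have h4 : 1 ≤ ε * b ^ (6 * ⌈x⌉₊) := by
      have := mul_le_mul_of_nonneg_left h1 hε.le
      rwa [mul_one_div_cancel hε.ne'] at this
    have h5 : ε / b * b ^ (6 * (⌈x⌉₊ + 12)) = (ε * b ^ (6 * ⌈x⌉₊)) * b ^ 71 := by
      have : 6 * (⌈x⌉₊ + 12) = 6 * ⌈x⌉₊ + 71 + 1 := by ring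
      rw [this, pow_succ, pow_add]
      field_simp
    rw [h5]
    calc b ^ 42 < b ^ 71 := pow_lt_pow_right₀ hb1 (by norm_num)
      _ = 1 * b ^ 71 := (one_mul _).symm
      _ ≤ (ε * b ^ (6 * ⌈x⌉₊)) * b ^ 71 := mul_le_mul_of_nonneg_right h4 (by positivity)
  · have := Nat.ceil_lt_add_one hx0
    push_cast
    linarith

private lemma nsmul_coe68 (n : ℕ) (x : ℝ) : n • (x : UnitAddCircle) = ((n * x : ℝ) : UnitAddCircle) := by
  rw [← AddCircle.coe_nsmul, nsmul_eq_mul]

private lemma int_coe68 (n : ℕ) : ((n : ℝ) : UnitAddCircle) = 0 := by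
  rw [AddCircle.coe_eq_zero_iff]
  exact ⟨n, by simp⟩

private lemma sin_low68 {σ : ℝ} (h1 : 1 / 3 ≤ σ) (h2 : σ ≤ 1 / 2) : (43 / 50 : ℝ) ≤ Real.sin (π * σ) := by
  have hpi := Real.pi_pos
  have h3 : Real.sin (π / 3) ≤ Real.sin (π * σ) := by
    apply Real.sin_le_sin_of_le_of_le_pi_div_two
    · linarith
    · nlinarith
    · nlinarith
  rw [Real.sin_pi_div_three] at h3
  have h4 : (1.72 : ℝ) ≤ √3 := by
    rw [Real.le_sqrt (by norm_num) (by norm_num)]
    norm_num
  norm_num at h4
  linarith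

private lemma diff68 (u : UnitAddCircle) {σ : ℝ} (h1 : 1 / 3 ≤ σ) (h2 : σ ≤ 1 / 2) :
    (43 / 25 : ℝ) * |csn (u + ((σ / 2 : ℝ) : UnitAddCircle))| ≤
      |snn (u + (σ : UnitAddCircle)) - snn u| := by
  obtain ⟨x, rfl⟩ : ∃ x : ℝ, (x : UnitAddCircle) = u := QuotientAddGroup.mk_surjective u
  rw [← AddCircle.coe_add, ← AddCircle.coe_add, Pool.Agent.Helper78.SM.snn_coe,
    Pool.Agent.Helper78.SM.snn_coe, Pool.Agent.Helper78.SM.csn_coe, Real.sin_sub_sin]
  have e1 : (2 * π * (x + σ) - 2 * π * x) / 2 = π * σ := by ring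
  have e2 : (2 * π * (x + σ) + 2 * π * x) / 2 = 2 * π * (x + σ / 2) := by ring
  rw [e1, e2, abs_mul, abs_mul, abs_two]
  have h3 := sin_low68 h1 h2
  have h4 : (43 / 50 : ℝ) ≤ |Real.sin (π * σ)| := h3.trans (le_abs_self _)
  have h5 := abs_nonneg (Real.cos (2 * π * (x + σ / 2)))
  nlinarith [mul_le_mul_of_nonneg_right h4 h5]

theorem driven_step {a b ε : ℝ} (hb : 1000 ≤ b) (hab : |a| = b ^ 10) (hε : 0 < ε) (hε4 : ε ≤ 1 / 4)
    {K : ℕ} (hK : 2 ≤ K) {N : ℕ} (hN : 12 ≤ N) (hN2 : b ^ 42 < ε / b * b ^ (6 * N)) {M j : ℕ}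
    (hj : j + N ≤ M) :
    ((volume : Measure UnitAddCircle).prod ((volume : Measure (ℝ × ℝ)).restrict sq))
      (Bad a (fun θ => rev (nz ε K θ) M) (j+1+N)) ≤
    ENNReal.ofReal (N * (4 * 4096 * Real.log |a| / |a| ^ 2) + 9 / b) + (1 / 2) *
      ((volume : Measure UnitAddCircle).prod ((volume : Measure (ℝ × ℝ)).restrict sq))
      (Bad a (fun θ => rev (nz ε K θ) M) (j+1)) := by
  have hb0 : 0 < b := by linarith
  have hK0 : (0:ℝ) < K := by exact_mod_cast (by omega : 0 < K)
  set s : ℕ := K / 2 with hs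
  set σ : ℝ := (s : ℝ) / K with hσ
  have hσ1 : 1 / 3 ≤ σ := by
    rw [hσ, le_div_iff₀ hK0]
    have : K ≤ 3 * s := by omega
    have : (K:ℝ) ≤ 3 * s := by exact_mod_cast this
    linarith
  have hσ2 : σ ≤ 1 / 2 := by
    rw [hσ, div_le_iff₀ hK0]
    have : 2 * s ≤ K := by omega
    have : 2 * (s:ℝ) ≤ K := by exact_mod_cast this
    linarith
  set t : UnitAddCircle := (((s : ℝ) / (K:ℝ) ^ (M - j) : ℝ) : UnitAddCircle) with ht
  have hc : ∀ k, Measurable (fun θ : UnitAddCircle => (fun θ => rev (nz ε K θ) M) θ k) := by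
    intro k
    unfold rev
    exact measurable_nz ε K _
  have habs : ∀ (θ θ' : UnitAddCircle) (i : ℕ),
      |rev (nz ε K θ) M i - rev (nz ε K θ') M i| ≤ 2 * ε := by
    intro θ θ' i
    unfold rev
    have h1 := abs_nz_le hε.le K θ (M - 1 - i)
    have h2 := abs_nz_le hε.le K θ' (M - 1 - i)
    have h3 := abs_sub (nz ε K θ (M - 1 - i)) (nz ε K θ' (M - 1 - i))
    linarith
  have hstep := core_step (volume : Measure UnitAddCircle) (a := a) (b := b) hb hab
    (c := fun θ => rev (nz ε K θ) M) hc hN (j := j) (ρ := fun θ => θ + t)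
    (measurePreserving_add_right volume t) ?_ ?_ (r0 := ε / b) (δ0 := 3 / 2 / b)
    (by positivity) hN2 ?_ ?_
  · refine hstep.trans (add_le_add ?_ le_rfl)
    apply ENNReal.ofReal_le_ofReal
    have : 8 / b + 3 / 2 / b / 2 ≤ 9 / b := by
      have e : 8 / b + 3 / 2 / b / 2 = (8 + 3 / 4) / b := by ring
      rw [e]
      gcongr
      norm_num
    linarith
  · intro ξ i hi
    show rev (nz ε K (ξ + t)) M i = rev (nz ε K ξ) M i
    unfold rev nz
    rw [smul_add, ht, nsmul_coe68]
    have e : ((K ^ (M - 1 - i) : ℕ) : ℝ) * ((s : ℝ) / (K:ℝ) ^ (M - j)) =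
        ((s * K ^ (j - 1 - i) : ℕ) : ℝ) := by
      have h1 : M - 1 - i = (M - j) + (j - 1 - i) := by omega
      rw [h1]
      push_cast
      rw [pow_add]
      field_simp
    rw [e, int_coe68, add_zero]
  · intro ξ
    exact (habs _ _ j).trans (by linarith)
  · -- the bad set of parameters
    have hcomp : ∀ ξ : UnitAddCircle, rev (nz ε K (ξ + t)) M j - rev (nz ε K ξ) M j =
        ε * (snn ((K ^ (M - 1 - j)) • ξ + (σ : UnitAddCircle)) - snn ((K ^ (M - 1 - j)) • ξ)) := by
      intro ξ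
      unfold rev nz
      rw [smul_add, ht, nsmul_coe68]
      have e : ((K ^ (M - 1 - j) : ℕ) : ℝ) * ((s : ℝ) / (K:ℝ) ^ (M - j)) = σ := by
        have h1 : M - j = (M - 1 - j) + 1 := by omega
        rw [h1, hσ]
        push_cast
        rw [pow_succ]
        field_simp
      rw [e]
      ring
    have hmp : MeasurePreserving
        (fun ξ : UnitAddCircle => (K ^ (M - 1 - j)) • ξ + ((σ / 2 : ℝ) : UnitAddCircle))
        volume volume :=
      (measurePreserving_add_right volume _).comp (mp_pow hK _)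
    have hms : MeasurableSet {θ : UnitAddCircle | |csn θ - 0| ≤ 3 / 5 / b} :=
      measurableSet_le (continuous_abs.measurable.comp
        (Pool.Agent.Helper78.SM.measurable_csn.sub_const 0)) measurable_const
    have hpre := hmp.measure_preimage hms.nullMeasurableSet
    have hsl := Pool.Agent.Helper78.SM.sublevel (c := 0) (t := 3 / 5 / b) (by norm_num)
      (by positivity)
    have hle : (volume : Measure UnitAddCircle)
        {ξ | |rev (nz ε K (ξ + t)) M j - rev (nz ε K ξ) M j| < ε / b} ≤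
        (volume : Measure UnitAddCircle)
        ((fun ξ : UnitAddCircle => (K ^ (M - 1 - j)) • ξ + ((σ / 2 : ℝ) : UnitAddCircle)) ⁻¹'
          {θ : UnitAddCircle | |csn θ - 0| ≤ 3 / 5 / b}) := by
      apply measure_mono
      intro ξ hξ
      rw [mem_ofPred_eq, hcomp, abs_mul, abs_of_pos hε] at hξ
      rw [mem_preimage, mem_ofPred_eq, sub_zero]
      have h1 := diff68 ((K ^ (M - 1 - j)) • ξ) hσ1 hσ2
      have h2 : |snn ((K ^ (M - 1 - j)) • ξ + (σ : UnitAddCircle)) -
          snn ((K ^ (M - 1 - j)) • ξ)| < 1 / b := by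
        have h3 : ε * |snn ((K ^ (M - 1 - j)) • ξ + (σ : UnitAddCircle)) -
          snn ((K ^ (M - 1 - j)) • ξ)| < ε * (1 / b) := by
          rw [mul_one_div]; exact hξ
        exact lt_of_mul_lt_mul_left h3 hε.le
      have h4 : (3 / 5 / b : ℝ) = 3 / 5 * (1 / b) := by ring
      have h5 : 0 < 1 / b := by positivity
      rw [h4]
      linarith
    refine hle.trans ?_
    rw [hpre]
    refine hsl.trans (ENNReal.ofReal_le_ofReal (le_of_eq ?_))
    ring
  · intro ξ i hi hr
    refine (habs _ _ _).trans ?_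
    have hr' : ε / b ≤ |rev (nz ε K (ξ + t)) M j - rev (nz ε K ξ) M j| := hr
    have h1 : 2 * ε ≤ b ^ 2 * (ε / b) := by
      have : b ^ 2 * (ε / b) = b * ε := by field_simp
      rw [this]
      nlinarith
    exact h1.trans (mul_le_mul_of_nonneg_left hr' (by positivity))

theorem driven_bad {a b ε : ℝ} (hb : 1000 ≤ b) (hab : |a| = b ^ 10) (hε : 0 < ε) (hε4 : ε ≤ 1 / 4)
    {K : ℕ} (hK : 2 ≤ K) {N : ℕ} (hN : 12 ≤ N) (hN2 : b ^ 42 < ε / b * b ^ (6 * N)) (M : ℕ)
    {k : ℕ} (hk : k ≤ M + 1) :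
    ∫ θ : UnitAddCircle, vb a (rev (nz ε K θ) M) k ≤
      2 * (N * (4 * 4096 * Real.log |a| / |a| ^ 2) + 9 / b) := by
  have hb0 : 0 < b := by linarith
  have hb1 : 1 ≤ b := by linarith
  have ha1 : 1 ≤ |a| := by rw [hab]; exact one_le_pow₀ hb1
  have hκ : 0 ≤ 4 * 4096 * Real.log |a| / |a| ^ 2 := by
    have := Real.log_nonneg ha1
    positivity
  set κ := 4 * 4096 * Real.log |a| / |a| ^ 2 with hκd
  have hc : ∀ k, Measurable (fun θ : UnitAddCircle => (fun θ => rev (nz ε K θ) M) θ k) := by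
    intro k
    unfold rev
    exact measurable_nz ε K _
  induction k using Nat.strong_induction_on with
  | _ k ih =>
    rcases Nat.lt_or_ge N k with hkN | hkN
    · obtain ⟨j, rfl⟩ : ∃ j, k = j + 1 + N := ⟨k - 1 - N, by omega⟩
      have h1 := driven_step hb hab hε hε4 hK hN hN2 (M := M) (j := j) (by omega)
      have h2 := ih (j + 1) (by omega) (by omega)
      have e1 := int_vb (volume : Measure UnitAddCircle) (a := a)
        (c := fun θ => rev (nz ε K θ) M) hc (j + 1)
      have e2 := int_vb (volume : Measure UnitAddCircle) (a := a)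
        (c := fun θ => rev (nz ε K θ) M) hc (j + 1 + N)
      rw [← hκd] at h1
      have hx : 0 ≤ (N:ℝ) * κ + 9 / b := by positivity
      set P := ((volume : Measure UnitAddCircle).prod ((volume : Measure (ℝ × ℝ)).restrict sq))
        with hP
      have hfin : P (Bad a (fun θ => rev (nz ε K θ) M) (j+1)) ≠ ⊤ := by
        have hs : IsFiniteMeasure ((volume : Measure (ℝ × ℝ)).restrict sq) := by
          constructor
          rw [Measure.restrict_apply MeasurableSet.univ, univ_inter]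
          have hbd : Bornology.IsBounded (sq : Set (ℝ × ℝ)) := by
            unfold Pool.Agent.Helper78.SM.sq
            exact (Metric.isBounded_Ioc _ _).prod (Metric.isBounded_Ioc _ _)
          exact hbd.measure_lt_top
        exact measure_ne_top _ _
      have h3 : P (Bad a (fun θ => rev (nz ε K θ) M) (j+1)) ≤
          ENNReal.ofReal (2 * (N * κ + 9 / b)) := by
        rw [← ENNReal.ofReal_toReal hfin]
        apply ENNReal.ofReal_le_ofReal
        rw [← e1]
        exact h2
      have h4 : P (Bad a (fun θ => rev (nz ε K θ) M) (j+1+N)) ≤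
          ENNReal.ofReal (2 * (N * κ + 9 / b)) := by
        refine h1.trans ?_
        calc ENNReal.ofReal (N * κ + 9 / b) + 1 / 2 * P (Bad a (fun θ => rev (nz ε K θ) M) (j+1))
            ≤ ENNReal.ofReal (N * κ + 9 / b) +
              1 / 2 * ENNReal.ofReal (2 * (N * κ + 9 / b)) := by gcongr
          _ = ENNReal.ofReal (2 * (N * κ + 9 / b)) := by
            have e3 : (1 / 2 : ℝ≥0∞) = ENNReal.ofReal (1 / 2) := by
              rw [ENNReal.ofReal_div_of_pos (by norm_num)]
              simp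
            rw [e3, ← ENNReal.ofReal_mul (by norm_num), ← ENNReal.ofReal_add hx (by positivity)]
            congr 1
            ring
      show ∫ θ : UnitAddCircle, vb a ((fun θ => rev (nz ε K θ) M) θ) (j + 1 + N) ≤ _
      rw [e2]
      exact ENNReal.toReal_le_of_le_ofReal (by positivity) h4
    · have hpt : ∀ θ : UnitAddCircle, vb a (rev (nz ε K θ) M) k ≤ 2 * (N * κ + 9 / b) := by
        intro θ
        unfold vb
        have h1 := Pool.Agent.Helper18.SG.bad_early' (a := a) (b := b) (by linarith) hab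
          (rev (nz ε K θ) M) k
        rw [← hκd] at h1
        have h2 : (k:ℝ) ≤ N := by exact_mod_cast hkN
        refine (ENNReal.toReal_le_of_le_ofReal (by positivity) h1).trans ?_
        have h3 : (k:ℝ) * κ ≤ N * κ := mul_le_mul_of_nonneg_right h2 hκ
        have h4 : 1 / b ≤ 9 / b := by gcongr; norm_num
        have h5 : 0 ≤ (N:ℝ) * κ + 9 / b := by positivity
        linarith
      calc ∫ θ : UnitAddCircle, vb a (rev (nz ε K θ) M) k
          ≤ ∫ _ : UnitAddCircle, 2 * (N * κ + 9 / b) := by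
            apply integral_mono_of_nonneg
            · exact Filter.Eventually.of_forall fun θ => vb_nonneg _ _ _
            · exact integrable_const _
            · exact Filter.Eventually.of_forall hpt
        _ = 2 * (N * κ + 9 / b) := by simp

end Pool.Agent.Helper18.SD
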