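import Mathlib
import Pool.Agent.Helper18.SD.Driven
import Pool.Agent.Helper18.SG.Mix

/-! Block SD-T3: the driven map on the torus `T3`, its iterates, invariance of the measure, Fubini.

* `dr_coe`: `nsmul` of a class is the class of the multiple (`AddCircle.coe_nsmul`), `snn_coe`.
* `dr_iter`: induction on `n` with `Function.iterate_succ_apply'`, `Z_rec` and `nz`.
* `mp_dr`: `MeasurePreserving.skew_product` over `mp_pow` (`n = 1`); the fibre map
  `(x, y) ↦ (x + x - y + (a snn x + s), x)` is `Helper78.SM.shift s ∘ Helper78.SM.std a`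
  (`mp_shift`, `(std_isStd a).measurePreserving`).
* `int_T3`: `integral_prod` needs integrability; here `h` is bounded. `mp_mk2` for the inner integral.
* `base_mix`: with `R = K ^ n`, translation of `θ` by `j / R` does not change `R • θ`, so
  `∫ u(θ) w(Rθ) = ∫ A(θ) w(Rθ)`, `A θ = (1/R) ∑_{j<R} u (θ + j/R)`; `|A θ - ∫ u| <= L / R`: the function `A`
  is `1/R`-periodic and `L`-Lipschitz, `∫ A = ∫ u`, every two points have representatives mod `1/R`
  at distance `<= 1 / R`. Then `∫ w (R θ) = ∫ w`.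
* `corr_lip`: `∫ p, f p g (dr^n p) = ∫ θ ∫_{sq} f (θ, mk2 p) g (K^(n+m) θ, mk2 (st ..))`; `SG.mix` for
  every `θ` and `base_mix` for `u θ = ∫_{sq} f (θ, mk2 p)`, `w θ = ∫_{sq} g (θ, mk2 p)`
  (both with values in `[-1, 1]`, `u` is `L`-Lipschitz). -/

set_option autoImplicit false
open Real Set MeasureTheory
open scoped ENNReal

namespace Pool.Agent.Helper18.SD

open Pool.Agent.Helper53.SM (T2)
open Pool.Agent.Helper78.SM (psi phi dphi Typ sq csn snn mk2)
open Pool.Agent.Helper18.SG (Z v W rev pbad HypS st)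

attribute [local instance] Pool.Agent.Helper53.SM.instProbU Pool.Agent.Helper53.SM.instProbT2

/-- the three dimensional torus -/
abbrev T3 := UnitAddCircle × T2

/-- the driven standard map -/
noncomputable def dr (a ε : ℝ) (K : ℕ) (q : T3) : T3 :=
  (K • q.1, (q.2.1 + q.2.1 - q.2.2 + ((a * snn q.2.1 + ε * snn q.1 : ℝ) : UnitAddCircle), q.2.1))

theorem dr_coe (a ε : ℝ) (K : ℕ) (θ x y : ℝ) :
    dr a ε K ((θ : UnitAddCircle), (x : UnitAddCircle), (y : UnitAddCircle)) =
      (((K * θ : ℝ) : UnitAddCircle), ((2 * x - y + a * Real.sin (2 * π * x) +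
        ε * Real.sin (2 * π * θ) : ℝ) : UnitAddCircle), (x : UnitAddCircle)) := by
  unfold dr
  simp only [Pool.Agent.Helper78.SM.snn_coe]
  rw [← AddCircle.coe_add, ← AddCircle.coe_sub, ← AddCircle.coe_add, ← AddCircle.coe_nsmul,
    nsmul_eq_mul]
  refine Prod.ext rfl (Prod.ext ?_ rfl)
  show ((_ : ℝ) : UnitAddCircle) = ((_ : ℝ) : UnitAddCircle)
  congr 1
  ring

private lemma cont_snn4 : Continuous snn := by
  unfold snn
  have h : Continuous (fun z : Circle => (z : ℂ)) := by fun_prop
  exact Complex.continuous_im.comp (h.comp AddCircle.continuous_toCircle)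

private lemma cont_coe4 : Continuous (fun x : ℝ => (x : UnitAddCircle)) :=
  AddCircle.continuous_mk' 1

theorem measurable_dr (a ε : ℝ) (K : ℕ) : Measurable (dr a ε K) := by
  have h : Continuous (dr a ε K) := by
    unfold dr
    have h1 : Continuous (fun q : T3 => snn q.2.1) :=
      cont_snn4.comp (continuous_fst.comp continuous_snd)
    have h2 : Continuous (fun q : T3 => snn q.1) := cont_snn4.comp continuous_fst
    have h3 : Continuous (fun q : T3 => ((a * snn q.2.1 + ε * snn q.1 : ℝ) : UnitAddCircle)) :=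
      cont_coe4.comp ((continuous_const.mul h1).add (continuous_const.mul h2))
    have h4 : Continuous (fun q : T3 => q.2.1) := continuous_fst.comp continuous_snd
    have h5 : Continuous (fun q : T3 => q.2.2) := continuous_snd.comp continuous_snd
    exact ((continuous_nsmul K).comp continuous_fst).prodMk
      ((((h4.add h4).sub h5).add h3).prodMk h4)
  exact h.measurable

theorem dr_iter (a ε : ℝ) (K : ℕ) (θ : UnitAddCircle) (p : ℝ × ℝ) (n : ℕ) :
    (dr a ε K)^[n] (θ, mk2 p) = ((K ^ n) • θ, mk2 (st a (nz ε K θ) n p)) := by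
  induction n with
  | zero =>
    simp only [Function.iterate_zero, id, pow_zero, one_smul]
    unfold st
    rw [Pool.Agent.Helper18.SG.Z_one, Pool.Agent.Helper18.SG.Z_zero]
  | succ n ih =>
    rw [Function.iterate_succ_apply', ih]
    unfold dr st mk2
    simp only [Pool.Agent.Helper78.SM.snn_coe]
    refine Prod.ext ?_ (Prod.ext ?_ rfl)
    · show K • ((K ^ n) • θ) = (K ^ (n + 1)) • θ
      rw [smul_smul, pow_succ']
    · show _ = ((Z a (nz ε K θ) p.2 p.1 (n + 2) : ℝ) : UnitAddCircle)
      rw [Pool.Agent.Helper18.SG.Z_rec, ← AddCircle.coe_add, ← AddCircle.coe_sub,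
        ← AddCircle.coe_add]
      unfold psi nz
      exact congrArg (fun r : ℝ => (r : UnitAddCircle)) (by ring)

theorem mp_dr (a ε : ℝ) {K : ℕ} (hK : 2 ≤ K) :
    MeasurePreserving (dr a ε K) (volume : Measure T3) volume := by
  have h1 : MeasurePreserving (fun θ : UnitAddCircle => K • θ) volume volume := by
    have := mp_pow hK 1
    simpa only [pow_one] using this
  have hg : Measurable (Function.uncurry fun (θ : UnitAddCircle) (q : T2) =>
      ((q.1 + q.1 - q.2 + ((a * snn q.1 + ε * snn θ : ℝ) : UnitAddCircle), q.1) : T2)) :=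
    (measurable_snd.comp (measurable_dr a ε K))
  have h2 := h1.skew_product (μc := (volume : Measure T2)) (μd := (volume : Measure T2)) hg
    (Filter.Eventually.of_forall fun θ => by
      have h3 : MeasurePreserving (Pool.Agent.Helper78.SM.shift (ε * snn θ) ∘
          Pool.Agent.Helper78.SM.std a) (volume : Measure T2) volume :=
        (Pool.Agent.Helper78.SM.mp_shift _).comp
          ((Pool.Agent.Helper78.SM.std_isStd a).measurePreserving)
      have h4 : (Pool.Agent.Helper78.SM.shift (ε * snn θ) ∘ Pool.Agent.Helper78.SM.std a) =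
          fun q : T2 => ((q.1 + q.1 - q.2 + ((a * snn q.1 + ε * snn θ : ℝ) : UnitAddCircle),
            q.1) : T2) := by
        funext q
        unfold Pool.Agent.Helper78.SM.shift Pool.Agent.Helper78.SM.std
        simp only [Function.comp]
        rw [AddCircle.coe_add, add_assoc]
      rw [h4] at h3
      exact h3.map_eq)
  exact h2

theorem int_T3 {h : T3 → ℝ} (hm : Measurable h) {C : ℝ} (hC : ∀ q, |h q| ≤ C) :
    ∫ q, h q = ∫ θ : UnitAddCircle, ∫ p in sq, h (θ, mk2 p) := by
  have hint : Integrable h ((volume : Measure UnitAddCircle).prod (volume : Measure T2)) := by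
    apply Integrable.of_bound (C := C)
    · exact hm.aestronglyMeasurable
    · exact Filter.Eventually.of_forall fun p => by rw [Real.norm_eq_abs]; exact hC p
  have h1 : ∫ q, h q = ∫ θ : UnitAddCircle, ∫ q : T2, h (θ, q) := integral_prod h hint
  rw [h1]
  congr 1
  funext θ
  have h2 := Pool.Agent.Helper78.SM.mp_mk2
  have h3 : Measurable (fun q : T2 => h (θ, q)) := hm.comp (measurable_const.prodMk measurable_id)
  rw [← h2.map_eq, integral_map h2.measurable.aemeasurable h3.aestronglyMeasurable]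
  rfl

private lemma avg_shift_nat {R : ℕ} (hR : 0 < R) (u : UnitAddCircle → ℝ) (θ : UnitAddCircle)
    (k : ℕ) :
    ∑ j ∈ Finset.range R, u (θ + ((k / R : ℝ) : UnitAddCircle) + ((j / R : ℝ) : UnitAddCircle)) =
      ∑ j ∈ Finset.range R, u (θ + ((j / R : ℝ) : UnitAddCircle)) := by
  have hR' : (R : ℝ) ≠ 0 := by exact_mod_cast hR.ne'
  induction k with
  | zero => simp
  | succ k ih =>
    rw [← ih]
    have e1 : ∀ j : ℕ, θ + (((k + 1 : ℕ) / R : ℝ) : UnitAddCircle) + ((j / R : ℝ) : UnitAddCircle) =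
        θ + ((k / R : ℝ) : UnitAddCircle) + (((j + 1 : ℕ) / R : ℝ) : UnitAddCircle) := by
      intro j
      rw [add_assoc, add_assoc, ← AddCircle.coe_add, ← AddCircle.coe_add]
      congr 2
      push_cast
      ring
    simp_rw [e1]
    have h1 := Finset.sum_range_succ' (fun j : ℕ => u (θ + ((k / R : ℝ) : UnitAddCircle) +
      ((j / R : ℝ) : UnitAddCircle))) R
    have h2 := Finset.sum_range_succ (fun j : ℕ => u (θ + ((k / R : ℝ) : UnitAddCircle) +
      ((j / R : ℝ) : UnitAddCircle))) R
    have h3 : ((((R : ℕ) : ℝ) / R : ℝ) : UnitAddCircle) = 0 := by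
      rw [div_self hR']
      exact AddCircle.coe_period 1
    have h4 : ((((0 : ℕ) : ℝ) / R : ℝ) : UnitAddCircle) = 0 := by simp
    rw [h3] at h2
    rw [h4] at h1
    rw [h2] at h1
    linarith

/-- the average of `u` over the translates by `j / R` -/
private noncomputable def avgA (R : ℕ) (u : UnitAddCircle → ℝ) (θ : UnitAddCircle) : ℝ :=
  (∑ j ∈ Finset.range R, u (θ + ((j / R : ℝ) : UnitAddCircle))) / R

private lemma avgA_osc {R : ℕ} (hR : 0 < R) {L : ℝ} (hL : 0 ≤ L) {u : UnitAddCircle → ℝ}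
    (huL : ∀ s t, |u s - u t| ≤ L * dist s t) (θ θ' : UnitAddCircle) :
    |avgA R u θ - avgA R u θ'| ≤ L / R := by
  have hR' : (0 : ℝ) < R := by exact_mod_cast hR
  obtain ⟨t, ht, htδ⟩ : ∃ t ∈ Set.Ico (0 : ℝ) (0 + 1), ((t : ℝ) : UnitAddCircle) = θ - θ' := by
    have := AddCircle.coe_image_Ico_eq (p := (1 : ℝ)) 0
    have h2 : θ - θ' ∈ (QuotientAddGroup.mk : ℝ → AddCircle (1 : ℝ)) '' Set.Ico 0 (0 + 1) := by
      rw [this]; trivial
    exact h2
  have ht0 : 0 ≤ t := ht.1
  set k : ℕ := ⌊t * R⌋₊ with hk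
  have hk1 : (k : ℝ) ≤ t * R := Nat.floor_le (by positivity)
  have hk2 : t * R < k + 1 := Nat.lt_floor_add_one _
  set s : ℝ := t - k / R with hs
  have hs0 : 0 ≤ s := by
    rw [hs, sub_nonneg, div_le_iff₀ hR']; exact hk1
  have hs1 : s ≤ 1 / R := by
    rw [hs, sub_le_iff_le_add, ← add_div, le_div_iff₀ hR']; linarith
  have hθ : θ = (θ' + ((s : ℝ) : UnitAddCircle)) + ((k / R : ℝ) : UnitAddCircle) := by
    rw [add_assoc, ← AddCircle.coe_add, hs, sub_add_cancel, htδ]
    abel
  have hA : avgA R u θ = avgA R u (θ' + ((s : ℝ) : UnitAddCircle)) := by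
    unfold avgA
    conv_lhs => rw [hθ]
    rw [avg_shift_nat hR]
  rw [hA]
  unfold avgA
  rw [← sub_div, ← Finset.sum_sub_distrib, abs_div, abs_of_pos hR']
  have hnorm : ‖((s : ℝ) : UnitAddCircle)‖ ≤ 1 / R := by
    refine le_trans ?_ hs1
    have h0 : ‖((s : ℝ) : UnitAddCircle)‖ ≤ ‖s‖ := QuotientAddGroup.norm_mk_le_norm
    rwa [Real.norm_eq_abs, abs_of_nonneg hs0] at h0
  have h1 : |∑ j ∈ Finset.range R, (u (θ' + ((s : ℝ) : UnitAddCircle) +
      ((j / R : ℝ) : UnitAddCircle)) - u (θ' + ((j / R : ℝ) : UnitAddCircle)))| ≤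
      R * (L * (1 / R)) := by
    refine (Finset.abs_sum_le_sum_abs _ _).trans ?_
    calc ∑ j ∈ Finset.range R, |u (θ' + ((s : ℝ) : UnitAddCircle) +
          ((j / R : ℝ) : UnitAddCircle)) - u (θ' + ((j / R : ℝ) : UnitAddCircle))|
        ≤ ∑ _j ∈ Finset.range R, L * (1 / R) := by
          apply Finset.sum_le_sum
          intro j _
          refine (huL _ _).trans ?_
          apply mul_le_mul_of_nonneg_left _ hL
          rw [dist_eq_norm]
          refine le_trans (le_of_eq ?_) hnorm
          congr 1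
          abel
      _ = R * (L * (1 / R)) := by
          rw [Finset.sum_const, Finset.card_range, nsmul_eq_mul]
  rw [div_le_div_iff_of_pos_right hR']
  refine h1.trans (le_of_eq ?_)
  field_simp

theorem base_mix {K : ℕ} (hK : 2 ≤ K) (n : ℕ) {L : ℝ} (hL : 0 ≤ L) {u w : UnitAddCircle → ℝ}
    (huL : ∀ s t, |u s - u t| ≤ L * dist s t) (hw : Measurable w) (hw1 : ∀ t, |w t| ≤ 1) :
    |(∫ θ, u θ * w ((K ^ n) • θ)) - (∫ θ, u θ) * (∫ θ, w θ)| ≤ L / K ^ n := by
  set R : ℕ := K ^ n with hRdef
  have hR : 0 < R := by positivity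
  have hR' : (0 : ℝ) < R := by exact_mod_cast hR
  have hcast : (L / (K : ℝ) ^ n) = L / R := by rw [hRdef]; push_cast; rfl
  rw [hcast]
  have hmp : MeasurePreserving (fun θ : UnitAddCircle => R • θ) volume volume := mp_pow hK n
  have hucont : Continuous u := by
    have : LipschitzWith (Real.toNNReal L) u := by
      apply LipschitzWith.of_dist_le_mul
      intro s t
      rw [Real.dist_eq, Real.coe_toNNReal _ hL]
      exact huL s t
    exact this.continuous
  have hui : Integrable u (volume : Measure UnitAddCircle) :=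
    hucont.integrable_of_hasCompactSupport (HasCompactSupport.of_compactSpace _)
  have hwR : Measurable fun θ : UnitAddCircle => w (R • θ) := hw.comp hmp.measurable
  have hwi : Integrable w (volume : Measure UnitAddCircle) :=
    Integrable.of_bound hw.aestronglyMeasurable 1 (Filter.Eventually.of_forall fun t => by
      rw [Real.norm_eq_abs]; exact hw1 t)
  have hwRi : Integrable (fun θ : UnitAddCircle => w (R • θ)) volume :=
    Integrable.of_bound hwR.aestronglyMeasurable 1 (Filter.Eventually.of_forall fun t => by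
      rw [Real.norm_eq_abs]; exact hw1 _)
  have hprod : ∀ v : UnitAddCircle → ℝ, Continuous v →
      Integrable (fun θ : UnitAddCircle => v θ * w (R • θ)) volume := by
    intro v hv
    have hvi : Integrable v (volume : Measure UnitAddCircle) :=
      hv.integrable_of_hasCompactSupport (HasCompactSupport.of_compactSpace _)
    exact hvi.mul_bdd (c := 1) hwR.aestronglyMeasurable (Filter.Eventually.of_forall fun t => by
      rw [Real.norm_eq_abs]; exact hw1 _)
  -- translates
  have htr : ∀ j : ℕ, ∫ θ : UnitAddCircle, u (θ + ((j / R : ℝ) : UnitAddCircle)) * w (R • θ) =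
      ∫ θ : UnitAddCircle, u θ * w (R • θ) := by
    intro j
    have h1 := integral_add_right_eq_self (μ := (volume : Measure UnitAddCircle))
      (fun θ : UnitAddCircle => u θ * w (R • θ)) ((j / R : ℝ) : UnitAddCircle)
    rw [← h1]
    congr 1
    funext θ
    have h2 : R • (θ + ((j / R : ℝ) : UnitAddCircle)) = R • θ := by
      rw [smul_add, ← AddCircle.coe_nsmul]
      have h3 : (R • (j / R : ℝ)) = ((j : ℤ) : ℝ) := by
        rw [nsmul_eq_mul]; push_cast; field_simp
      rw [h3]
      have h4 : ((((j : ℤ) : ℝ) : UnitAddCircle)) = 0 := by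
        rw [show (((j : ℤ) : ℝ)) = (j : ℤ) • (1 : ℝ) by simp, AddCircle.coe_zsmul]
        rw [AddCircle.coe_period, smul_zero]
      rw [h4, add_zero]
    rw [h2]
  have htr0 : ∀ j : ℕ, ∫ θ : UnitAddCircle, u (θ + ((j / R : ℝ) : UnitAddCircle)) =
      ∫ θ : UnitAddCircle, u θ := by
    intro j
    exact integral_add_right_eq_self (μ := (volume : Measure UnitAddCircle)) u
      ((j / R : ℝ) : UnitAddCircle)
  have hcj : ∀ j : ℕ, Continuous fun θ : UnitAddCircle => u (θ + ((j / R : ℝ) : UnitAddCircle)) :=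
    fun j => hucont.comp (continuous_id.add continuous_const)
  have hAc : Continuous (avgA R u) := by
    unfold avgA
    exact (continuous_finsetSum _ fun j _ => hcj j).div_const _
  have hA1 : ∫ θ : UnitAddCircle, avgA R u θ * w (R • θ) = ∫ θ : UnitAddCircle, u θ * w (R • θ) := by
    have e1 : ∀ θ : UnitAddCircle, avgA R u θ * w (R • θ) =
        (∑ j ∈ Finset.range R, u (θ + ((j / R : ℝ) : UnitAddCircle)) * w (R • θ)) / R := by
      intro θ
      unfold avgA
      rw [Finset.sum_div, Finset.sum_div, Finset.sum_mul]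
      apply Finset.sum_congr rfl
      intro j _
      ring
    simp_rw [e1]
    rw [integral_div, integral_finsetSum _ fun j _ => hprod _ (hcj j)]
    simp_rw [htr]
    rw [Finset.sum_const, Finset.card_range, nsmul_eq_mul, mul_div_cancel_left₀ _ hR'.ne']
  have hAi : Integrable (avgA R u) (volume : Measure UnitAddCircle) :=
    hAc.integrable_of_hasCompactSupport (HasCompactSupport.of_compactSpace _)
  have hA0 : ∫ θ : UnitAddCircle, avgA R u θ = ∫ θ : UnitAddCircle, u θ := by
    unfold avgA
    rw [integral_div, integral_finsetSum _ fun j _ =>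
      ((hcj j).integrable_of_hasCompactSupport (HasCompactSupport.of_compactSpace _))]
    simp_rw [htr0]
    rw [Finset.sum_const, Finset.card_range, nsmul_eq_mul, mul_div_cancel_left₀ _ hR'.ne']
  have hosc : ∀ θ : UnitAddCircle, |avgA R u θ - ∫ θ' : UnitAddCircle, u θ'| ≤ L / R := by
    intro θ
    have e1 : avgA R u θ - ∫ θ' : UnitAddCircle, u θ' =
        ∫ θ' : UnitAddCircle, (avgA R u θ - avgA R u θ') := by
      rw [integral_sub (integrable_const _) hAi, hA0, integral_const]
      simp
    rw [e1, ← Real.norm_eq_abs]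
    have h1 := norm_integral_le_of_norm_le_const (μ := (volume : Measure UnitAddCircle))
      (f := fun θ' => avgA R u θ - avgA R u θ') (C := L / R)
      (Filter.Eventually.of_forall fun θ' => by
        rw [Real.norm_eq_abs]; exact avgA_osc hR hL huL θ θ')
    simpa using h1
  have hwint : ∫ θ : UnitAddCircle, w (R • θ) = ∫ θ : UnitAddCircle, w θ := by
    have h1 := hmp.map_eq
    have h2 := integral_map (μ := (volume : Measure UnitAddCircle)) hmp.measurable.aemeasurable
      (f := w) (by rw [h1]; exact hw.aestronglyMeasurable)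
    rw [h1] at h2
    exact h2.symm
  have hfin : (∫ θ : UnitAddCircle, u θ * w (R • θ)) -
      (∫ θ : UnitAddCircle, u θ) * (∫ θ : UnitAddCircle, w θ) =
      ∫ θ : UnitAddCircle, (avgA R u θ - ∫ θ' : UnitAddCircle, u θ') * w (R • θ) := by
    have e1 : ∀ θ : UnitAddCircle, (avgA R u θ - ∫ θ' : UnitAddCircle, u θ') * w (R • θ) =
        avgA R u θ * w (R • θ) - (∫ θ' : UnitAddCircle, u θ') * w (R • θ) := fun θ => by ring
    simp_rw [e1]
    rw [integral_sub (hprod _ hAc) (hwRi.const_mul _), hA1, integral_const_mul, hwint]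
  rw [hfin, ← Real.norm_eq_abs]
  have h1 := norm_integral_le_of_norm_le_const (μ := (volume : Measure UnitAddCircle))
    (f := fun θ => (avgA R u θ - ∫ θ' : UnitAddCircle, u θ') * w (R • θ)) (C := L / R)
    (Filter.Eventually.of_forall fun θ => by
      rw [Real.norm_eq_abs, abs_mul]
      calc _ ≤ L / R * 1 := mul_le_mul (hosc θ) (hw1 _) (abs_nonneg _) (by positivity)
        _ = L / R := mul_one _)
  simpa using h1

private lemma dist_mk2 (p q : ℝ × ℝ) : dist (mk2 p) (mk2 q) ≤ dist p q := by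
  have h : ∀ x y : ℝ, dist (x : UnitAddCircle) (y : UnitAddCircle) ≤ dist x y := by
    intro x y
    rw [dist_eq_norm, dist_eq_norm, ← AddCircle.coe_sub]
    exact QuotientAddGroup.norm_mk_le_norm
  unfold mk2
  rw [Prod.dist_eq, Prod.dist_eq]
  exact max_le_max (h _ _) (h _ _)

private lemma mk2_shift (p : ℝ × ℝ) (i j : ℤ) : mk2 (p.1 + i, p.2 + j) = mk2 p := by
  have h : ∀ (x : ℝ) (k : ℤ), ((x + k : ℝ) : UnitAddCircle) = (x : UnitAddCircle) := by
    intro x k
    rw [AddCircle.coe_add]
    have : ((k : ℝ) : UnitAddCircle) = 0 := by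
      rw [AddCircle.coe_eq_zero_iff]
      exact ⟨k, by simp⟩
    rw [this, add_zero]
  unfold mk2
  simp only [h]

private lemma sq_abs_int_le {h : ℝ × ℝ → ℝ} {C : ℝ} (hh : ∀ p, |h p| ≤ C) :
    |∫ p in sq, h p| ≤ C := by
  have hv : (volume : Measure (ℝ × ℝ)) sq < ⊤ := by
    rw [Pool.Agent.Helper78.SM.volume_sq]; exact ENNReal.one_lt_top
  have := norm_setIntegral_le_of_norm_le_const (μ := (volume : Measure (ℝ × ℝ))) (s := sq) (f := h)
    (C := C) hv (fun x _ => by rw [Real.norm_eq_abs]; exact hh x)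
  rw [Measure.real, Pool.Agent.Helper78.SM.volume_sq, Real.norm_eq_abs] at this
  simpa using this

private lemma int_bdd {α : Type*} [MeasurableSpace α] {μ : Measure α} [IsFiniteMeasure μ] {h : α → ℝ}
    (hm : Measurable h) {C : ℝ} (hC : ∀ x, |h x| ≤ C) : Integrable h μ := by
  apply Integrable.of_bound (C := C)
  · exact hm.aestronglyMeasurable
  · exact Filter.Eventually.of_forall fun p => by rw [Real.norm_eq_abs]; exact hC p

private lemma cont_lip {α : Type*} [PseudoMetricSpace α] {f : α → ℝ} {L : ℝ} (hL : 0 ≤ L)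
    (hf : ∀ p p', |f p - f p'| ≤ L * dist p p') : Continuous f := by
  have : LipschitzWith L.toNNReal f := by
    apply LipschitzWith.of_dist_le_mul
    intro x y
    rw [Real.coe_toNNReal L hL, Real.dist_eq]
    exact hf x y
  exact this.continuous

private lemma meas_mk2 : Measurable mk2 := Pool.Agent.Helper78.SM.mp_mk2.measurable

private lemma meas_slice {h : T3 → ℝ} (hm : Measurable h) :
    Measurable (fun θ : UnitAddCircle => ∫ p in sq, h (θ, mk2 p)) := by
  have : SFinite ((volume : Measure (ℝ × ℝ)).restrict sq) := inferInstance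
  have h1 : Measurable (fun q : UnitAddCircle × (ℝ × ℝ) => h (q.1, mk2 q.2)) :=
    hm.comp (measurable_fst.prodMk (meas_mk2.comp measurable_snd))
  exact (h1.stronglyMeasurable.integral_prod_right' (ν := (volume : Measure (ℝ × ℝ)).restrict sq)).measurable

private lemma int_four {A B : UnitAddCircle → ℝ} (hA : Integrable A volume)
    (hB : Integrable B volume) (c R : ℝ) :
    ∫ θ : UnitAddCircle, (c + A θ + B θ + R) =
      c + (∫ θ : UnitAddCircle, A θ) + (∫ θ : UnitAddCircle, B θ) + R := by
  have i1 : Integrable (fun θ : UnitAddCircle => c + A θ) volume := (integrable_const c).add hA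
  have i2 : Integrable (fun θ : UnitAddCircle => c + A θ + B θ) volume := i1.add hB
  have h1 : ∫ θ : UnitAddCircle, (c + A θ + B θ + R) =
      (∫ θ : UnitAddCircle, (c + A θ + B θ)) + ∫ θ : UnitAddCircle, R :=
    integral_add i2 (integrable_const R)
  have h2 : ∫ θ : UnitAddCircle, (c + A θ + B θ) =
      (∫ θ : UnitAddCircle, (c + A θ)) + ∫ θ : UnitAddCircle, B θ := integral_add i1 hB
  have h3 : ∫ θ : UnitAddCircle, (c + A θ) =
      (∫ θ : UnitAddCircle, c) + ∫ θ : UnitAddCircle, A θ := integral_add (integrable_const c) hA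
  rw [h1, h2, h3, integral_const, integral_const]
  simp

theorem corr_lip {a b ε : ℝ} (hb : 10000 ≤ b) (hab : |a| = b ^ 10) {K : ℕ} (hK : 2 ≤ K) {n m : ℕ}
    (hn : 1 ≤ n) (hm : 1 ≤ m) {L : ℝ} (hL : 0 ≤ L) {f g : T3 → ℝ} (hf : ∀ q, |f q| ≤ 1)
    (hg : ∀ q, |g q| ≤ 1) (hfL : ∀ p q, |f p - f q| ≤ L * dist p q)
    (hgL : ∀ p q, |g p - g q| ≤ L * dist p q) :
    |(∫ q, f q * g ((dr a ε K)^[n+m] q)) - (∫ q, f q) * (∫ q, g q)| ≤
      4 * (1 / b + (∫ θ : UnitAddCircle, pbad a b (nz ε K θ) n) +
        (∫ θ : UnitAddCircle, pbad a b (rev (nz ε K θ) (n+m)) m) +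
        L * (b ^ 2 / b ^ (7 * n) + b ^ 2 / b ^ (7 * m))) + L / K ^ (n+m) := by
  have mf : Measurable f := (cont_lip hL hfL).measurable
  have mg : Measurable g := (cont_lip hL hgL).measurable
  have md : Measurable ((dr a ε K)^[n+m]) := (measurable_dr a ε K).iterate _
  -- the three functions on the circle
  set u : UnitAddCircle → ℝ := fun θ => ∫ p in sq, f (θ, mk2 p) with hu
  set w : UnitAddCircle → ℝ := fun θ => ∫ p in sq, g (θ, mk2 p) with hw
  set F : UnitAddCircle → ℝ := fun θ => ∫ p in sq,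
    (fun q => f q * g ((dr a ε K)^[n+m] q)) (θ, mk2 p) with hF
  have mh : Measurable (fun q => f q * g ((dr a ε K)^[n+m] q)) := mf.mul (mg.comp md)
  have bh : ∀ q, |f q * g ((dr a ε K)^[n+m] q)| ≤ 1 := by
    intro q
    rw [abs_mul]
    exact mul_le_one₀ (hf q) (abs_nonneg _) (hg _)
  have mu : Measurable u := meas_slice mf
  have mw : Measurable w := meas_slice mg
  have mF : Measurable F := meas_slice mh
  have bu : ∀ θ, |u θ| ≤ 1 := fun θ => sq_abs_int_le fun p => hf _
  have bw : ∀ θ, |w θ| ≤ 1 := fun θ => sq_abs_int_le fun p => hg _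
  have bF : ∀ θ, |F θ| ≤ 1 := fun θ => sq_abs_int_le fun p => bh _
  have mK : Measurable (fun θ : UnitAddCircle => (K ^ (n+m)) • θ) := (mp_pow hK (n+m)).measurable
  have e1 : (∫ q, f q * g ((dr a ε K)^[n+m] q)) = ∫ θ, F θ := int_T3 mh bh
  have e2 : (∫ q, f q) = ∫ θ, u θ := int_T3 mf hf
  have e3 : (∫ q, g q) = ∫ θ, w θ := int_T3 mg hg
  rw [e1, e2, e3]
  have huL : ∀ s t, |u s - u t| ≤ L * dist s t := by
    intro s t
    have i1 : Integrable (fun p => f (s, mk2 p)) ((volume : Measure (ℝ × ℝ)).restrict sq) := by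
      have := Pool.Agent.Helper78.SM.prob_sq
      exact int_bdd (mf.comp (measurable_const.prodMk meas_mk2)) (fun p => hf _)
    have i2 : Integrable (fun p => f (t, mk2 p)) ((volume : Measure (ℝ × ℝ)).restrict sq) := by
      have := Pool.Agent.Helper78.SM.prob_sq
      exact int_bdd (mf.comp (measurable_const.prodMk meas_mk2)) (fun p => hf _)
    have e : u s - u t = ∫ p in sq, (f (s, mk2 p) - f (t, mk2 p)) := (integral_sub i1 i2).symm
    rw [e]
    apply sq_abs_int_le
    intro p
    refine (hfL _ _).trans ?_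
    rw [Prod.dist_eq]
    simp only [dist_self]
    rw [max_eq_left dist_nonneg]
  have hbase := base_mix hK (n+m) hL huL mw bw
  -- the bound for every θ
  have mp1 : Measurable (fun θ : UnitAddCircle => pbad a b (nz ε K θ) n) :=
    measurable_pbad (fun k => measurable_nz ε K k) n
  have mp2 : Measurable (fun θ : UnitAddCircle => pbad a b (rev (nz ε K θ) (n+m)) m) :=
    measurable_pbad (c := fun θ => rev (nz ε K θ) (n+m))
      (fun k => by simpa only [rev] using measurable_nz ε K (n + m - 1 - k)) m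
  have ip1 : Integrable (fun θ : UnitAddCircle => pbad a b (nz ε K θ) n) volume :=
    int_bdd mp1 (C := 1) (fun θ => by
      rw [abs_of_nonneg (pbad_nonneg _ _ _ _)]; exact pbad_le_one _ _ _ _)
  have ip2 : Integrable (fun θ : UnitAddCircle => pbad a b (rev (nz ε K θ) (n+m)) m) volume :=
    int_bdd mp2 (C := 1) (fun θ => by
      rw [abs_of_nonneg (pbad_nonneg _ _ _ _)]; exact pbad_le_one _ _ _ _)
  set R : ℝ := L * (b ^ 2 / b ^ (7 * n) + b ^ 2 / b ^ (7 * m)) with hR
  have hpt : ∀ θ, |F θ - u θ * w ((K ^ (n+m)) • θ)| ≤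
      4 * (1 / b + pbad a b (nz ε K θ) n + pbad a b (rev (nz ε K θ) (n+m)) m + R) := by
    intro θ
    have h := Pool.Agent.Helper18.SG.mix hb hab (nz ε K θ) hn hm hL
      (f := fun p => f (θ, mk2 p)) (g := fun p => g ((K ^ (n+m)) • θ, mk2 p))
      (fun p => hf _) (fun p => hg _)
      (by
        intro p p'
        refine (hfL _ _).trans (mul_le_mul_of_nonneg_left ?_ hL)
        rw [Prod.dist_eq]
        simp only [dist_self]
        rw [max_eq_right dist_nonneg]
        exact dist_mk2 p p')
      (by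
        intro p p'
        refine (hgL _ _).trans (mul_le_mul_of_nonneg_left ?_ hL)
        rw [Prod.dist_eq]
        simp only [dist_self]
        rw [max_eq_right dist_nonneg]
        exact dist_mk2 p p')
      (by
        intro p i j
        simp only [mk2_shift])
    have eF : F θ = ∫ p in sq, f (θ, mk2 p) * g ((K ^ (n+m)) • θ, mk2 (st a (nz ε K θ) (n+m) p)) := by
      rw [hF]
      simp only [dr_iter]
    rw [eF]
    exact h
  have iF : Integrable F volume := int_bdd mF bF
  have iuw : Integrable (fun θ => u θ * w ((K ^ (n+m)) • θ)) volume := by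
    have muw : Measurable (fun θ => u θ * w ((K ^ (n+m)) • θ)) := mu.mul (mw.comp mK)
    refine int_bdd muw (C := 1) ?_
    intro θ
    rw [abs_mul]
    exact mul_le_one₀ (bu θ) (abs_nonneg _) (bw _)
  have hstep : |(∫ θ, F θ) - ∫ θ, u θ * w ((K ^ (n+m)) • θ)| ≤
      4 * (1 / b + (∫ θ : UnitAddCircle, pbad a b (nz ε K θ) n) +
        (∫ θ : UnitAddCircle, pbad a b (rev (nz ε K θ) (n+m)) m) + R) := by
    rw [← integral_sub iF iuw]
    refine (abs_integral_le_integral_abs).trans ?_
    have ibd : Integrable (fun θ : UnitAddCircle =>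
        4 * (1 / b + pbad a b (nz ε K θ) n + pbad a b (rev (nz ε K θ) (n+m)) m + R)) volume :=
      ((((integrable_const (1 / b)).add ip1).add ip2).add (integrable_const R)).const_mul 4
    refine (integral_mono (iF.sub iuw).abs ibd hpt).trans (le_of_eq ?_)
    rw [integral_const_mul, int_four ip1 ip2]
  calc |(∫ θ, F θ) - (∫ θ, u θ) * (∫ θ, w θ)| =
      |((∫ θ, F θ) - ∫ θ, u θ * w ((K ^ (n+m)) • θ)) +
        ((∫ θ, u θ * w ((K ^ (n+m)) • θ)) - (∫ θ, u θ) * (∫ θ, w θ))| := by ring_nf
    _ ≤ |(∫ θ, F θ) - ∫ θ, u θ * w ((K ^ (n+m)) • θ)| +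
        |(∫ θ, u θ * w ((K ^ (n+m)) • θ)) - (∫ θ, u θ) * (∫ θ, w θ)| := abs_add_le _ _
    _ ≤ _ := add_le_add hstep hbase

end Pool.Agent.Helper18.SD
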