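import Mathlib
import Pool.Agent.Helper18.SD.T3
import Pool.Agent.Helper18.SD.Fwd
import Pool.Agent.Helper78.SM.Expect

/-! Block SD-COC: the derivative cocycle of the driven map in the fibre direction.

* `DT_mk`: by induction, `dr_iter`, `Phi_coe`; `Helper78.SM.DX` is the product of `L (phi a (zc ..))`, and
  `zc a (om c) k p = Z a c p.2 p.1 (k+1)` (`SG.zc_eq`).
* `DT_add`: induction on `m`. `log_DT_sub`: `‖A B‖ <= ‖A‖ ‖B‖`, norms are positive (`DT_mk`,
  `Helper78.SM.DX_norm_pos`; every point of `T3` is `(θ, mk2 p)`).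
* `log_DT_le`: `Helper78.SM.norm_DX_le`. `abs_log_DT_le`: the upper bound from `log_DT_le` and
  `|Phi| + 1 <= 10 |a|`, the lower bound from `VV_le_norm`, `logW_crude`.
* `measurable_log_DT`: `dr a ε K` is continuous (measurable is enough), `Phi a` measurable,
  `Helper78.SM.cont_L`; the composition of continuous linear maps is continuous.
* `int_log_DT_ge`: `int_T3`, `DT_mk`, `VV_le_norm`, then `int_logW_ge` for every `θ` and `driven_bad` with
  `M = n` (`k <= n`): `22 log b * 2 n * 2 (N κ + 9 / b)`.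
* `gp_iter`, `fderiv_gp`: the plane version; `st a c n = X a (om c) n + const`, so
  `Helper78.SM.hasFDerivAt_X`. -/

set_option autoImplicit false
open Real Set MeasureTheory
open scoped ENNReal

namespace Pool.Agent.Helper18.SD

open Pool.Agent.Helper53.SM (T2)
open Pool.Agent.Helper78.SM (psi phi dphi sq csn snn mk2 Phi gg L DX)
open Pool.Agent.Helper18.SG (Z v W rev pbad HypS st om)

attribute [local instance] Pool.Agent.Helper53.SM.instProbU Pool.Agent.Helper53.SM.instProbT2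

/-- fibre derivative of the iterates of the driven map -/
noncomputable def DT (a ε : ℝ) (K : ℕ) : ℕ → T3 → (ℝ × ℝ →L[ℝ] ℝ × ℝ)
  | 0, _ => ContinuousLinearMap.id ℝ (ℝ × ℝ)
  | k + 1, q => (L (Phi a ((dr a ε K)^[k] q).2.1)).comp (DT a ε K k q)

theorem DT_mk (a ε : ℝ) (K : ℕ) (n : ℕ) (θ : UnitAddCircle) (p : ℝ × ℝ) :
    DT a ε K n (θ, mk2 p) = DX a (om (nz ε K θ)) n p := by
  induction n with
  | zero => rfl
  | succ k ih =>
    show (L (Phi a ((dr a ε K)^[k] (θ, mk2 p)).2.1)).comp (DT a ε K k (θ, mk2 p)) =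
      (L (Pool.Agent.Helper78.SM.phi a (Pool.Agent.Helper78.SM.zc a (om (nz ε K θ)) k p))).comp
        (DX a (om (nz ε K θ)) k p)
    rw [ih, dr_iter, Pool.Agent.Helper18.SG.zc_eq]
    have e : Phi a (((K ^ k) • θ, mk2 (st a (nz ε K θ) k p)) : T3).2.1 =
        Pool.Agent.Helper78.SM.phi a (Z a (nz ε K θ) p.2 p.1 (k+1)) := by
      show Phi a ((Z a (nz ε K θ) p.2 p.1 (k+1) : ℝ) : UnitAddCircle) = _
      rw [Pool.Agent.Helper78.SM.Phi_coe]
    rw [e]

theorem DT_add (a ε : ℝ) (K : ℕ) (n m : ℕ) (q : T3) :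
    DT a ε K (n+m) q = (DT a ε K m ((dr a ε K)^[n] q)).comp (DT a ε K n q) := by
  induction m with
  | zero =>
    show DT a ε K n q = (ContinuousLinearMap.id ℝ (ℝ × ℝ)).comp (DT a ε K n q)
    rw [ContinuousLinearMap.id_comp]
  | succ m ih =>
    show (L (Phi a ((dr a ε K)^[n+m] q).2.1)).comp (DT a ε K (n+m) q) =
      ((L (Phi a ((dr a ε K)^[m] ((dr a ε K)^[n] q)).2.1)).comp
        (DT a ε K m ((dr a ε K)^[n] q))).comp (DT a ε K n q)
    rw [ih, ← Function.iterate_add_apply, Nat.add_comm m n, ContinuousLinearMap.comp_assoc]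

private lemma surj54 (q : T3) : ∃ p : ℝ × ℝ, q = (q.1, mk2 p) := by
  obtain ⟨x, hx⟩ := QuotientAddGroup.mk_surjective q.2.1
  obtain ⟨y, hy⟩ := QuotientAddGroup.mk_surjective q.2.2
  refine ⟨(x, y), ?_⟩
  unfold mk2
  refine Prod.ext rfl (Prod.ext hx.symm hy.symm)

private lemma DT_pos54 (a ε : ℝ) (K : ℕ) (n : ℕ) (q : T3) : 0 < ‖DT a ε K n q‖ := by
  obtain ⟨p, hp⟩ := surj54 q
  rw [hp, DT_mk]
  exact Pool.Agent.Helper78.SM.DX_norm_pos _ _ _ _

theorem log_DT_sub (a ε : ℝ) (K : ℕ) (n m : ℕ) (q : T3) :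
    Real.log ‖DT a ε K (n+m) q‖ ≤
      Real.log ‖DT a ε K n q‖ + Real.log ‖DT a ε K m ((dr a ε K)^[n] q)‖ := by
  rw [DT_add, ← Real.log_mul (DT_pos54 a ε K n q).ne'
    (DT_pos54 a ε K m ((dr a ε K)^[n] q)).ne', mul_comm ‖DT a ε K n q‖]
  apply Real.log_le_log
  · rw [← DT_add]
    exact DT_pos54 a ε K (n+m) q
  · exact ContinuousLinearMap.opNorm_comp_le _ _

theorem log_DT_le (a ε : ℝ) (K : ℕ) (n : ℕ) (q : T3) :
    Real.log ‖DT a ε K n q‖ ≤
      ∑ k ∈ Finset.range n, Real.log (|Phi a ((dr a ε K)^[k] q).2.1| + 1) := by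
  have h : ‖DT a ε K n q‖ ≤ ∏ k ∈ Finset.range n, (|Phi a ((dr a ε K)^[k] q).2.1| + 1) := by
    induction n with
    | zero => simpa [DT] using ContinuousLinearMap.norm_id_le (𝕜 := ℝ) (E := ℝ × ℝ)
    | succ n ih =>
      rw [Finset.prod_range_succ, mul_comm]
      calc ‖DT a ε K (n+1) q‖ ≤ ‖L (Phi a ((dr a ε K)^[n] q).2.1)‖ * ‖DT a ε K n q‖ :=
            ContinuousLinearMap.opNorm_comp_le _ _
        _ ≤ _ := by
            gcongr
            exact Pool.Agent.Helper78.SM.norm_L_le _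
  have h2 := Real.log_le_log (DT_pos54 a ε K n q) h
  rw [Real.log_prod (fun k _ => by positivity)] at h2
  exact h2

private lemma VV_W26 (a : ℝ) (c : ℕ → ℝ) (p : ℝ × ℝ) (n : ℕ) :
    Pool.Agent.Helper78.SM.VV a (om c) p n = W a c p.2 p.1 n := by
  unfold Pool.Agent.Helper78.SM.VV W Pool.Agent.Helper18.SG.mx
  rw [Pool.Agent.Helper18.SG.vv_eq, Pool.Agent.Helper18.SG.vv_eq]

private lemma surj26 (q : T3) : ∃ p : ℝ × ℝ, q = (q.1, mk2 p) := by
  obtain ⟨x, hx⟩ := QuotientAddGroup.mk_surjective q.2.1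
  obtain ⟨y, hy⟩ := QuotientAddGroup.mk_surjective q.2.2
  refine ⟨(x, y), ?_⟩
  unfold mk2
  refine Prod.ext rfl (Prod.ext hx.symm hy.symm)

private lemma log_W_le26 (a ε : ℝ) (K : ℕ) (n : ℕ) (θ : UnitAddCircle) (p : ℝ × ℝ) :
    Real.log (W a (nz ε K θ) p.2 p.1 n) ≤ Real.log ‖DT a ε K n (θ, mk2 p)‖ := by
  rw [DT_mk, ← VV_W26]
  exact Real.log_le_log (Pool.Agent.Helper78.SM.VV_pos _ _ _ _)
    (Pool.Agent.Helper78.SM.VV_le_norm _ _ _ _)

theorem abs_log_DT_le {a : ℝ} (ha : 1 ≤ |a|) (ε : ℝ) (K : ℕ) (n : ℕ) (q : T3) :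
    |Real.log ‖DT a ε K n q‖| ≤ Real.log (10 * |a|) * n := by
  rw [abs_le]
  constructor
  · obtain ⟨p, hp⟩ := surj26 q
    have h1 := log_W_le26 a ε K n q.1 p
    rw [← hp] at h1
    have h2 := (abs_le.1 (logW_crude ha (nz ε K q.1) p.2 p.1 n)).1
    linarith
  · refine (log_DT_le a ε K n q).trans ?_
    have h1 : ∑ k ∈ Finset.range n, Real.log (|Phi a ((dr a ε K)^[k] q).2.1| + 1) ≤
        ∑ _k ∈ Finset.range n, Real.log (10 * |a|) :=
      Finset.sum_le_sum fun k _ => (le_abs_self _).trans (Pool.Agent.Helper78.SM.abs_log_le ha _)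
    rw [Finset.sum_const, Finset.card_range, nsmul_eq_mul] at h1
    linarith

private lemma measurable_DT26 (a ε : ℝ) (K : ℕ) (n : ℕ) :
    Measurable (fun q => DT a ε K n q) := by
  induction n with
  | zero => exact measurable_const
  | succ k ih =>
    have h1 : Measurable (fun q => L (Phi a ((dr a ε K)^[k] q).2.1)) :=
      Pool.Agent.Helper78.SM.cont_L.measurable.comp ((Pool.Agent.Helper78.SM.measurable_Phi a).comp
        (measurable_fst.comp (measurable_snd.comp ((measurable_dr a ε K).iterate k))))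
    have h2 : Continuous (fun P : (ℝ × ℝ →L[ℝ] ℝ × ℝ) × (ℝ × ℝ →L[ℝ] ℝ × ℝ) => P.1.comp P.2) :=
      continuous_fst.clm_comp continuous_snd
    exact h2.measurable.comp (h1.prodMk ih)

theorem measurable_log_DT (a ε : ℝ) (K : ℕ) (n : ℕ) :
    Measurable (fun q => Real.log ‖DT a ε K n q‖) :=
  Real.measurable_log.comp (measurable_DT26 a ε K n).norm

private lemma int_bdd26 {α : Type*} [MeasurableSpace α] {μ : Measure α} [IsFiniteMeasure μ]
    {h : α → ℝ} (hm : Measurable h) {C : ℝ} (hC : ∀ x, |h x| ≤ C) : Integrable h μ := by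
  apply Integrable.of_bound (C := C)
  · exact hm.aestronglyMeasurable
  · exact Filter.Eventually.of_forall fun p => by rw [Real.norm_eq_abs]; exact hC p

private lemma meas_slice26 {h : T3 → ℝ} (hm : Measurable h) :
    Measurable (fun θ : UnitAddCircle => ∫ p in sq, h (θ, mk2 p)) := by
  have : SFinite ((volume : Measure (ℝ × ℝ)).restrict sq) := inferInstance
  have h1 : Measurable (fun q : UnitAddCircle × (ℝ × ℝ) => h (q.1, mk2 q.2)) :=
    hm.comp (measurable_fst.prodMk (Pool.Agent.Helper78.SM.mp_mk2.measurable.comp measurable_snd))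
  exact (h1.stronglyMeasurable.integral_prod_right' (ν := (volume : Measure (ℝ × ℝ)).restrict sq)).measurable

private lemma sq_abs26 {h : ℝ × ℝ → ℝ} {C : ℝ} (hh : ∀ p, |h p| ≤ C) :
    |∫ p in sq, h p| ≤ C := by
  have hv : (volume : Measure (ℝ × ℝ)) sq < ⊤ := by
    rw [Pool.Agent.Helper78.SM.volume_sq]; exact ENNReal.one_lt_top
  have := norm_setIntegral_le_of_norm_le_const (μ := (volume : Measure (ℝ × ℝ))) (s := sq) (f := h)
    (C := C) hv (fun x _ => by rw [Real.norm_eq_abs]; exact hh x)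
  rw [Measure.real, Pool.Agent.Helper78.SM.volume_sq, Real.norm_eq_abs] at this
  simpa using this

private lemma measW26 (a : ℝ) (c : ℕ → ℝ) (k : ℕ) :
    Measurable (fun p : ℝ × ℝ => W a c p.2 p.1 k) := by
  have h : ∀ k, Continuous (fun p : ℝ × ℝ => v a c p.2 p.1 k) := fun k =>
    (Pool.Agent.Helper18.SG.continuous_v a c k).comp continuous_swap
  unfold W Pool.Agent.Helper18.SG.mx
  exact ((h (k+1)).abs.max (h k).abs).measurable

theorem int_log_DT_ge {a b ε : ℝ} (hb : 1000 ≤ b) (hab : |a| = b ^ 10) (hε : 0 < ε)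
    (hε4 : ε ≤ 1 / 4) {K : ℕ} (hK : 2 ≤ K) {N : ℕ} (hN : 12 ≤ N)
    (hN2 : b ^ 42 < ε / b * b ^ (6 * N)) (n : ℕ) :
    n * ((∫ θ : UnitAddCircle, gg (Phi a θ)) - 88 * Real.log b *
      (N * (4 * 4096 * Real.log |a| / |a| ^ 2) + 9 / b)) ≤
      ∫ q, Real.log ‖DT a ε K n q‖ := by
  have hb1 : 1 < b := by linarith
  have ha1 : 1 ≤ |a| := by rw [hab]; exact one_le_pow₀ hb1.le
  have hlog : 0 ≤ Real.log b := Real.log_nonneg hb1.le
  have hm := measurable_log_DT a ε K n
  have hC := abs_log_DT_le ha1 ε K n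
  have hsqp := Pool.Agent.Helper78.SM.prob_sq
  rw [int_T3 hm hC]
  set X : ℝ := N * (4 * 4096 * Real.log |a| / |a| ^ 2) + 9 / b with hX
  have mvb : ∀ k, Measurable (fun θ : UnitAddCircle => vb a (rev (nz ε K θ) n) k) := fun k =>
    measurable_vb (c := fun θ => rev (nz ε K θ) n)
      (fun k => by simpa only [rev] using measurable_nz ε K (n - 1 - k)) k
  have ivb : ∀ k, Integrable (fun θ : UnitAddCircle => vb a (rev (nz ε K θ) n) k) := fun k =>
    int_bdd26 (mvb k) (C := 1) (fun θ => by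
      rw [abs_of_nonneg (vb_nonneg _ _ _)]; exact vb_le_one _ _ _)
  have iS : Integrable (fun θ : UnitAddCircle => ∑ k ∈ Finset.range n, vb a (rev (nz ε K θ) n) k) :=
    integrable_finsetSum _ fun k _ => ivb k
  have iB : Integrable (fun θ : UnitAddCircle => (∑ k ∈ Finset.range n, vb a (rev (nz ε K θ) n) k) +
      n * vb a (rev (nz ε K θ) n) n) := iS.add ((ivb n).const_mul _)
  have hpt : ∀ θ : UnitAddCircle, n * (∫ θ : UnitAddCircle, gg (Phi a θ)) - 22 * Real.log b *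
      ((∑ k ∈ Finset.range n, vb a (rev (nz ε K θ) n) k) + n * vb a (rev (nz ε K θ) n) n) ≤
      ∫ p in sq, Real.log ‖DT a ε K n (θ, mk2 p)‖ := by
    intro θ
    refine (int_logW_ge hb hab (nz ε K θ) n).trans ?_
    apply integral_mono
    · exact int_bdd26 (Real.measurable_log.comp (measW26 a (nz ε K θ) n))
        (fun p => logW_crude ha1 (nz ε K θ) p.2 p.1 n)
    · exact int_bdd26 (hm.comp (measurable_const.prodMk Pool.Agent.Helper78.SM.mp_mk2.measurable))
        (fun p => hC _)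
    · intro p
      exact log_W_le26 a ε K n θ p
  have h1 : ∫ θ : UnitAddCircle, (n * (∫ θ : UnitAddCircle, gg (Phi a θ)) - 22 * Real.log b *
      ((∑ k ∈ Finset.range n, vb a (rev (nz ε K θ) n) k) + n * vb a (rev (nz ε K θ) n) n)) ≤
      ∫ θ : UnitAddCircle, ∫ p in sq, Real.log ‖DT a ε K n (θ, mk2 p)‖ := by
    apply integral_mono ((integrable_const _).sub (iB.const_mul _)) _ hpt
    exact int_bdd26 (meas_slice26 hm) (fun θ => sq_abs26 fun p => hC _)
  refine le_trans ?_ h1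
  have hR : ∫ θ : UnitAddCircle, 22 * Real.log b *
      ((∑ k ∈ Finset.range n, vb a (rev (nz ε K θ) n) k) + n * vb a (rev (nz ε K θ) n) n) =
      22 * Real.log b * ((∑ k ∈ Finset.range n, ∫ θ : UnitAddCircle, vb a (rev (nz ε K θ) n) k) +
      n * ∫ θ : UnitAddCircle, vb a (rev (nz ε K θ) n) n) := by
    rw [integral_const_mul, integral_add iS ((ivb n).const_mul _), integral_const_mul,
      integral_finsetSum _ (fun k _ => ivb k)]
  rw [integral_sub (integrable_const _) (iB.const_mul _), hR]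
  have h2 : ∫ _θ : UnitAddCircle, (n * (∫ θ : UnitAddCircle, gg (Phi a θ)) : ℝ) =
      n * (∫ θ : UnitAddCircle, gg (Phi a θ)) := by simp
  rw [h2]
  have hd : ∀ k, k ≤ n → ∫ θ : UnitAddCircle, vb a (rev (nz ε K θ) n) k ≤ 2 * X := fun k hk =>
    driven_bad hb hab hε hε4 hK hN hN2 n (by omega)
  have h3 : ∑ k ∈ Finset.range n, ∫ θ : UnitAddCircle, vb a (rev (nz ε K θ) n) k ≤ n * (2 * X) := by
    have := Finset.sum_le_sum (fun k (hk : k ∈ Finset.range n) => hd k (Finset.mem_range.1 hk).le)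
    rw [Finset.sum_const, Finset.card_range, nsmul_eq_mul] at this
    exact this
  have h4 : (n:ℝ) * ∫ θ : UnitAddCircle, vb a (rev (nz ε K θ) n) n ≤ n * (2 * X) :=
    mul_le_mul_of_nonneg_left (hd n le_rfl) (Nat.cast_nonneg _)
  have h5 : 22 * Real.log b * ((∑ k ∈ Finset.range n, ∫ θ : UnitAddCircle, vb a (rev (nz ε K θ) n) k) +
      n * ∫ θ : UnitAddCircle, vb a (rev (nz ε K θ) n) n) ≤ 22 * Real.log b * (n * (2 * X) + n * (2 * X)) :=
    mul_le_mul_of_nonneg_left (add_le_add h3 h4) (by positivity)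
  have h6 : 22 * Real.log b * (n * (2 * X) + n * (2 * X)) = n * (88 * Real.log b * X) := by ring
  rw [h6] at h5
  linarith

/-- the driven map of the space -/
noncomputable def gp (a ε : ℝ) (K : ℕ) (q : ℝ × (ℝ × ℝ)) : ℝ × (ℝ × ℝ) :=
  (K * q.1, (2 * q.2.1 - q.2.2 + a * Real.sin (2 * π * q.2.1) + ε * Real.sin (2 * π * q.1), q.2.1))

theorem gp_iter (a ε : ℝ) (K : ℕ) (n : ℕ) (θ : ℝ) (p : ℝ × ℝ) :
    (gp a ε K)^[n] (θ, p) = (K ^ n * θ, st a (nz ε K (θ : UnitAddCircle)) n p) := by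
  induction n with
  | zero =>
    simp only [Function.iterate_zero, id, pow_zero, one_mul]
    unfold st
    rw [Pool.Agent.Helper18.SG.Z_one, Pool.Agent.Helper18.SG.Z_zero]
  | succ n ih =>
    rw [Function.iterate_succ_apply', ih]
    unfold gp st
    refine Prod.ext ?_ (Prod.ext ?_ rfl)
    · show (K:ℝ) * (K ^ n * θ) = K ^ (n + 1) * θ
      rw [pow_succ]; ring
    · show _ = Z a (nz ε K (θ : UnitAddCircle)) p.2 p.1 (n + 2)
      rw [Pool.Agent.Helper18.SG.Z_rec]
      have e : nz ε K (θ : UnitAddCircle) n = ε * Real.sin (2 * π * (K ^ n * θ)) := by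
        unfold nz
        rw [← AddCircle.coe_nsmul, Pool.Agent.Helper78.SM.snn_coe, nsmul_eq_mul]
        push_cast
        rfl
      rw [e]
      unfold psi
      ring

theorem fderiv_gp (a ε : ℝ) (K : ℕ) (n : ℕ) (θ : ℝ) (p : ℝ × ℝ) :
    fderiv ℝ (fun p : ℝ × ℝ => ((gp a ε K)^[n] (θ, p)).2) p =
      DT a ε K n ((θ : UnitAddCircle), mk2 p) := by
  set c := nz ε K (θ : UnitAddCircle) with hc
  have e0 : ∀ p : ℝ × ℝ, (Pool.Agent.Helper78.SM.X a (om c) n p).2 = Z a c p.2 p.1 n := by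
    intro p
    cases n with
    | zero => rw [Pool.Agent.Helper18.SG.Z_zero]; rfl
    | succ k => rw [Pool.Agent.Helper78.SM.X_succ_snd, Pool.Agent.Helper18.SG.zc_eq]
  have e : (fun p : ℝ × ℝ => ((gp a ε K)^[n] (θ, p)).2) =
      fun p => Pool.Agent.Helper78.SM.X a (om c) n p + (om c n, 0) := by
    funext p
    rw [gp_iter]
    show (Z a c p.2 p.1 (n+1), Z a c p.2 p.1 n) = _
    rw [← e0 p, ← Pool.Agent.Helper18.SG.zc_eq]
    refine Prod.ext rfl ?_
    show _ = _ + (0:ℝ)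
    rw [add_zero]
  rw [e, DT_mk]
  exact ((Pool.Agent.Helper78.SM.hasFDerivAt_X a (om c) n p).add_const _).fderiv

end Pool.Agent.Helper18.SD
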