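import Mathlib
import Pool.Agent.Helper18.SD.King

/-! Block SD-ERG: abstract ergodic theory.

* `exists_component`: an invariant set `A` has `μ A <= 2 B` or `μ A >= 1 - 2 B` (as
  `1 - 4 B <= sqrt (1 - 4 B)`; or directly: if `2 B < x < 1 - 2 B` then `x (1 - x) > 2 B (1 - 2 B) >= B`).
  Big sets (`>= 1 - 2 B`) are closed under intersection: `μ (A ∩ A') >= 1 - 4 B > 2 B`. Let `E` be the
  intersection of a sequence of big sets with measures tending to the infimum `m0 >= 1 - 2 B` of the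
  measures of big sets (replace it by finite intersections, decreasing); `μ E = m0`. For invariant `A`,
  `A ∩ E` is either big, so `μ (A ∩ E) = m0` and `μ (E \ A) = 0`, or `μ (A ∩ E) <= 2 B`, then `E \ A` is
  big and `μ (A ∩ E) = 0`.
* `const_on_component`: for every `r`, `{Λ <= r}` is a.e. equal to a strictly invariant measurable set
  (`MeasureTheory.QuasiMeasurePreserving.exists_preimage_eq_of_preimage_ae`), so `Λ <= r` a.e. on `E` or
  `Λ > r` a.e. on `E`; take rational `r`, `λ = inf`.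
* `avg_close`: `∫ G V = lim (1/n) ∑_{k<n} ∫ V (V ∘ T^k)` (dominated convergence) `<= (∫ V)^2 + M^2 B`;
  `∫ G V = ∫ (G ∘ T^k) (V ∘ T^k) = ∫ G (V ∘ T^k)`, averaging: `∫ G V = ∫ G^2`; `∫ G = ∫ V`; so
  `∫ (G - ∫ V)^2 = ∫ G^2 - (∫ V)^2 <= M^2 B` and Cauchy-Schwarz.
* `avg_contract`: `|G1 - G2|` is the limit of `|averages of h1 - h2| <= averages of |h1 - h2|`
  (dominated convergence / Fatou). -/

set_option autoImplicit false
open MeasureTheory Filter Topology

namespace Pool.Agent.Helper18.SD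

private theorem h24_dich {x B : ℝ} (hB0 : 0 ≤ B) (hB : B < 1 / 8) (h : x * (1 - x) ≤ B) :
    x ≤ 2 * B ∨ 1 - 2 * B ≤ x := by
  by_contra hcon
  push Not at hcon
  nlinarith [mul_pos (sub_pos.2 hcon.1) (sub_pos.2 hcon.2)]

theorem exists_component {X : Type*} [MeasurableSpace X] {μ : Measure X} [IsProbabilityMeasure μ]
    {T : X → X} (hT : MeasurePreserving T μ μ) {B : ℝ} (hB : B < 1 / 8)
    (h : ∀ A, MeasurableSet A → T ⁻¹' A = A → μ.real A * (1 - μ.real A) ≤ B) :
    ∃ E, MeasurableSet E ∧ T ⁻¹' E = E ∧ 1 - 2 * B ≤ μ.real E ∧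
      ∀ A, MeasurableSet A → T ⁻¹' A = A → μ (A ∩ E) = 0 ∨ μ (E \ A) = 0 := by
  have hB0 : 0 ≤ B := by
    have := h ∅ MeasurableSet.empty rfl
    simpa using this
  have hd : ∀ A, MeasurableSet A → T ⁻¹' A = A → μ.real A ≤ 2 * B ∨ 1 - 2 * B ≤ μ.real A :=
    fun A hA hA2 => h24_dich hB0 hB (h A hA hA2)
  have hbig : ∀ A A', MeasurableSet A → T ⁻¹' A = A → MeasurableSet A' → T ⁻¹' A' = A' →
      1 - 2 * B ≤ μ.real A → 1 - 2 * B ≤ μ.real A' → 1 - 2 * B ≤ μ.real (A ∩ A') := by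
    intro A A' hA hA2 hA' hA2' h1 h2
    rcases hd (A ∩ A') (hA.inter hA') (by rw [Set.preimage_inter, hA2, hA2']) with h3 | h3
    · exfalso
      have h4 : μ.real (A ∪ A') + μ.real (A ∩ A') = μ.real A + μ.real A' :=
        measureReal_union_add_inter hA'
      have h5 : μ.real (A ∪ A') ≤ 1 := measureReal_le_one
      linarith
    · exact h3
  obtain ⟨S, hS⟩ : ∃ S : Set ℝ, S = {x | ∃ A, MeasurableSet A ∧ T ⁻¹' A = A ∧
    1 - 2 * B ≤ μ.real A ∧ μ.real A = x} := ⟨_, rfl⟩
  have hSn : S.Nonempty := by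
    rw [hS]
    refine ⟨μ.real Set.univ, Set.univ, MeasurableSet.univ, rfl, ?_, rfl⟩
    rw [probReal_univ]
    linarith
  have hSb : BddBelow S := by
    refine ⟨0, ?_⟩
    rw [hS]
    rintro x ⟨A, -, -, -, rfl⟩
    exact measureReal_nonneg
  obtain ⟨u, -, hu, huS⟩ := exists_seq_tendsto_sInf hSn hSb
  rw [hS] at huS
  choose A hA1 hA2 hA3 hA4 using huS
  have hF : ∀ N, MeasurableSet (⋂ j ≤ N, A j) ∧ T ⁻¹' (⋂ j ≤ N, A j) = (⋂ j ≤ N, A j) ∧
      1 - 2 * B ≤ μ.real (⋂ j ≤ N, A j) := by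
    intro N
    induction N with
    | zero =>
      have e : (⋂ j ≤ 0, A j) = A 0 := by
        ext x
        simp
      rw [e]
      exact ⟨hA1 0, hA2 0, hA3 0⟩
    | succ N ih =>
      have e : (⋂ j ≤ N + 1, A j) = (⋂ j ≤ N, A j) ∩ A (N + 1) := by
        ext x
        simp only [Set.mem_iInter, Set.mem_inter_iff]
        constructor
        · intro hx
          exact ⟨fun j hj => hx j (by omega), hx (N + 1) le_rfl⟩
        · rintro ⟨hx1, hx2⟩ j hj
          rcases Nat.le_or_eq_of_le_succ hj with hj | hj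
          · exact hx1 j hj
          · rw [hj]
            exact hx2
      rw [e]
      exact ⟨ih.1.inter (hA1 _), by rw [Set.preimage_inter, ih.2.1, hA2],
        hbig _ _ ih.1 ih.2.1 (hA1 _) (hA2 _) ih.2.2 (hA3 _)⟩
  have hEm : MeasurableSet (⋂ j, A j) := MeasurableSet.iInter hA1
  have hEi : T ⁻¹' (⋂ j, A j) = ⋂ j, A j := by
    rw [Set.preimage_iInter]
    exact Set.iInter_congr hA2
  have hEb : 1 - 2 * B ≤ μ.real (⋂ j, A j) := by
    have h1 := tendsto_measure_iInter_le (μ := μ) (f := A) (fun i => (hA1 i).nullMeasurableSet)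
      ⟨0, measure_ne_top _ _⟩
    have h2 := (ENNReal.tendsto_toReal (measure_ne_top μ (⋂ j, A j))).comp h1
    exact ge_of_tendsto' h2 fun N => (hF N).2.2
  have hEs : μ.real (⋂ j, A j) ≤ sInf S := by
    refine ge_of_tendsto' hu fun n => ?_
    rw [← hA4 n]
    exact measureReal_mono (Set.iInter_subset _ _)
  have hmin : ∀ A', MeasurableSet A' → T ⁻¹' A' = A' → 1 - 2 * B ≤ μ.real A' →
      μ.real (⋂ j, A j) ≤ μ.real A' := by
    intro A' h1 h2 h3
    refine hEs.trans (csInf_le hSb ?_)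
    rw [hS]
    exact ⟨A', h1, h2, h3, rfl⟩
  refine ⟨⋂ j, A j, hEm, hEi, hEb, fun A' hm hi => ?_⟩
  have h1 : μ.real (A' ∩ ⋂ j, A j) + μ.real ((⋂ j, A j) \ A') = μ.real (⋂ j, A j) := by
    rw [Set.inter_comm]
    exact measureReal_inter_add_diff hm
  have hi1 : T ⁻¹' (A' ∩ ⋂ j, A j) = A' ∩ ⋂ j, A j := by rw [Set.preimage_inter, hi, hEi]
  have hi2 : T ⁻¹' ((⋂ j, A j) \ A') = (⋂ j, A j) \ A' := by rw [Set.preimage_diff, hi, hEi]
  have z : ∀ s : Set X, μ.real s ≤ 0 → μ s = 0 := by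
    intro s hs
    exact (measureReal_eq_zero_iff).mp (le_antisymm hs measureReal_nonneg)
  rcases hd _ (hm.inter hEm) hi1 with h2 | h2
  · rcases hd _ (hEm.diff hm) hi2 with h3 | h3
    · exfalso
      linarith
    · left
      apply z
      have := hmin _ (hEm.diff hm) hi2 h3
      linarith
  · right
    apply z
    have := hmin _ (hm.inter hEm) hi1 h2
    linarith

theorem const_on_component {X : Type*} [MeasurableSpace X] {μ : Measure X} [IsProbabilityMeasure μ]
    {T : X → X} (hT : MeasurePreserving T μ μ) {E : Set X} (hE : MeasurableSet E)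
    (hpos : μ E ≠ 0)
    (h : ∀ A, MeasurableSet A → T ⁻¹' A = A → μ (A ∩ E) = 0 ∨ μ (E \ A) = 0)
    {Λ : X → ℝ} (hΛ : Measurable Λ) (hinv : ∀ᵐ x ∂μ, Λ (T x) = Λ x) :
    ∃ c : ℝ, ∀ᵐ x ∂μ, x ∈ E → Λ x = c := by
  obtain ⟨c, hc⟩ : ∃ c, Λ =ᶠ[ae (μ.restrict E)] Function.const X c := by
    refine exists_eventuallyEq_const_of_forall_separating (MeasurableSet : Set ℝ → Prop) ?_
    intro U hU
    have h1 : T ⁻¹' (Λ ⁻¹' U) =ᵐ[μ] Λ ⁻¹' U := by
      filter_upwards [hinv] with x hx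
      have : (Λ (T x) ∈ U) = (Λ x ∈ U) := by rw [hx]
      exact this
    obtain ⟨t, ht1, ht2, ht3⟩ := hT.quasiMeasurePreserving.exists_preimage_eq_of_preimage_ae
      (hΛ hU).nullMeasurableSet h1
    have ht4 : ∀ᵐ x ∂μ, (x ∈ t ↔ Λ x ∈ U) := by
      filter_upwards [ht2] with x hx
      exact iff_of_eq hx
    rcases h t ht1 ht3 with h2 | h2
    · right
      rw [ae_restrict_iff' hE]
      have h3 : ∀ᵐ x ∂μ, x ∉ t ∩ E := measure_eq_zero_iff_ae_notMem.mp h2
      filter_upwards [h3, ht4] with x hx hx2 hxE hxU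
      exact hx ⟨hx2.mpr hxU, hxE⟩
    · left
      rw [ae_restrict_iff' hE]
      have h3 : ∀ᵐ x ∂μ, x ∉ E \ t := measure_eq_zero_iff_ae_notMem.mp h2
      filter_upwards [h3, ht4] with x hx hx2 hxE
      by_contra hxU
      exact hx ⟨hxE, fun hxt => hxU (hx2.mp hxt)⟩
  refine ⟨c, ?_⟩
  exact (ae_restrict_iff' hE).mp hc

private lemma integ50 {X : Type*} [MeasurableSpace X] {μ : Measure X} [IsProbabilityMeasure μ]
    {f : X → ℝ} (hf : Measurable f) {C : ℝ} (hC : ∀ x, |f x| ≤ C) : Integrable f μ :=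
  Integrable.of_bound hf.aestronglyMeasurable C
    (Eventually.of_forall fun x => by simpa [Real.norm_eq_abs] using hC x)

private lemma intcomp50 {X : Type*} [MeasurableSpace X] {μ : Measure X}
    {T : X → X} (hT : MeasurePreserving T μ μ) {f : X → ℝ} (hf : Measurable f) (k : ℕ) :
    ∫ x, f (T^[k] x) ∂μ = ∫ x, f x ∂μ := by
  have h := hT.iterate k
  calc ∫ x, f (T^[k] x) ∂μ = ∫ y, f y ∂(μ.map (T^[k])) :=
        (integral_map h.measurable.aemeasurable hf.aestronglyMeasurable).symm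
    _ = _ := by rw [h.map_eq]

private lemma avgmeas50 {X : Type*} [MeasurableSpace X] {μ : Measure X}
    {T : X → X} (hT : MeasurePreserving T μ μ) {f : X → ℝ} (hf : Measurable f) (n : ℕ) :
    Measurable fun x => (∑ k ∈ Finset.range n, f (T^[k] x)) / n := by
  refine Measurable.div_const ?_ _
  exact Finset.measurable_fun_sum _ fun k _ => hf.comp (hT.measurable.iterate k)

private lemma avgbd50 {X : Type*} {T : X → X} {f : X → ℝ} {C : ℝ} (hC : ∀ x, |f x| ≤ C) (n : ℕ)
    (x : X) : |(∑ k ∈ Finset.range n, f (T^[k] x)) / n| ≤ C := by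
  have hC0 : 0 ≤ C := (abs_nonneg _).trans (hC x)
  rw [abs_div, abs_of_nonneg (Nat.cast_nonneg n : (0:ℝ) ≤ n)]
  refine div_le_of_le_mul₀ (Nat.cast_nonneg n) hC0 ?_
  calc |∑ k ∈ Finset.range n, f (T^[k] x)| ≤ ∑ k ∈ Finset.range n, |f (T^[k] x)| :=
        Finset.abs_sum_le_sum_abs _ _
    _ ≤ ∑ _k ∈ Finset.range n, C := Finset.sum_le_sum fun k _ => hC _
    _ = C * n := by rw [Finset.sum_const, Finset.card_range, nsmul_eq_mul]; ring

private lemma intavg50 {X : Type*} [MeasurableSpace X] {μ : Measure X} [IsProbabilityMeasure μ]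
    {F : ℕ → X → ℝ} (hF : ∀ k, Measurable (F k)) {C : ℝ} (hC : ∀ k x, |F k x| ≤ C) (n : ℕ) :
    ∫ x, (∑ k ∈ Finset.range n, F k x) / n ∂μ = (∑ k ∈ Finset.range n, ∫ x, F k x ∂μ) / n := by
  rw [integral_div, integral_finsetSum _ (fun k _ => integ50 (hF k) (hC k))]

private lemma quad50 {X : Type*} [MeasurableSpace X] {μ : Measure X} [IsProbabilityMeasure μ]
    {f g : X → ℝ} (hf : Integrable f μ) (hg : Integrable g μ) (a b : ℝ) :
    ∫ x, (f x - a * g x + b) ∂μ = ∫ x, f x ∂μ - a * ∫ x, g x ∂μ + b := by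
  have h1 : Integrable (fun x => a * g x) μ := hg.const_mul a
  have h2 : Integrable (fun x => f x - a * g x) μ := hf.sub h1
  rw [integral_add h2 (integrable_const b), integral_sub hf h1, integral_const_mul]
  simp only [integral_const, probReal_univ, smul_eq_mul, one_mul]

private lemma int_sq50 {X : Type*} [MeasurableSpace X] {μ : Measure X} [IsProbabilityMeasure μ]
    {f : X → ℝ} (hf : Measurable f) {C : ℝ} (hC : ∀ x, |f x| ≤ C) :
    (∫ x, |f x| ∂μ) ^ 2 ≤ ∫ x, f x ^ 2 ∂μ := by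
  set a := ∫ x, |f x| ∂μ with ha
  have h1 : Integrable (fun x => |f x|) μ := (integ50 hf hC).abs
  have h2 : Integrable (fun x => f x ^ 2) μ := by
    refine integ50 (C := C ^ 2) (hf.pow_const 2) fun x => ?_
    rw [abs_of_nonneg (sq_nonneg _), ← sq_abs]
    exact pow_le_pow_left₀ (abs_nonneg _) (hC x) 2
  have h3 : ∫ x, (|f x| - a) ^ 2 ∂μ = ∫ x, f x ^ 2 ∂μ - a ^ 2 := by
    have : ∀ x, (|f x| - a) ^ 2 = f x ^ 2 - 2 * a * |f x| + a ^ 2 := by
      intro x
      have := sq_abs (f x)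
      nlinarith
    simp_rw [this]
    rw [quad50 h2 h1, ← ha]
    ring
  have h4 : 0 ≤ ∫ x, (|f x| - a) ^ 2 ∂μ := integral_nonneg fun x => sq_nonneg _
  linarith

theorem avg_close {X : Type*} [MeasurableSpace X] {μ : Measure X} [IsProbabilityMeasure μ]
    {T : X → X} (hT : MeasurePreserving T μ μ) {V G : X → ℝ} (hV : Measurable V) (hG : Measurable G)
    {M B : ℝ} (hM : ∀ x, |V x| ≤ M) (hGM : ∀ x, |G x| ≤ M) (hinv : ∀ᵐ x ∂μ, G (T x) = G x)
    (hlim : ∀ᵐ x ∂μ, Tendsto (fun n : ℕ => (∑ k ∈ Finset.range n, V (T^[k] x)) / n) atTop (𝓝 (G x)))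
    (hB : ∃ n₀ : ℕ, ∀ n, n₀ ≤ n → |(∫ x, V x * V (T^[n] x) ∂μ) - (∫ x, V x ∂μ) ^ 2| ≤ M ^ 2 * B) :
    ∫ x, |G x - ∫ y, V y ∂μ| ∂μ ≤ M * Real.sqrt B := by
  have hM0 : 0 ≤ M := by
    obtain ⟨x⟩ : Nonempty X := by
      by_contra hne
      rw [not_nonempty_iff] at hne
      have h1 : μ Set.univ = 1 := measure_univ
      rw [Set.univ_eq_empty_iff.mpr hne, measure_empty] at h1
      exact zero_ne_one h1
    exact (abs_nonneg _).trans (hM x)
  set m := ∫ y, V y ∂μ with hm
  have iV : Integrable V μ := integ50 hV hM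
  have iG : Integrable G μ := integ50 hG hGM
  -- integral of `G`
  have hG1 : ∫ x, G x ∂μ = m := by
    have hlim1 : Tendsto (fun n : ℕ => ∫ x, (∑ k ∈ Finset.range n, V (T^[k] x)) / n ∂μ) atTop
        (𝓝 (∫ x, G x ∂μ)) := by
      refine tendsto_integral_of_dominated_convergence (fun _ => M)
        (fun n => (avgmeas50 hT hV n).aestronglyMeasurable) (integrable_const _)
        (fun n => Eventually.of_forall fun x => ?_) hlim
      rw [Real.norm_eq_abs]
      exact avgbd50 hM n x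
    have hconst : ∀ᶠ n : ℕ in atTop, ∫ x, (∑ k ∈ Finset.range n, V (T^[k] x)) / n ∂μ = m := by
      filter_upwards [eventually_ge_atTop 1] with n hn
      have hn0 : (n : ℝ) ≠ 0 := by positivity
      rw [intavg50 (F := fun k x => V (T^[k] x)) (fun k => hV.comp (hT.measurable.iterate k))
        (fun k x => hM _)]
      simp_rw [intcomp50 hT hV]
      rw [Finset.sum_const, Finset.card_range, nsmul_eq_mul, ← hm]
      field_simp
    exact tendsto_nhds_unique hlim1 (tendsto_const_nhds.congr' (hconst.mono fun n hn => hn.symm))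
  have hGk : ∀ k : ℕ, ∀ᵐ x ∂μ, G (T^[k] x) = G x := by
    intro k
    induction k with
    | zero => exact Eventually.of_forall fun x => rfl
    | succ k ih =>
      have h1 : ∀ᵐ x ∂μ, G (T (T^[k] x)) = G (T^[k] x) :=
        (hT.iterate k).quasiMeasurePreserving.ae hinv
      filter_upwards [h1, ih] with x hx1 hx2
      rw [Function.iterate_succ_apply', hx1, hx2]
  have bdGV : ∀ x y, |G x * V y| ≤ M ^ 2 := by
    intro x y
    rw [abs_mul, sq]
    exact mul_le_mul (hGM x) (hM y) (abs_nonneg _) hM0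
  have bdVV : ∀ x y, |V x * V y| ≤ M ^ 2 := by
    intro x y
    rw [abs_mul, sq]
    exact mul_le_mul (hM x) (hM y) (abs_nonneg _) hM0
  have hmk : ∀ k : ℕ, Measurable fun x => V (T^[k] x) := fun k =>
    hV.comp (hT.measurable.iterate k)
  -- `∫ G V = ∫ G ^ 2`
  have hGG : ∫ x, G x ^ 2 ∂μ = ∫ x, G x * V x ∂μ := by
    have hlim1 : Tendsto (fun n : ℕ => ∫ x, G x * ((∑ k ∈ Finset.range n, V (T^[k] x)) / n) ∂μ)
        atTop (𝓝 (∫ x, G x * G x ∂μ)) := by
      refine tendsto_integral_of_dominated_convergence (fun _ => M * M)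
        (fun n => (hG.mul (avgmeas50 hT hV n)).aestronglyMeasurable) (integrable_const _)
        (fun n => Eventually.of_forall fun x => ?_) ?_
      · rw [Real.norm_eq_abs, abs_mul]
        exact mul_le_mul (hGM x) (avgbd50 hM n x) (abs_nonneg _) hM0
      · filter_upwards [hlim] with x hx
        exact hx.const_mul _
    have hconst : ∀ᶠ n : ℕ in atTop,
        ∫ x, G x * ((∑ k ∈ Finset.range n, V (T^[k] x)) / n) ∂μ = ∫ x, G x * V x ∂μ := by
      filter_upwards [eventually_ge_atTop 1] with n hn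
      have hn0 : (n : ℝ) ≠ 0 := by positivity
      have e1 : ∀ x, G x * ((∑ k ∈ Finset.range n, V (T^[k] x)) / n) =
          (∑ k ∈ Finset.range n, G x * V (T^[k] x)) / n := by
        intro x
        rw [← Finset.mul_sum]
        ring
      simp_rw [e1]
      rw [intavg50 (F := fun k x => G x * V (T^[k] x)) (fun k => hG.mul (hmk k))
        (fun k x => bdGV _ _)]
      have e2 : ∀ k, ∫ x, G x * V (T^[k] x) ∂μ = ∫ x, G x * V x ∂μ := by
        intro k
        have e3 : ∫ x, G x * V (T^[k] x) ∂μ = ∫ x, G (T^[k] x) * V (T^[k] x) ∂μ := by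
          refine integral_congr_ae ?_
          filter_upwards [hGk k] with x hx
          simp only [hx]
        rw [e3]
        exact intcomp50 hT (f := fun x => G x * V x) (hG.mul hV) k
      simp_rw [e2]
      rw [Finset.sum_const, Finset.card_range, nsmul_eq_mul]
      field_simp
    have h := tendsto_nhds_unique hlim1
      (tendsto_const_nhds.congr' (hconst.mono fun n hn => hn.symm))
    rw [← h]
    refine integral_congr_ae (Eventually.of_forall fun x => ?_)
    simp only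
    ring
  -- `∫ V G <= m ^ 2 + M ^ 2 B`
  have hVG : ∫ x, G x * V x ∂μ ≤ m ^ 2 + M ^ 2 * B := by
    obtain ⟨n₀, hn₀⟩ := hB
    set c := m ^ 2 + M ^ 2 * B with hc
    have hlim1 : Tendsto (fun n : ℕ => ∫ x, V x * ((∑ k ∈ Finset.range n, V (T^[k] x)) / n) ∂μ)
        atTop (𝓝 (∫ x, V x * G x ∂μ)) := by
      refine tendsto_integral_of_dominated_convergence (fun _ => M * M)
        (fun n => (hV.mul (avgmeas50 hT hV n)).aestronglyMeasurable) (integrable_const _)
        (fun n => Eventually.of_forall fun x => ?_) ?_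
      · rw [Real.norm_eq_abs, abs_mul]
        exact mul_le_mul (hM x) (avgbd50 hM n x) (abs_nonneg _) hM0
      · filter_upwards [hlim] with x hx
        exact hx.const_mul _
    set a : ℕ → ℝ := fun k => ∫ x, V x * V (T^[k] x) ∂μ with ha
    have e0 : ∀ n : ℕ, ∫ x, V x * ((∑ k ∈ Finset.range n, V (T^[k] x)) / n) ∂μ =
        (∑ k ∈ Finset.range n, a k) / n := by
      intro n
      have e1 : ∀ x, V x * ((∑ k ∈ Finset.range n, V (T^[k] x)) / n) =
          (∑ k ∈ Finset.range n, V x * V (T^[k] x)) / n := by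
        intro x
        rw [← Finset.mul_sum]
        ring
      simp_rw [e1]
      rw [intavg50 (F := fun k x => V x * V (T^[k] x)) (fun k => hV.mul (hmk k))
        (fun k x => bdVV _ _)]
    simp_rw [e0] at hlim1
    set D := ∑ k ∈ Finset.range n₀, |a k - c| with hD
    have hsum : ∀ n : ℕ, ∑ k ∈ Finset.range n, (a k - c) ≤ D := by
      intro n
      have h1 : ∀ k ∈ Finset.range n, a k - c ≤ if k < n₀ then |a k - c| else 0 := by
        intro k _
        split_ifs with hk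
        · exact le_abs_self _
        · have h2 := (abs_le.mp (hn₀ k (not_lt.mp hk))).2
          simp only [hc, ha]
          linarith
      calc ∑ k ∈ Finset.range n, (a k - c)
          ≤ ∑ k ∈ Finset.range n, (if k < n₀ then |a k - c| else 0) := Finset.sum_le_sum h1
        _ = ∑ k ∈ (Finset.range n).filter (fun k => k < n₀), |a k - c| := by
            rw [Finset.sum_filter]
        _ ≤ D := by
            refine Finset.sum_le_sum_of_subset_of_nonneg ?_ fun k _ _ => abs_nonneg _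
            intro k hk
            rw [Finset.mem_filter] at hk
            exact Finset.mem_range.mpr hk.2
    have hb : ∀ᶠ n : ℕ in atTop, (∑ k ∈ Finset.range n, a k) / n ≤ c + D / n := by
      filter_upwards [eventually_ge_atTop 1] with n hn
      have hn0 : (0 : ℝ) < n := by exact_mod_cast hn
      have h1 := hsum n
      rw [Finset.sum_sub_distrib, Finset.sum_const, Finset.card_range, nsmul_eq_mul] at h1
      rw [div_le_iff₀ hn0]
      have h2 : (c + D / n) * n = c * n + D := by field_simp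
      rw [h2]
      linarith
    have hlim2 : Tendsto (fun n : ℕ => c + D / (n : ℝ)) atTop (𝓝 c) := by
      have h1 : Tendsto (fun n : ℕ => D / (n : ℝ)) atTop (𝓝 0) :=
        tendsto_const_div_atTop_nhds_zero_nat D
      simpa using h1.const_add c
    have h3 := le_of_tendsto_of_tendsto hlim1 hlim2 hb
    have h4 : ∫ x, G x * V x ∂μ = ∫ x, V x * G x ∂μ := by
      refine integral_congr_ae (Eventually.of_forall fun x => ?_)
      simp only
      ring
    rw [h4]
    exact h3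
  have hGmm : Measurable fun x => G x - m := hG.sub_const m
  have hbd : ∀ x, |G x - m| ≤ M + |m| := fun x =>
    (abs_sub _ _).trans (add_le_add (hGM x) le_rfl)
  have h5 := int_sq50 (μ := μ) hGmm hbd
  have h6 : ∫ x, (G x - m) ^ 2 ∂μ = ∫ x, G x ^ 2 ∂μ - m ^ 2 := by
    have i2 : Integrable (fun x => G x ^ 2) μ := by
      refine integ50 (C := M ^ 2) (hG.pow_const 2) fun x => ?_
      rw [abs_of_nonneg (sq_nonneg _), ← sq_abs]
      exact pow_le_pow_left₀ (abs_nonneg _) (hGM x) 2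
    have : ∀ x, (G x - m) ^ 2 = G x ^ 2 - 2 * m * G x + m ^ 2 := fun x => by ring
    simp_rw [this]
    rw [quad50 i2 iG, hG1]
    ring
  have h7 : (∫ x, |G x - m| ∂μ) ^ 2 ≤ M ^ 2 * B := by
    rw [h6, hGG] at h5
    linarith
  calc ∫ x, |G x - m| ∂μ ≤ Real.sqrt (M ^ 2 * B) := Real.le_sqrt_of_sq_le h7
    _ = M * Real.sqrt B := by rw [Real.sqrt_mul (sq_nonneg M), Real.sqrt_sq hM0]

theorem avg_contract {X : Type*} [MeasurableSpace X] {μ : Measure X} [IsProbabilityMeasure μ]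
    {T : X → X} (hT : MeasurePreserving T μ μ) {h1 h2 G1 G2 : X → ℝ} (hm1 : Measurable h1)
    (hm2 : Measurable h2) (hG1 : Measurable G1) (hG2 : Measurable G2) {C : ℝ} (hC1 : ∀ x, |h1 x| ≤ C)
    (hC2 : ∀ x, |h2 x| ≤ C)
    (hlim1 : ∀ᵐ x ∂μ, Tendsto (fun n : ℕ => (∑ k ∈ Finset.range n, h1 (T^[k] x)) / n) atTop
      (𝓝 (G1 x)))
    (hlim2 : ∀ᵐ x ∂μ, Tendsto (fun n : ℕ => (∑ k ∈ Finset.range n, h2 (T^[k] x)) / n) atTop
      (𝓝 (G2 x))) :
    ∫ x, |G1 x - G2 x| ∂μ ≤ ∫ x, |h1 x - h2 x| ∂μ := by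
  have hd : Measurable fun x => |h1 x - h2 x| := (hm1.sub hm2).abs
  have hbd : ∀ x, |h1 x - h2 x| ≤ C + C := fun x =>
    (abs_sub _ _).trans (add_le_add (hC1 x) (hC2 x))
  have hbd' : ∀ x, |(|h1 x - h2 x|)| ≤ C + C := fun x => by rw [abs_abs]; exact hbd x
  have hlim : Tendsto (fun n : ℕ => ∫ x, |(∑ k ∈ Finset.range n, h1 (T^[k] x)) / n -
      (∑ k ∈ Finset.range n, h2 (T^[k] x)) / n| ∂μ) atTop (𝓝 (∫ x, |G1 x - G2 x| ∂μ)) := by
    refine tendsto_integral_of_dominated_convergence (fun _ => C + C)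
      (fun n => (((avgmeas50 hT hm1 n).sub (avgmeas50 hT hm2 n)).abs).aestronglyMeasurable)
      (integrable_const _) (fun n => Eventually.of_forall fun x => ?_) ?_
    · rw [Real.norm_eq_abs, abs_abs]
      exact (abs_sub _ _).trans (add_le_add (avgbd50 hC1 n x) (avgbd50 hC2 n x))
    · filter_upwards [hlim1, hlim2] with x hx1 hx2
      exact (hx1.sub hx2).abs
  refine le_of_tendsto hlim ?_
  filter_upwards [eventually_ge_atTop 1] with n hn
  have hn0 : (0 : ℝ) < n := by exact_mod_cast hn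
  have e1 : ∫ x, (∑ k ∈ Finset.range n, |h1 (T^[k] x) - h2 (T^[k] x)|) / n ∂μ =
      ∫ x, |h1 x - h2 x| ∂μ := by
    rw [intavg50 (F := fun k x => |h1 (T^[k] x) - h2 (T^[k] x)|)
      (fun k => hd.comp (hT.measurable.iterate k)) (fun k x => hbd' _)]
    have e2 : ∀ k, ∫ x, |h1 (T^[k] x) - h2 (T^[k] x)| ∂μ = ∫ x, |h1 x - h2 x| ∂μ :=
      fun k => intcomp50 hT (f := fun x => |h1 x - h2 x|) hd k
    simp_rw [e2]
    rw [Finset.sum_const, Finset.card_range, nsmul_eq_mul]
    field_simp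
  rw [← e1]
  refine integral_mono ?_ ?_ fun x => ?_
  · refine integ50 (C := C + C) (((avgmeas50 hT hm1 n).sub (avgmeas50 hT hm2 n)).abs) fun x => ?_
    rw [abs_abs]
    exact (abs_sub _ _).trans (add_le_add (avgbd50 hC1 n x) (avgbd50 hC2 n x))
  · exact integ50 (avgmeas50 hT hd n) (fun x => avgbd50 hbd' n x)
  · simp only
    rw [← sub_div, abs_div, abs_of_pos hn0, ← Finset.sum_sub_distrib]
    exact div_le_div_of_nonneg_right (Finset.abs_sum_le_sum_abs _ _) hn0.le

end Pool.Agent.Helper18.SD
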