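import Mathlib
import Pool.Agent.Helper18.SD.Driven
import Pool.Agent.Helper18.SD.Fwd

/-! Block SD-AVG: non hyperbolic points of the driven map, on average over the times; choice of the
middle time. Notation `κ = 4 * 4096 * log |a| / |a| ^ 2`.

* `int_pbad_rev`: for `i + 1 < m`, `rev (nz θ) (n+m) i = nz θ (n+m-1-i) = nz ((K ^ n) • θ) (m-1-i)
  = rev (nz ((K ^ n) • θ)) m i`; `pbad_congr`, `mp_pow`.
* `avg_fwd`: integrate `sum_pbad_fwd` (for every `θ`), `driven_bad` with `M = T`: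
  `3 T / b + 11 * (2 T) * 2 (N κ + 9 / b)`.
* `avg_rev`: integrate `SG.sum_pbad_le` for `c = rev (nz θ) T`: `5 T / b + 10 T * 2 (N κ + 9 / b)`, and
  `int_pbad_rev` with `T = (T - n) + n`.
* `exists_mid`: with `q = S / 4`, the `q` values `n = q+1, ..., 2q`, `m = S - n`; the sum over these `n` of
  the two terms is at most `S (avg_fwd + avg_rev)`, and `S <= 8 q` for `S >= 8`; pigeonhole
  (`Finset.exists_le_of_sum_le`). -/

set_option autoImplicit false
open Real Set MeasureTheory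
open scoped ENNReal

namespace Pool.Agent.Helper18.SD

open Pool.Agent.Helper78.SM (psi phi dphi Typ sq csn snn)
open Pool.Agent.Helper18.SG (Z v W rev pbad HypS)

attribute [local instance] Pool.Agent.Helper53.SM.instProbU Pool.Agent.Helper53.SM.instProbT2

private lemma int_bdd56 {f : UnitAddCircle → ℝ} (hf : Measurable f) (h0 : ∀ θ, 0 ≤ f θ)
    (h1 : ∀ θ, f θ ≤ 1) : Integrable f volume := by
  apply Integrable.of_bound hf.aestronglyMeasurable 1
  filter_upwards with θ
  rw [Real.norm_eq_abs, abs_of_nonneg (h0 θ)]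
  exact h1 θ

private lemma iv56 (a ε : ℝ) (K T k : ℕ) :
    Integrable (fun θ : UnitAddCircle => vb a (rev (nz ε K θ) T) k) volume :=
  int_bdd56 (measurable_vb (fun _ => measurable_nz ε K _) k) (fun _ => vb_nonneg _ _ _)
    (fun _ => vb_le_one _ _ _)

private lemma ip56 (a b ε : ℝ) (K n : ℕ) :
    Integrable (fun θ : UnitAddCircle => pbad a b (nz ε K θ) n) volume :=
  int_bdd56 (measurable_pbad (fun i => measurable_nz ε K i) n) (fun _ => pbad_nonneg _ _ _ _)
    (fun _ => pbad_le_one _ _ _ _)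

private lemma ir56 (a b ε : ℝ) (K T n : ℕ) :
    Integrable (fun θ : UnitAddCircle => pbad a b (rev (nz ε K θ) T) n) volume :=
  int_bdd56 (measurable_pbad (fun _ => measurable_nz ε K _) n) (fun _ => pbad_nonneg _ _ _ _)
    (fun _ => pbad_le_one _ _ _ _)

theorem int_pbad_rev {a b ε : ℝ} {K : ℕ} (hK : 2 ≤ K) (n m : ℕ) :
    ∫ θ : UnitAddCircle, pbad a b (rev (nz ε K θ) (n+m)) m =
      ∫ θ : UnitAddCircle, pbad a b (rev (nz ε K θ) m) m := by
  have h1 : ∀ θ : UnitAddCircle, pbad a b (rev (nz ε K θ) (n+m)) m =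
      pbad a b (rev (nz ε K ((K ^ n) • θ)) m) m := by
    intro θ
    apply pbad_congr
    intro i hi
    unfold rev
    rw [nz_smul]
    congr 1
    omega
  have hm : Measurable (fun θ : UnitAddCircle => pbad a b (rev (nz ε K θ) m) m) :=
    measurable_pbad (fun k => measurable_nz ε K _) m
  have h2 := integral_map (μ := (volume : Measure UnitAddCircle))
    (mp_pow hK n).measurable.aemeasurable
    (f := fun θ => pbad a b (rev (nz ε K θ) m) m) hm.aestronglyMeasurable
  rw [(mp_pow hK n).map_eq] at h2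
  rw [h2]
  exact integral_congr_ae (Filter.Eventually.of_forall h1)

theorem avg_fwd {a b ε : ℝ} (hb : 1000 ≤ b) (hab : |a| = b ^ 10) (hε : 0 < ε) (hε4 : ε ≤ 1 / 4)
    {K : ℕ} (hK : 2 ≤ K) {N : ℕ} (hN : 12 ≤ N) (hN2 : b ^ 42 < ε / b * b ^ (6 * N)) (T : ℕ) :
    ∑ n ∈ Finset.Icc 1 T, ∫ θ : UnitAddCircle, pbad a b (nz ε K θ) n ≤
      T * (399 / b + 44 * (N * (4 * 4096 * Real.log |a| / |a| ^ 2))) := by
  set κ := 4 * 4096 * Real.log |a| / |a| ^ 2 with hκ
  have I1 : Integrable (fun θ : UnitAddCircle =>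
      ∑ k ∈ Finset.range T, vb a (rev (nz ε K θ) T) k) volume :=
    integrable_finsetSum _ fun k _ => iv56 a ε K T k
  have I2 : Integrable (fun θ : UnitAddCircle => (T:ℝ) * vb a (rev (nz ε K θ) T) T) volume :=
    (iv56 a ε K T T).const_mul _
  have I3 : Integrable (fun θ : UnitAddCircle =>
      (∑ k ∈ Finset.range T, vb a (rev (nz ε K θ) T) k) + T * vb a (rev (nz ε K θ) T) T) volume :=
    I1.add I2
  have I4 : Integrable (fun θ : UnitAddCircle => 11 *
      ((∑ k ∈ Finset.range T, vb a (rev (nz ε K θ) T) k) + T * vb a (rev (nz ε K θ) T) T)) volume :=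
    I3.const_mul 11
  have hmono := integral_mono (μ := (volume : Measure UnitAddCircle))
    (f := fun θ => ∑ n ∈ Finset.Icc 1 T, pbad a b (nz ε K θ) n)
    (g := fun θ => 3 * T / b + 11 * ((∑ k ∈ Finset.range T, vb a (rev (nz ε K θ) T) k) +
      T * vb a (rev (nz ε K θ) T) T))
    (integrable_finsetSum _ fun n _ => ip56 a b ε K n)
    ((integrable_const _).add I4)
    (fun θ => sum_pbad_fwd hb hab (nz ε K θ) T)
  rw [integral_finsetSum _ (fun n _ => ip56 a b ε K n),
    integral_add (integrable_const _) I4, integral_const_mul,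
    integral_add I1 I2, integral_finsetSum _ (fun k _ => iv56 a ε K T k),
    integral_const_mul, integral_const, probReal_univ, one_smul] at hmono
  have h1 : ∑ k ∈ Finset.range T, ∫ θ : UnitAddCircle, vb a (rev (nz ε K θ) T) k ≤
      ∑ k ∈ Finset.range T, 2 * (N * κ + 9 / b) := by
    apply Finset.sum_le_sum
    intro k hk
    have hk' := Finset.mem_range.mp hk
    exact driven_bad hb hab hε hε4 hK hN hN2 T (by omega)
  rw [Finset.sum_const, Finset.card_range, nsmul_eq_mul] at h1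
  have h2 : ∫ θ : UnitAddCircle, vb a (rev (nz ε K θ) T) T ≤ 2 * (N * κ + 9 / b) :=
    driven_bad hb hab hε hε4 hK hN hN2 T (by omega)
  have hT : (0:ℝ) ≤ T := Nat.cast_nonneg T
  have h3 := mul_le_mul_of_nonneg_left h2 hT
  calc _ ≤ _ := hmono
    _ ≤ 3 * T / b + 11 * (T * (2 * (N * κ + 9 / b)) + T * (2 * (N * κ + 9 / b))) := by linarith
    _ = T * (399 / b + 44 * (N * κ)) := by ring

theorem avg_rev {a b ε : ℝ} (hb : 1000 ≤ b) (hab : |a| = b ^ 10) (hε : 0 < ε) (hε4 : ε ≤ 1 / 4)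
    {K : ℕ} (hK : 2 ≤ K) {N : ℕ} (hN : 12 ≤ N) (hN2 : b ^ 42 < ε / b * b ^ (6 * N)) (T : ℕ) :
    ∑ n ∈ Finset.Icc 1 T, ∫ θ : UnitAddCircle, pbad a b (rev (nz ε K θ) n) n ≤
      T * (185 / b + 20 * (N * (4 * 4096 * Real.log |a| / |a| ^ 2))) := by
  set κ := 4 * 4096 * Real.log |a| / |a| ^ 2 with hκ
  have h0 : ∑ n ∈ Finset.Icc 1 T, ∫ θ : UnitAddCircle, pbad a b (rev (nz ε K θ) n) n =
      ∑ n ∈ Finset.Icc 1 T, ∫ θ : UnitAddCircle, pbad a b (rev (nz ε K θ) T) n := by
    apply Finset.sum_congr rfl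
    intro n hn
    rw [Finset.mem_Icc] at hn
    have h := int_pbad_rev (a := a) (b := b) (ε := ε) hK (T - n) n
    rw [Nat.sub_add_cancel hn.2] at h
    exact h.symm
  rw [h0]
  have I1 : Integrable (fun θ : UnitAddCircle =>
      ∑ k ∈ Finset.range T, vb a (rev (nz ε K θ) T) k) volume :=
    integrable_finsetSum _ fun k _ => iv56 a ε K T k
  have I4 : Integrable (fun θ : UnitAddCircle => 10 *
      ∑ k ∈ Finset.range T, vb a (rev (nz ε K θ) T) k) volume :=
    I1.const_mul 10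
  have hmono := integral_mono (μ := (volume : Measure UnitAddCircle))
    (f := fun θ => ∑ n ∈ Finset.Icc 1 T, pbad a b (rev (nz ε K θ) T) n)
    (g := fun θ => 5 * T / b + 10 * ∑ k ∈ Finset.range T, vb a (rev (nz ε K θ) T) k)
    (integrable_finsetSum _ fun n _ => ir56 a b ε K T n)
    ((integrable_const _).add I4)
    (fun θ => Pool.Agent.Helper18.SG.sum_pbad_le hb hab (rev (nz ε K θ) T) T)
  rw [integral_finsetSum _ (fun n _ => ir56 a b ε K T n),
    integral_add (integrable_const _) I4, integral_const_mul,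
    integral_finsetSum _ (fun k _ => iv56 a ε K T k), integral_const, probReal_univ,
    one_smul] at hmono
  have h1 : ∑ k ∈ Finset.range T, ∫ θ : UnitAddCircle, vb a (rev (nz ε K θ) T) k ≤
      ∑ k ∈ Finset.range T, 2 * (N * κ + 9 / b) := by
    apply Finset.sum_le_sum
    intro k hk
    have hk' := Finset.mem_range.mp hk
    exact driven_bad hb hab hε hε4 hK hN hN2 T (by omega)
  rw [Finset.sum_const, Finset.card_range, nsmul_eq_mul] at h1
  calc _ ≤ _ := hmono
    _ ≤ 5 * T / b + 10 * (T * (2 * (N * κ + 9 / b))) := by linarith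
    _ = T * (185 / b + 20 * (N * κ)) := by ring

theorem exists_mid {a b ε : ℝ} (hb : 1000 ≤ b) (hab : |a| = b ^ 10) (hε : 0 < ε) (hε4 : ε ≤ 1 / 4)
    {K : ℕ} (hK : 2 ≤ K) {N : ℕ} (hN : 12 ≤ N) (hN2 : b ^ 42 < ε / b * b ^ (6 * N)) {S : ℕ}
    (hS : 8 ≤ S) :
    ∃ n m : ℕ, n + m = S ∧ 1 ≤ n ∧ 1 ≤ m ∧ S ≤ 4 * n ∧ S ≤ 4 * m ∧
      (∫ θ : UnitAddCircle, pbad a b (nz ε K θ) n) +
        (∫ θ : UnitAddCircle, pbad a b (rev (nz ε K θ) (n+m)) m) ≤
      8 * (600 / b + 64 * (N * (4 * 4096 * Real.log |a| / |a| ^ 2))) := by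
  have hb0 : 0 < b := by linarith
  have ha1 : 1 ≤ |a| := by rw [hab]; exact one_le_pow₀ (by linarith)
  have hlog : 0 ≤ Real.log |a| := Real.log_nonneg ha1
  have hκ0 : 0 ≤ 4 * 4096 * Real.log |a| / |a| ^ 2 := by positivity
  have s1 := avg_fwd hb hab hε hε4 hK hN hN2 S
  have s2 := avg_rev hb hab hε hε4 hK hN hN2 S
  set κ := 4 * 4096 * Real.log |a| / |a| ^ 2 with hκ
  have hx0 : (0:ℝ) ≤ N * κ := mul_nonneg (Nat.cast_nonneg N) hκ0
  set f : ℕ → ℝ := fun n => ∫ θ : UnitAddCircle, pbad a b (nz ε K θ) n with hf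
  set g : ℕ → ℝ := fun n => ∫ θ : UnitAddCircle, pbad a b (rev (nz ε K θ) n) n with hg
  have hf0 : ∀ n, 0 ≤ f n := fun n => integral_nonneg fun θ => pbad_nonneg _ _ _ _
  have hg0 : ∀ n, 0 ≤ g n := fun n => integral_nonneg fun θ => pbad_nonneg _ _ _ _
  by_contra hcon
  push Not at hcon
  set I : Finset ℕ := Finset.Icc (S / 4 + 1) (2 * (S / 4)) with hI
  have key : ∀ n ∈ I, 8 * (600 / b + 64 * (N * κ)) ≤ f n + g (S - n) := by
    intro n hn
    rw [hI, Finset.mem_Icc] at hn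
    have h := hcon n (S - n) (by omega) (by omega) (by omega) (by omega) (by omega)
    rw [int_pbad_rev hK n (S - n)] at h
    exact h.le
  have hsum := Finset.card_nsmul_le_sum I _ _ key
  rw [nsmul_eq_mul, Finset.sum_add_distrib] at hsum
  have hcard : I.card = S / 4 := by
    rw [hI, Nat.card_Icc]; omega
  rw [hcard] at hsum
  have hA : ∑ n ∈ I, f n ≤ ∑ n ∈ Finset.Icc 1 S, f n := by
    apply Finset.sum_le_sum_of_subset_of_nonneg
    · intro n hn
      rw [hI, Finset.mem_Icc] at hn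
      rw [Finset.mem_Icc]
      omega
    · intro n _ _
      exact hf0 n
  have hB : ∑ n ∈ I, g (S - n) ≤ ∑ n ∈ Finset.Icc 1 S, g n := by
    have hinj : Set.InjOn (fun n => S - n) (I : Set ℕ) := by
      intro x hx y hy hxy
      rw [Finset.mem_coe, hI, Finset.mem_Icc] at hx hy
      simp only at hxy
      omega
    rw [← Finset.sum_image (f := g) hinj]
    apply Finset.sum_le_sum_of_subset_of_nonneg
    · intro m hm
      rw [Finset.mem_image] at hm
      obtain ⟨n, hn, rfl⟩ := hm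
      rw [hI, Finset.mem_Icc] at hn
      rw [Finset.mem_Icc]
      omega
    · intro n _ _
      exact hg0 n
  have hq : (S:ℝ) ≤ 8 * ((S / 4 : ℕ) : ℝ) := by
    have : S ≤ 8 * (S / 4) := by omega
    exact_mod_cast this
  have hS0 : (0:ℝ) < S := by
    have : 0 < S := by omega
    exact_mod_cast this
  have hy0 : 0 < 600 / b + 64 * (N * κ) := by positivity
  have h1 : (S:ℝ) * (600 / b + 64 * (N * κ)) ≤
      ((S / 4 : ℕ) : ℝ) * (8 * (600 / b + 64 * (N * κ))) := by
    have := mul_le_mul_of_nonneg_right hq hy0.le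
    linarith
  have h2 : (S:ℝ) * (600 / b + 64 * (N * κ)) ≤
      S * (399 / b + 44 * (N * κ)) + S * (185 / b + 20 * (N * κ)) := by linarith
  have h3 : (S:ℝ) * (399 / b + 44 * (N * κ)) + S * (185 / b + 20 * (N * κ)) =
      S * (600 / b + 64 * (N * κ)) - S * (16 / b) := by ring
  have h4 : 0 < (S:ℝ) * (16 / b) := by positivity
  linarith

end Pool.Agent.Helper18.SD
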