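import Mathlib
import Pool.Agent.Helper18.SD.Avg
import Pool.Agent.Helper18.SD.T3

/-! Block SD-NEAR: near mixing of the driven map for all bounded measurable functions.

* `near_lip`: `N` from `choose_N'`; for `S >= 8` take `n + m = S` from `exists_mid` and apply `corr_lip`:
  the bound is `4 (1/b + 8 (600/b + 64 N κ)) + (terms -> 0 as S -> ∞)`,
  `κ = 4 * 4096 * log |a| / |a| ^ 2 = 163840 log b / b ^ 20`, `N <= log (1/ε) / (6 log b) + 13`; so
  `2048 N κ <= 5.6 * 10 ^ 7 log (1/ε) / |a| ^ 2 + 1 / b` and `4 / b + 19200 / b + 1 / b <= 19300 / b`.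
* `lip_dense`: `MeasureTheory.MemLp.exists_boundedContinuous_eLpNorm_sub_le` (p = 1) gives a continuous
  function, truncate it to `[-1, 1]`; on a compact space a continuous function is uniformly
  approximated by the `L`-Lipschitz functions `x ↦ inf_y (f y + L dist x y)` (with values in `[-1, 1]`), or use
  any density theorem of Mathlib.
* `near_mixing`: approximate `f`, `g` within `η = 100 / b` in `L ^ 1`; `|corr f g - corr f' g'| <=
  2 ∫ |f - f'| + 2 ∫ |g - g'|` (`mp_dr`). -/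

set_option autoImplicit false
open Real Set MeasureTheory
open scoped ENNReal

namespace Pool.Agent.Helper18.SD

open Pool.Agent.Helper78.SM (psi phi dphi Typ sq csn snn mk2)
open Pool.Agent.Helper18.SG (Z v W rev pbad HypS st)

attribute [local instance] Pool.Agent.Helper53.SM.instProbU Pool.Agent.Helper53.SM.instProbT2

private lemma kap22 {a b ε : ℝ} (hb : 10000 ≤ b) (hab : |a| = b ^ 10) (hε : 0 < ε) (hε4 : ε ≤ 1 / 4)
    {N : ℕ} (hN : (N:ℝ) ≤ Real.log (1 / ε) / (6 * Real.log b) + 13) :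
    2048 * (N * (4 * 4096 * Real.log |a| / |a| ^ 2)) ≤
      1 / b + 6 * 10 ^ 7 * (Real.log (1 / ε) / |a| ^ 2) := by
  have hb0 : 0 < b := by linarith
  have hb1 : 1 < b := by linarith
  have hlb : 0 < Real.log b := Real.log_pos hb1
  have hlb2 : Real.log b ≤ b := (Real.log_le_sub_one_of_pos hb0).trans (by linarith)
  have hle : 0 ≤ Real.log (1 / ε) := by
    apply Real.log_nonneg
    rw [le_div_iff₀ hε]; linarith
  rw [hab, Real.log_pow]
  set X := (b ^ 10) ^ 2 with hX
  have hX0 : 0 < X := by positivity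
  set lg := Real.log (1 / ε) with hlg
  set lb := Real.log b with hlbd
  push_cast
  have e1 : 2048 * ((N:ℝ) * (4 * 4096 * (10 * lb) / X)) = 335544320 * (N * lb) / X := by ring
  have h1 : (N:ℝ) * lb ≤ lg / 6 + 13 * lb := by
    have := mul_le_mul_of_nonneg_right hN hlb.le
    have e : (lg / (6 * lb) + 13) * lb = lg / 6 + 13 * lb := by field_simp
    rwa [e] at this
  have h2 : 335544320 * ((N:ℝ) * lb) ≤ 6 * 10 ^ 7 * lg + 4362076160 * b := by nlinarith
  have h3 : 4362076160 * b / X ≤ 1 / b := by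
    rw [div_le_div_iff₀ hX0 hb0]
    have h4 : (10000:ℝ) ^ 18 ≤ b ^ 18 := pow_le_pow_left₀ (by norm_num) hb 18
    have h5 : X = b ^ 18 * (b * b) := by rw [hX]; ring
    rw [h5, one_mul]
    have h6 : 0 < b * b := by positivity
    nlinarith
  rw [e1]
  calc 335544320 * ((N:ℝ) * lb) / X ≤ (6 * 10 ^ 7 * lg + 4362076160 * b) / X := by gcongr
    _ = 6 * 10 ^ 7 * (lg / X) + 4362076160 * b / X := by ring
    _ ≤ 6 * 10 ^ 7 * (lg / X) + 1 / b := by linarith
    _ = _ := by ring

private lemma pw22 {b : ℝ} (hb : 10000 ≤ b) {n q : ℕ} (hn : 1 ≤ n) (hq : q ≤ n) :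
    b ^ 2 / b ^ (7 * n) ≤ (1 / 2) ^ q := by
  have hb0 : 0 < b := by linarith
  have hb1 : 1 ≤ b := by linarith
  have h1 : b ^ 2 * b ^ n ≤ b ^ (7 * n) := by
    rw [← pow_add]
    exact pow_le_pow_right₀ hb1 (by omega)
  have h2 : (2:ℝ) ^ q ≤ b ^ n := by
    calc (2:ℝ) ^ q ≤ 2 ^ n := pow_le_pow_right₀ (by norm_num) hq
      _ ≤ b ^ n := pow_le_pow_left₀ (by norm_num) (by linarith) n
  rw [div_le_iff₀ (by positivity)]
  have h3 : (1 / 2 : ℝ) ^ q * 2 ^ q = 1 := by
    rw [← mul_pow]; norm_num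
  have h4 : (0:ℝ) < (1 / 2) ^ q := by positivity
  calc b ^ 2 = (1 / 2 : ℝ) ^ q * (b ^ 2 * 2 ^ q) := by
        rw [mul_left_comm, h3, mul_one]
    _ ≤ (1 / 2 : ℝ) ^ q * (b ^ 2 * b ^ n) := by gcongr
    _ ≤ (1 / 2 : ℝ) ^ q * b ^ (7 * n) := by gcongr

private lemma pK22 {K S q : ℕ} (hK : 2 ≤ K) (hq : q ≤ S) {L : ℝ} (hL : 0 ≤ L) :
    L / (K:ℝ) ^ S ≤ L * (1 / 2) ^ q := by
  have hK' : (2:ℝ) ≤ K := by exact_mod_cast hK
  have h2 : (2:ℝ) ^ q ≤ (K:ℝ) ^ S := by
    calc (2:ℝ) ^ q ≤ 2 ^ S := pow_le_pow_right₀ (by norm_num) hq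
      _ ≤ (K:ℝ) ^ S := pow_le_pow_left₀ (by norm_num) hK' S
  have h3 : (1 / 2 : ℝ) ^ q = 1 / 2 ^ q := by rw [div_pow, one_pow]
  rw [h3, mul_one_div]
  exact div_le_div_of_nonneg_left hL (by positivity) h2

theorem near_lip {a b ε : ℝ} (hb : 10000 ≤ b) (hab : |a| = b ^ 10) (hε : 0 < ε) (hε4 : ε ≤ 1 / 4)
    {K : ℕ} (hK : 2 ≤ K) {L : ℝ} (hL : 0 ≤ L) {f g : T3 → ℝ} (hf : ∀ q, |f q| ≤ 1)
    (hg : ∀ q, |g q| ≤ 1) (hfL : ∀ p q, |f p - f q| ≤ L * dist p q)
    (hgL : ∀ p q, |g p - g q| ≤ L * dist p q) :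
    ∃ n₀ : ℕ, ∀ n, n₀ ≤ n →
      |(∫ q, f q * g ((dr a ε K)^[n] q)) - (∫ q, f q) * (∫ q, g q)| ≤
        19500 / b + 6 * 10 ^ 7 * (Real.log (1 / ε) / |a| ^ 2) := by
  have hb0 : 0 < b := by linarith
  obtain ⟨N, hN1, hN2, hN3⟩ := choose_N' (b := b) (by linarith) hε hε4
  have hkap := kap22 hb hab hε hε4 hN3
  obtain ⟨k, hk⟩ := exists_pow_lt_of_lt_one (x := 295 / b / (9 * L + 1)) (y := (1 / 2 : ℝ))
    (by positivity) (by norm_num)
  refine ⟨max 8 (4 * k), ?_⟩
  intro S hS
  have hS8 : 8 ≤ S := (le_max_left _ _).trans hS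
  have hSk : 4 * k ≤ S := (le_max_right _ _).trans hS
  obtain ⟨n, m, hnm, hn, hm, hSn, hSm, hI⟩ := exists_mid (a := a) (b := b) (by linarith) hab hε hε4 hK
    hN1 hN2 hS8
  have hc := corr_lip (ε := ε) hb hab hK hn hm hL hf hg hfL hgL
  rw [hnm] at hc hI
  refine hc.trans ?_
  have p1 := pw22 hb hn (q := S / 4) (by omega)
  have p2 := pw22 hb hm (q := S / 4) (by omega)
  have p3 := pK22 hK (q := S / 4) (S := S) (by omega) hL
  have p4 : (1 / 2 : ℝ) ^ (S / 4) ≤ (1 / 2) ^ k :=
    pow_le_pow_of_le_one (by norm_num) (by norm_num) (by omega)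
  have p5 : (9 * L + 1) * (1 / 2 : ℝ) ^ k ≤ 295 / b := by
    have := (lt_div_iff₀ (by positivity : (0:ℝ) < 9 * L + 1)).1 hk
    linarith
  have p6 : (0:ℝ) < (1 / 2) ^ k := by positivity
  have p7 : L * (b ^ 2 / b ^ (7 * n) + b ^ 2 / b ^ (7 * m)) ≤ L * (2 * (1 / 2) ^ k) := by
    apply mul_le_mul_of_nonneg_left _ hL
    linarith
  have p8 : L * (1 / 2 : ℝ) ^ (S / 4) ≤ L * (1 / 2) ^ k := mul_le_mul_of_nonneg_left p4 hL
  have p9 : (9 * L + 1) * (1 / 2 : ℝ) ^ k = 9 * (L * (1 / 2) ^ k) + (1 / 2) ^ k := by ring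
  have e1 : 19500 / b = 4 * (1 / b) + 32 * (600 / b) + 1 / b + 295 / b := by ring
  rw [e1]
  set A := ∫ θ : UnitAddCircle, pbad a b (nz ε K θ) n
  set B := ∫ θ : UnitAddCircle, pbad a b (rev (nz ε K θ) S) m
  set Q := (N:ℝ) * (4 * 4096 * Real.log |a| / |a| ^ 2)
  nlinarith

private lemma lipapp22 {α : Type*} [PseudoMetricSpace α] [CompactSpace α] {g : α → ℝ}
    (hg : Continuous g) (hg1 : ∀ x, |g x| ≤ 1) {η : ℝ} (hη : 0 < η) :
    ∃ (f' : α → ℝ) (L : ℝ), 0 ≤ L ∧ (∀ q, |f' q| ≤ 1) ∧ (∀ p q, |f' p - f' q| ≤ L * dist p q) ∧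
      ∀ q, |g q - f' q| ≤ η := by
  have hu : UniformContinuous g := CompactSpace.uniformContinuous_of_continuous hg
  rw [Metric.uniformContinuous_iff] at hu
  obtain ⟨δ, hδ, hd⟩ := hu η hη
  set L : ℝ := 2 / δ with hLd
  have hL0 : 0 ≤ L := by positivity
  have hbd : ∀ x, BddBelow (range fun y => g y + L * dist x y) := by
    intro x
    refine ⟨-1, ?_⟩
    rintro _ ⟨y, rfl⟩
    have h1 := (abs_le.1 (hg1 y)).1
    have h2 : 0 ≤ L * dist x y := by positivity
    show -1 ≤ g y + L * dist x y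
    linarith
  have hle : ∀ x, (⨅ y, (g y + L * dist x y)) ≤ g x := by
    intro x
    have := ciInf_le (hbd x) x
    simpa using this
  have hge : ∀ x, g x - η ≤ ⨅ y, (g y + L * dist x y) := by
    intro x
    have : Nonempty α := ⟨x⟩
    apply le_ciInf
    intro y
    rcases lt_or_ge (dist x y) δ with h | h
    · have h1 := hd h
      rw [Real.dist_eq] at h1
      have h2 := (abs_lt.1 h1).2
      have h3 : 0 ≤ L * dist x y := by positivity
      linarith
    · have h1 : 2 ≤ L * dist x y := by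
        calc (2:ℝ) = L * δ := by rw [hLd]; field_simp
          _ ≤ L * dist x y := by gcongr
      have h2 := (abs_le.1 (hg1 y)).1
      have h3 := (abs_le.1 (hg1 x)).2
      linarith
  have hlow : ∀ x, -1 ≤ ⨅ y, (g y + L * dist x y) := by
    intro x
    have : Nonempty α := ⟨x⟩
    apply le_ciInf
    intro y
    have h1 := (abs_le.1 (hg1 y)).1
    have h2 : 0 ≤ L * dist x y := by positivity
    linarith
  have hlip : ∀ p q, (⨅ y, (g y + L * dist p y)) ≤ (⨅ y, (g y + L * dist q y)) + L * dist p q := by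
    intro p q
    have : Nonempty α := ⟨p⟩
    rw [← sub_le_iff_le_add]
    apply le_ciInf
    intro y
    have h1 := ciInf_le (hbd p) y
    have h2 := dist_triangle p q y
    have h3 : L * dist p y ≤ L * (dist p q + dist q y) := mul_le_mul_of_nonneg_left h2 hL0
    have h4 : (⨅ y, (g y + L * dist p y)) ≤ g y + L * dist p y := h1
    nlinarith
  refine ⟨fun x => ⨅ y, (g y + L * dist x y), L, hL0, ?_, ?_, ?_⟩
  · intro q
    exact abs_le.2 ⟨hlow q, (hle q).trans (abs_le.1 (hg1 q)).2⟩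
  · intro p q
    rw [abs_le]
    have h1 := hlip p q
    have h2 := hlip q p
    rw [dist_comm q p] at h2
    show -(L * dist p q) ≤ (⨅ y, (g y + L * dist p y)) - (⨅ y, (g y + L * dist q y)) ∧
      (⨅ y, (g y + L * dist p y)) - (⨅ y, (g y + L * dist q y)) ≤ L * dist p q
    constructor <;> linarith
  · intro q
    have h1 := hle q
    have h2 := hge q
    show |g q - ⨅ y, (g y + L * dist q y)| ≤ η
    rw [abs_le]
    constructor <;> linarith

private lemma probT322 : IsProbabilityMeasure (volume : Measure T3) := by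
  show IsProbabilityMeasure ((volume : Measure UnitAddCircle).prod (volume : Measure Pool.Agent.Helper53.SM.T2))
  infer_instance

private lemma int22 {h : T3 → ℝ} (hm : Measurable h) {C : ℝ} (hC : ∀ q, |h q| ≤ C) :
    Integrable h (volume : Measure T3) := by
  have := probT322
  exact Integrable.of_bound hm.aestronglyMeasurable C
    (Filter.Eventually.of_forall fun q => by rw [Real.norm_eq_abs]; exact hC q)

theorem lip_dense {f : T3 → ℝ} (hm : Measurable f) (hf : ∀ q, |f q| ≤ 1) {η : ℝ} (hη : 0 < η) :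
    ∃ (f' : T3 → ℝ) (L : ℝ), 0 ≤ L ∧ (∀ q, |f' q| ≤ 1) ∧ (∀ p q, |f' p - f' q| ≤ L * dist p q) ∧
      ∫ q, |f q - f' q| ≤ η := by
  have hP := probT322
  have hfi : Integrable f (volume : Measure T3) := int22 hm hf
  have hfm1 : MemLp f 1 (volume : Measure T3) := memLp_one_iff_integrable.2 hfi
  obtain ⟨g, hg1, hg2⟩ := hfm1.exists_boundedContinuous_eLpNorm_sub_le (by simp)
    (ε := ENNReal.ofReal (η / 2)) (by
      rw [Ne, ENNReal.ofReal_eq_zero, not_le]; positivity)
  have hgi : Integrable (fun q => g q) (volume : Measure T3) := memLp_one_iff_integrable.1 hg2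
  -- truncation
  set g1 : T3 → ℝ := fun q => max (-1) (min 1 (g q)) with hg1d
  have hg1c : Continuous g1 := continuous_const.max (continuous_const.min g.continuous)
  have hg1b : ∀ q, |g1 q| ≤ 1 := by
    intro q
    rw [abs_le]
    exact ⟨le_max_left _ _, max_le (by norm_num) (min_le_left _ _)⟩
  have htr : ∀ q, |f q - g1 q| ≤ |f q - g q| := by
    intro q
    have h1 := abs_le.1 (hf q)
    show |f q - max (-1) (min 1 (g q))| ≤ |f q - g q|
    rcases le_total (g q) 1 with h2 | h2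
    · rw [min_eq_right h2]
      rcases le_total (-1) (g q) with h3 | h3
      · rw [max_eq_right h3]
      · rw [max_eq_left h3, abs_of_nonneg (by linarith), abs_of_nonneg (by linarith)]
        linarith
    · rw [min_eq_left h2, max_eq_right (by norm_num : (-1:ℝ) ≤ 1), abs_of_nonpos (by linarith),
        abs_of_nonpos (by linarith)]
      linarith
  have hL1 : ∫ q, |f q - g q| ≤ η / 2 := by
    have h1 := hg1
    rw [eLpNorm_one_eq_lintegral_enorm] at h1
    have h2 : ∫ q, |f q - g q| = (∫⁻ q, ‖(f - ⇑g) q‖ₑ).toReal := by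
      have := integral_norm_eq_lintegral_enorm (μ := (volume : Measure T3)) (f := f - ⇑g)
        (hfi.sub hgi).aestronglyMeasurable
      rw [← this]
      rfl
    rw [h2]
    exact ENNReal.toReal_le_of_le_ofReal (by positivity) h1
  obtain ⟨f', L, hL, h1, h2, h3⟩ := lipapp22 hg1c hg1b (η := η / 2) (by positivity)
  refine ⟨f', L, hL, h1, h2, ?_⟩
  have hi : Integrable (fun q => |f q - g q| + η / 2) (volume : Measure T3) :=
    (hfi.sub hgi).abs.add (integrable_const _)
  have hb : ∀ q, |f q - f' q| ≤ |f q - g q| + η / 2 := by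
    intro q
    have e : f q - f' q = (f q - g1 q) + (g1 q - f' q) := by ring
    rw [e]
    exact (abs_add_le _ _).trans (add_le_add (htr q) (h3 q))
  calc ∫ q, |f q - f' q| ≤ ∫ q, (|f q - g q| + η / 2) :=
        integral_mono_of_nonneg (Filter.Eventually.of_forall fun q => abs_nonneg _) hi
          (Filter.Eventually.of_forall hb)
    _ = (∫ q, |f q - g q|) + η / 2 := by
        have e : ∫ q, (|f q - g q| + η / 2) = (∫ q, |f q - g q|) + ∫ _ : T3, η / 2 :=
          integral_add (hfi.sub hgi).abs (integrable_const _)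
        rw [e]
        simp
    _ ≤ η := by linarith

theorem near_mixing {a b ε : ℝ} (hb : 10000 ≤ b) (hab : |a| = b ^ 10) (hε : 0 < ε)
    (hε4 : ε ≤ 1 / 4) {K : ℕ} (hK : 2 ≤ K) {f g : T3 → ℝ} (hfm : Measurable f) (hgm : Measurable g)
    (hf : ∀ q, |f q| ≤ 1) (hg : ∀ q, |g q| ≤ 1) :
    ∃ n₀ : ℕ, ∀ n, n₀ ≤ n →
      |(∫ q, f q * g ((dr a ε K)^[n] q)) - (∫ q, f q) * (∫ q, g q)| ≤
        20000 / b + 6 * 10 ^ 7 * (Real.log (1 / ε) / |a| ^ 2) := by
  have hP := probT322
  have hb0 : 0 < b := by linarith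
  obtain ⟨f', L1, hL1, hf1, hf2, hf3⟩ := lip_dense hfm hf (η := 100 / b) (by positivity)
  obtain ⟨g', L2, hL2, hg1, hg2, hg3⟩ := lip_dense hgm hg (η := 100 / b) (by positivity)
  have hfc : Continuous f' := by
    have : LipschitzWith L1.toNNReal f' := by
      apply LipschitzWith.of_dist_le_mul
      intro x y
      rw [Real.coe_toNNReal L1 hL1, Real.dist_eq]
      exact hf2 x y
    exact this.continuous
  have hgc : Continuous g' := by
    have : LipschitzWith L2.toNNReal g' := by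
      apply LipschitzWith.of_dist_le_mul
      intro x y
      rw [Real.coe_toNNReal L2 hL2, Real.dist_eq]
      exact hg2 x y
    exact this.continuous
  have hfm' : Measurable f' := hfc.measurable
  have hgm' : Measurable g' := hgc.measurable
  obtain ⟨n₀, h⟩ := near_lip hb hab hε hε4 hK (L := max L1 L2) (le_max_of_le_left hL1) hf1 hg1
    (fun p q => (hf2 p q).trans (mul_le_mul_of_nonneg_right (le_max_left _ _) dist_nonneg))
    (fun p q => (hg2 p q).trans (mul_le_mul_of_nonneg_right (le_max_right _ _) dist_nonneg))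
  refine ⟨n₀, ?_⟩
  intro n hn
  have h0 := h n hn
  have mT : Measurable ((dr a ε K)^[n]) := (measurable_dr a ε K).iterate _
  have mp : MeasurePreserving ((dr a ε K)^[n]) (volume : Measure T3) volume := (mp_dr a ε hK).iterate n
  have if1 : Integrable f (volume : Measure T3) := int22 hfm hf
  have ig1 : Integrable g (volume : Measure T3) := int22 hgm hg
  have if2 : Integrable f' (volume : Measure T3) := int22 hfm' hf1
  have ig2 : Integrable g' (volume : Measure T3) := int22 hgm' hg1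
  have i1 : Integrable (fun q => f q * g ((dr a ε K)^[n] q)) (volume : Measure T3) :=
    int22 (hfm.mul (hgm.comp mT)) (C := 1) (fun q => by
      rw [abs_mul]; exact mul_le_one₀ (hf q) (abs_nonneg _) (hg _))
  have i2 : Integrable (fun q => f' q * g' ((dr a ε K)^[n] q)) (volume : Measure T3) :=
    int22 (hfm'.mul (hgm'.comp mT)) (C := 1) (fun q => by
      rw [abs_mul]; exact mul_le_one₀ (hf1 q) (abs_nonneg _) (hg1 _))
  have i3 : Integrable (fun q => |f q - f' q|) (volume : Measure T3) := (if1.sub if2).abs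
  have i4 : Integrable (fun q => |g q - g' q|) (volume : Measure T3) := (ig1.sub ig2).abs
  have m4 : Measurable (fun q => |g q - g' q|) := (hgm.sub hgm').abs
  have i5 : Integrable (fun q => |g ((dr a ε K)^[n] q) - g' ((dr a ε K)^[n] q)|)
      (volume : Measure T3) := mp.integrable_comp_of_integrable i4
  have e5 : ∫ q, |g ((dr a ε K)^[n] q) - g' ((dr a ε K)^[n] q)| = ∫ q, |g q - g' q| := by
    have h1 := integral_map (μ := (volume : Measure T3)) mp.measurable.aemeasurable
      (f := fun q => |g q - g' q|) m4.aestronglyMeasurable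
    rw [mp.map_eq] at h1
    exact h1.symm
  have s1 : |(∫ q, f q * g ((dr a ε K)^[n] q)) - ∫ q, f' q * g' ((dr a ε K)^[n] q)| ≤ 200 / b := by
    rw [← integral_sub i1 i2]
    refine (abs_integral_le_integral_abs).trans ?_
    have hb1 : ∀ q, |f q * g ((dr a ε K)^[n] q) - f' q * g' ((dr a ε K)^[n] q)| ≤
        |f q - f' q| + |g ((dr a ε K)^[n] q) - g' ((dr a ε K)^[n] q)| := by
      intro q
      set x := (dr a ε K)^[n] q
      have e : f q * g x - f' q * g' x = (f q - f' q) * g x + f' q * (g x - g' x) := by ring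
      rw [e]
      refine (abs_add_le _ _).trans (add_le_add ?_ ?_)
      · rw [abs_mul]; exact mul_le_of_le_one_right (abs_nonneg _) (hg x)
      · rw [abs_mul]; exact mul_le_of_le_one_left (abs_nonneg _) (hf1 q)
    refine (integral_mono (i1.sub i2).abs (i3.add i5) hb1).trans ?_
    have e6 : ∫ q, ((fun q => |f q - f' q|) + fun q => |g ((dr a ε K)^[n] q) -
        g' ((dr a ε K)^[n] q)|) q = (∫ q, |f q - f' q|) + ∫ q, |g ((dr a ε K)^[n] q) -
        g' ((dr a ε K)^[n] q)| := integral_add i3 i5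
    rw [e6, e5]
    have e7 : 200 / b = 100 / b + 100 / b := by ring
    rw [e7]
    exact add_le_add hf3 hg3
  have d1 : |(∫ q, f q) - ∫ q, f' q| ≤ 100 / b := by
    rw [← integral_sub if1 if2]
    exact (abs_integral_le_integral_abs).trans hf3
  have d2 : |(∫ q, g q) - ∫ q, g' q| ≤ 100 / b := by
    rw [← integral_sub ig1 ig2]
    exact (abs_integral_le_integral_abs).trans hg3
  have b0 : ∀ h : T3 → ℝ, (∀ q, |h q| ≤ 1) → |∫ q, h q| ≤ 1 := by
    intro h hh
    have := norm_integral_le_of_norm_le_const (μ := (volume : Measure T3)) (f := h) (C := 1)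
      (Filter.Eventually.of_forall fun q => by rw [Real.norm_eq_abs]; exact hh q)
    rw [Real.norm_eq_abs] at this
    simpa using this
  have b1 : |∫ q, g q| ≤ 1 := b0 g hg
  have b2 : |∫ q, f' q| ≤ 1 := b0 f' hf1
  have s2 : |(∫ q, f q) * (∫ q, g q) - (∫ q, f' q) * ∫ q, g' q| ≤ 200 / b := by
    set x := ∫ q, f q
    set x' := ∫ q, f' q
    set y := ∫ q, g q
    set y' := ∫ q, g' q
    have e : x * y - x' * y' = (x - x') * y + x' * (y - y') := by ring
    rw [e]
    refine (abs_add_le _ _).trans ?_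
    have e7 : 200 / b = 100 / b + 100 / b := by ring
    rw [e7]
    refine add_le_add ?_ ?_
    · rw [abs_mul]; exact (mul_le_of_le_one_right (abs_nonneg _) b1).trans d1
    · rw [abs_mul]; exact (mul_le_of_le_one_left (abs_nonneg _) b2).trans d2
  have e8 : 20000 / b = 200 / b + 200 / b + 19500 / b + 100 / b := by ring
  have e9 : 0 < 100 / b := by positivity
  set A := ∫ q, f q * g ((dr a ε K)^[n] q)
  set A' := ∫ q, f' q * g' ((dr a ε K)^[n] q)
  set B := (∫ q, f q) * (∫ q, g q)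
  set B' := (∫ q, f' q) * ∫ q, g' q
  have e10 : A - B = (A - A') - (B - B') + (A' - B') := by ring
  rw [e10]
  have t1 := abs_add_le ((A - A') - (B - B')) (A' - B')
  have t2 := abs_sub (A - A') (B - B')
  linarith

end Pool.Agent.Helper18.SD
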