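import Mathlib
import Pool.Agent.Helper18.SD.Coc
import Pool.Agent.Helper18.SD.Erg
import Pool.Agent.Helper18.SD.Near
import Pool.Agent.Helper78.SM.Param

/-! Block SD-EXPO: Lyapunov exponents of the driven map. `β = 1 / b + log (1/ε) / |a| ^ 2`.

Notation: `U q = log (|Phi a q.2.1| + 1)`, `0 <= U <= log (10 |a|)` (`Helper78.SM.abs_log_le`).

* `U_close`. Let `M = 5 log b`, `V q = uM M q.2.1`, `|V| <= M`, `Vb` its Birkhoff limit (`birkhoff_bdd`).
  `|U - log (π |a|) - V| <= tA a M + exp M / |a|` a.e. (`Helper78.SM.log_Phi_le`, `log_Phi_ge`), so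
  (`avg_contract` for `h1 = U - log (π |a|)`, `h2 = V`; `int_tA`)
  `∫ |G - log (π |a|) - Vb| <= 2 exp (-M) + exp M / |a| = 3 / b ^ 5`. By `near_mixing` for `f = g = V / M` and
  `avg_close`: `∫ |Vb - ∫ V| <= M sqrt B`, `B = 20000 / b + 6 * 10 ^ 7 log (1/ε) / |a| ^ 2 <= 6 * 10 ^ 7 β`;
  `|∫ V| <= 2 exp (-M)` (`mean_uM`). Total `<= 5 / b ^ 5 + 5 log b * 7746 * sqrt β <= 4000 log |a| sqrt β`.
  Integrals of functions of `q.2.1` over `T3` are integrals over the circle (the projection is measure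
  preserving).
* `exp_close`. `kingman_bdd` for `g n q = log ‖DT a ε K n q‖` gives `Λ`, `birkhoff_bdd` for `U` gives `G`;
  `Λ <= G` a.e. (`log_DT_le`), `∫ G = ∫ U = ∫ log (|Phi| + 1)`,
  `∫ Λ = lim (1/n) ∫ log ‖DT n‖ >= ∫ gg (Phi) - 88 log b (N κ + 9 / b)` (`int_log_DT_ge`), so by `int_diff`
  `∫ (G - Λ) <= log b / b + 88 log b (N κ + 9 / b)`, where (`choose_N'`, `κ = 163840 log b / b ^ 20`)
  `88 log b N κ <= 240300 log |a| log (1/ε) / |a| ^ 2 + 1 / b`. Add `U_close`. -/

set_option autoImplicit false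
open Real Set MeasureTheory Filter Topology
open scoped ENNReal

namespace Pool.Agent.Helper18.SD

open Pool.Agent.Helper53.SM (T2)
open Pool.Agent.Helper78.SM (psi phi dphi sq csn snn mk2 Phi gg L DX)

attribute [local instance] Pool.Agent.Helper53.SM.instProbU Pool.Agent.Helper53.SM.instProbT2

private lemma mpp53 : MeasurePreserving (fun q : T3 => q.2.1) (volume : Measure T3)
    (volume : Measure UnitAddCircle) := by
  have h1 : MeasurePreserving (Prod.snd : UnitAddCircle × T2 → T2)
      ((volume : Measure UnitAddCircle).prod (volume : Measure T2)) (volume : Measure T2) :=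
    measurePreserving_snd
  have h2 : MeasurePreserving (Prod.fst : UnitAddCircle × UnitAddCircle → UnitAddCircle)
      ((volume : Measure UnitAddCircle).prod (volume : Measure UnitAddCircle))
      (volume : Measure UnitAddCircle) :=
    measurePreserving_fst
  exact h2.comp h1

private lemma int_proj53 {g : UnitAddCircle → ℝ} (hg : Measurable g) :
    ∫ q : T3, g q.2.1 = ∫ θ : UnitAddCircle, g θ := by
  calc ∫ q : T3, g q.2.1 = ∫ θ, g θ ∂(Measure.map (fun q : T3 => q.2.1) volume) :=
        (integral_map mpp53.measurable.aemeasurable hg.aestronglyMeasurable).symm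
    _ = _ := by rw [mpp53.map_eq]

theorem U_close {a b ε : ℝ} (hb : 10000 ≤ b) (hab : |a| = b ^ 10) (hε : 0 < ε) (hε4 : ε ≤ 1 / 4)
    {K : ℕ} (hK : 2 ≤ K) {G : T3 → ℝ} (hG : Measurable G)
    (hGb : ∀ q, |G q| ≤ Real.log (10 * |a|))
    (hlim : ∀ᵐ q, Tendsto (fun n : ℕ => (∑ k ∈ Finset.range n,
      Real.log (|Phi a ((dr a ε K)^[k] q).2.1| + 1)) / n) atTop (𝓝 (G q))) :
    ∫ q, |G q - Real.log (π * |a|)| ≤
      4000 * Real.log |a| * Real.sqrt (1 / b + Real.log (1 / ε) / |a| ^ 2) := by
  have hb0 : (0:ℝ) < b := by linarith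
  have hb1 : (1:ℝ) ≤ b := by linarith
  have ha1 : 1 ≤ |a| := by rw [hab]; exact one_le_pow₀ hb1
  have ha0 : 0 < |a| := by linarith
  have hlb : 1 ≤ Real.log b := by
    rw [Real.le_log_iff_exp_le hb0]
    have := Real.exp_one_lt_d9
    linarith
  have hla : Real.log |a| = 10 * Real.log b := by
    rw [hab, Real.log_pow]; norm_num
  set M : ℝ := 5 * Real.log b with hM
  have hM1 : 1 ≤ M := by rw [hM]; linarith
  have hM0 : 0 < M := by linarith
  have hexpM : Real.exp M = b ^ 5 := by
    rw [hM]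
    have : (5:ℝ) * Real.log b = Real.log (b ^ 5) := by rw [Real.log_pow]; norm_num
    rw [this, Real.exp_log (by positivity)]
  have hexpm : Real.exp (-M) = 1 / b ^ 5 := by
    rw [Real.exp_neg, hexpM, one_div]
  have hquot : Real.exp M / |a| = 1 / b ^ 5 := by
    rw [hexpM, hab]; field_simp
  have hT := mp_dr a ε hK
  set c : ℝ := Real.log (π * |a|) with hc
  set V : T3 → ℝ := fun q => Pool.Agent.Helper78.SM.uM M q.2.1 with hV
  have hVm : Measurable V := (Pool.Agent.Helper78.SM.measurable_uM M).comp mpp53.measurable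
  have hVM : ∀ q, |V q| ≤ M := fun q => Pool.Agent.Helper78.SM.abs_uM_le hM1 _
  obtain ⟨Vb, hVbm, hVbM, hVbinv, hVblim, -⟩ := birkhoff_bdd hT hVm hVM
  -- first comparison
  set U : T3 → ℝ := fun q => Real.log (|Phi a q.2.1| + 1) with hU
  have hUm : Measurable U := by
    have h1 : Measurable (fun θ : UnitAddCircle => Real.log (|Phi a θ| + 1)) :=
      Real.measurable_log.comp
        ((continuous_abs.measurable.comp (Pool.Agent.Helper78.SM.measurable_Phi a)).add_const 1)
    exact h1.comp mpp53.measurable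
  have hUb : ∀ q, |U q| ≤ Real.log (10 * |a|) := fun q =>
    Pool.Agent.Helper78.SM.abs_log_le ha1 _
  have hlim1 : ∀ᵐ q, Tendsto (fun n : ℕ => (∑ k ∈ Finset.range n,
      (fun q => U q - c) ((dr a ε K)^[k] q)) / n) atTop (𝓝 ((fun q => G q - c) q)) := by
    filter_upwards [hlim] with q hq
    have h1 := hq.sub_const c
    refine h1.congr' ?_
    filter_upwards [eventually_ge_atTop 1] with n hn
    have hn0 : (n:ℝ) ≠ 0 := by positivity
    simp only [hU]
    rw [Finset.sum_sub_distrib, Finset.sum_const, Finset.card_range, nsmul_eq_mul, sub_div,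
      mul_div_cancel_left₀ _ hn0]
  have hcomp : ∫ q, |(G q - c) - Vb q| ≤ ∫ q, |(U q - c) - V q| := by
    refine avg_contract hT (h1 := fun q => U q - c) (h2 := V) (G1 := fun q => G q - c) (G2 := Vb)
      (hUm.sub_const c) hVm (hG.sub_const c) hVbm (C := Real.log (10 * |a|) + |c| + M) ?_ ?_
      hlim1 hVblim
    · intro q
      have h1 := abs_sub (U q) c
      have h2 := hUb q
      linarith
    · intro q
      have h1 := hVM q
      have h2 : 0 ≤ Real.log (10 * |a|) := (abs_nonneg _).trans (hUb q)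
      have h3 := abs_nonneg c
      linarith
  have hpt : ∀ᵐ q : T3, |(U q - c) - V q| ≤
      Pool.Agent.Helper78.SM.tA a M q.2.1 + Real.exp M / |a| := by
    have h0 : ∀ᵐ q : T3, Phi a q.2.1 ≠ 0 :=
      mpp53.quasiMeasurePreserving.ae (Pool.Agent.Helper78.SM.Phi_ne_ae ha1)
    filter_upwards [h0] with q hq
    have h1 := Pool.Agent.Helper78.SM.log_Phi_ge (M := M) ha1 hq
    have h2 := Pool.Agent.Helper78.SM.log_Phi_le (M := M) ha1 q.2.1
    have h3 : Real.log |Phi a q.2.1| ≤ Real.log (|Phi a q.2.1| + 1) :=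
      Real.log_le_log (abs_pos.2 hq) (by linarith)
    have h4 := Pool.Agent.Helper78.SM.tA_nonneg a M q.2.1
    rw [abs_le]
    simp only [hU, hV, hc]
    constructor <;> linarith
  have itA : Integrable (fun q : T3 => Pool.Agent.Helper78.SM.tA a M q.2.1) := by
    have h1 := Pool.Agent.Helper78.SM.integrable_tA (M := M) ha1
    exact mpp53.integrable_comp_of_integrable h1
  have iUV : Integrable (fun q : T3 => |(U q - c) - V q|) := by
    have h1 : Integrable (fun q : T3 => (U q - c) - V q) := by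
      refine Integrable.of_bound (((hUm.sub_const c).sub hVm).aestronglyMeasurable)
        (Real.log (10 * |a|) + |c| + M) ?_
      refine Filter.Eventually.of_forall fun q => ?_
      rw [Real.norm_eq_abs]
      have h1 := abs_sub (U q - c) (V q)
      have h2 := abs_sub (U q) c
      have h3 := hUb q
      have h4 := hVM q
      linarith
    exact h1.abs
  have hfirst : ∫ q, |(G q - c) - Vb q| ≤ 3 / b ^ 5 := by
    refine hcomp.trans ?_
    have h1 : ∫ q, |(U q - c) - V q| ≤
        ∫ q : T3, (Pool.Agent.Helper78.SM.tA a M q.2.1 + Real.exp M / |a|) :=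
      integral_mono_ae iUV (itA.add (integrable_const _)) hpt
    have h2 : ∫ q : T3, (Pool.Agent.Helper78.SM.tA a M q.2.1 + Real.exp M / |a|) =
        (∫ q : T3, Pool.Agent.Helper78.SM.tA a M q.2.1) + Real.exp M / |a| := by
      rw [integral_add itA (integrable_const _)]
      simp
    rw [h2, int_proj53 (Pool.Agent.Helper78.SM.measurable_tA a M), hquot] at h1
    have h3 := Pool.Agent.Helper78.SM.int_tA (a := a) (M := M) ha1
    rw [hexpm] at h3
    have h4 : 3 / b ^ 5 = 2 * (1 / b ^ 5) + 1 / b ^ 5 := by ring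
    linarith
  -- second comparison
  set B : ℝ := 20000 / b + 6 * 10 ^ 7 * (Real.log (1 / ε) / |a| ^ 2) with hB
  set m : ℝ := ∫ q, V q with hm
  have hsecond : ∫ q, |Vb q - m| ≤ M * Real.sqrt B := by
    refine avg_close hT hVm hVbm hVM hVbM hVbinv hVblim ?_
    obtain ⟨n₀, hn₀⟩ := near_mixing hb hab hε hε4 hK (f := fun q => V q / M) (g := fun q => V q / M)
      (hVm.div_const M) (hVm.div_const M)
      (fun q => by rw [abs_div, abs_of_pos hM0, div_le_one hM0]; exact hVM q)
      (fun q => by rw [abs_div, abs_of_pos hM0, div_le_one hM0]; exact hVM q)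
    refine ⟨n₀, fun n hn => ?_⟩
    have h1 := hn₀ n hn
    have e1 : ∫ q, V q / M * (V ((dr a ε K)^[n] q) / M) =
        (∫ q, V q * V ((dr a ε K)^[n] q)) / M ^ 2 := by
      rw [← integral_div]
      refine integral_congr_ae (Filter.Eventually.of_forall fun q => ?_)
      simp only
      field_simp
    have e2 : ∫ q, V q / M = m / M := by
      rw [hm, integral_div]
    rw [e1, e2] at h1
    have e3 : (∫ q, V q * V ((dr a ε K)^[n] q)) / M ^ 2 - m / M * (m / M) =
        ((∫ q, V q * V ((dr a ε K)^[n] q)) - m ^ 2) / M ^ 2 := by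
      field_simp
    rw [e3, abs_div, abs_of_pos (show 0 < M ^ 2 by positivity),
      div_le_iff₀ (show 0 < M ^ 2 by positivity)] at h1
    rw [mul_comm]
    exact h1
  have hmean : |m| ≤ 2 / b ^ 5 := by
    have h1 := Pool.Agent.Helper78.SM.mean_uM hM1
    rw [hexpm] at h1
    rw [hm, hV]
    rw [int_proj53 (g := Pool.Agent.Helper78.SM.uM M) (Pool.Agent.Helper78.SM.measurable_uM M)]
    refine h1.trans (le_of_eq ?_)
    ring
  -- total
  have iA : Integrable (fun q : T3 => |(G q - c) - Vb q|) := by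
    have h1 : Integrable (fun q : T3 => (G q - c) - Vb q) := by
      refine Integrable.of_bound (((hG.sub_const c).sub hVbm).aestronglyMeasurable)
        (Real.log (10 * |a|) + |c| + M) ?_
      refine Filter.Eventually.of_forall fun q => ?_
      rw [Real.norm_eq_abs]
      have h1 := abs_sub (G q - c) (Vb q)
      have h2 := abs_sub (G q) c
      have h3 := hGb q
      have h4 := hVbM q
      linarith
    exact h1.abs
  have iB : Integrable (fun q : T3 => |Vb q - m|) := by
    have h1 : Integrable (fun q : T3 => Vb q - m) := by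
      refine Integrable.of_bound ((hVbm.sub_const m).aestronglyMeasurable) (M + |m|) ?_
      refine Filter.Eventually.of_forall fun q => ?_
      rw [Real.norm_eq_abs]
      have h1 := abs_sub (Vb q) m
      have h4 := hVbM q
      linarith
    exact h1.abs
  have iG : Integrable (fun q : T3 => |G q - c|) := by
    have h1 : Integrable (fun q : T3 => G q - c) := by
      refine Integrable.of_bound ((hG.sub_const c).aestronglyMeasurable)
        (Real.log (10 * |a|) + |c|) ?_
      refine Filter.Eventually.of_forall fun q => ?_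
      rw [Real.norm_eq_abs]
      have h2 := abs_sub (G q) c
      have h3 := hGb q
      linarith
    exact h1.abs
  have htot : ∫ q, |G q - c| ≤ 3 / b ^ 5 + M * Real.sqrt B + 2 / b ^ 5 := by
    have h1 : ∫ q, |G q - c| ≤ ∫ q, ((|(G q - c) - Vb q| + |Vb q - m|) + |m|) := by
      refine integral_mono iG ((iA.add iB).add (integrable_const _)) fun q => ?_
      simp only
      have h2 : G q - c = ((G q - c) - Vb q) + (Vb q - m) + m := by ring
      calc |G q - c| = |((G q - c) - Vb q) + (Vb q - m) + m| := by rw [← h2]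
        _ ≤ |((G q - c) - Vb q) + (Vb q - m)| + |m| := abs_add_le _ _
        _ ≤ _ := by
          have := abs_add_le ((G q - c) - Vb q) (Vb q - m)
          linarith
    have h2 : ∫ q, ((|(G q - c) - Vb q| + |Vb q - m|) + |m|) =
        (∫ q, |(G q - c) - Vb q|) + (∫ q, |Vb q - m|) + |m| := by
      have h3 : Integrable (fun q : T3 => |(G q - c) - Vb q| + |Vb q - m|) := iA.add iB
      rw [integral_add h3 (integrable_const _), integral_add iA iB]
      simp
    rw [h2] at h1
    linarith
  set β : ℝ := 1 / b + Real.log (1 / ε) / |a| ^ 2 with hβ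
  have hle : 0 ≤ Real.log (1 / ε) := by
    apply Real.log_nonneg
    rw [le_div_iff₀ hε]; linarith
  have hβ1 : 1 / b ≤ β := by
    rw [hβ]
    have : 0 ≤ Real.log (1 / ε) / |a| ^ 2 := by positivity
    linarith
  have hβ0 : 0 ≤ β := le_trans (by positivity) hβ1
  have hBβ : B ≤ 7746 ^ 2 * β := by
    rw [hB, hβ]
    have h1 : 0 ≤ Real.log (1 / ε) / |a| ^ 2 := by positivity
    have h2 : 0 < 1 / b := by positivity
    have h3 : 20000 / b = 20000 * (1 / b) := by ring
    rw [h3]
    nlinarith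
  have hsq : Real.sqrt B ≤ 7746 * Real.sqrt β := by
    calc Real.sqrt B ≤ Real.sqrt (7746 ^ 2 * β) := Real.sqrt_le_sqrt hBβ
      _ = 7746 * Real.sqrt β := by
        rw [Real.sqrt_mul (by positivity), Real.sqrt_sq (by norm_num)]
  have hs1 : 1 / b ≤ Real.sqrt β := by
    rw [show 1 / b = Real.sqrt ((1 / b) ^ 2) from (Real.sqrt_sq (by positivity)).symm]
    apply Real.sqrt_le_sqrt
    have h1 : 1 / b ≤ 1 := by rw [div_le_one hb0]; exact hb1
    have h2 : 0 < 1 / b := by positivity
    nlinarith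
  have hs0 : 0 ≤ Real.sqrt β := Real.sqrt_nonneg _
  have h5 : 5 / b ^ 5 ≤ 5 * Real.sqrt β := by
    have h6 : 1 / b ^ 5 ≤ 1 / b := by
      apply one_div_le_one_div_of_le hb0
      calc b = b ^ 1 := (pow_one b).symm
        _ ≤ b ^ 5 := pow_le_pow_right₀ hb1 (by norm_num)
    have h7 : 5 / b ^ 5 = 5 * (1 / b ^ 5) := by ring
    rw [h7]
    linarith
  have h6 : M * Real.sqrt B ≤ (5 * Real.log b) * (7746 * Real.sqrt β) := by
    rw [hM]
    exact mul_le_mul_of_nonneg_left hsq (by linarith)
  rw [hla]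
  have h7 : 3 / b ^ 5 + 2 / b ^ 5 = 5 / b ^ 5 := by ring
  have h8 : 5 * Real.sqrt β ≤ 5 * (Real.log b * Real.sqrt β) := by
    have : 1 * Real.sqrt β ≤ Real.log b * Real.sqrt β := mul_le_mul_of_nonneg_right hlb hs0
    linarith
  have h9 : 0 ≤ Real.log b * Real.sqrt β := by positivity
  nlinarith

private lemma numexp35 {a b ε : ℝ} (hb : 10000 ≤ b) (hab : |a| = b ^ 10) (hε : 0 < ε)
    (hε4 : ε ≤ 1 / 4) {N : ℕ} (hN : (N:ℝ) ≤ Real.log (1 / ε) / (6 * Real.log b) + 13) :
    Real.log b / b + 88 * Real.log b * (N * (4 * 4096 * Real.log |a| / |a| ^ 2) + 9 / b) ≤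
      Real.log |a| * (250000 * (1 / b + Real.log (1 / ε) / |a| ^ 2)) := by
  have hb0 : 0 < b := by linarith
  have hb1 : 1 < b := by linarith
  have hlb1 : 1 ≤ Real.log b := by
    rw [Real.le_log_iff_exp_le hb0]
    have := Real.exp_one_lt_d9
    linarith
  have hlbb : Real.log b ≤ b := (Real.log_le_sub_one_of_pos hb0).trans (by linarith)
  have hla : Real.log |a| = 10 * Real.log b := by rw [hab, Real.log_pow]; norm_num
  have hle : 0 ≤ Real.log (1 / ε) := by
    apply Real.log_nonneg
    rw [le_div_iff₀ hε]; linarith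
  set l := Real.log b with hl
  set e := Real.log (1 / ε) with he
  have hl0 : 0 < l := by linarith
  have ha2 : |a| ^ 2 = b ^ 20 := by rw [hab]; ring
  rw [hla, ha2]
  have hk : 0 ≤ 4 * 4096 * (10 * l) / b ^ 20 := by positivity
  have h1 : 88 * l * (N * (4 * 4096 * (10 * l) / b ^ 20)) ≤
      88 * l * ((e / (6 * l) + 13) * (4 * 4096 * (10 * l) / b ^ 20)) := by
    gcongr
  have h2 : 88 * l * ((e / (6 * l) + 13) * (4 * 4096 * (10 * l) / b ^ 20)) =
      (88 * 4 * 4096 * 10 / 6) * (l * (e / b ^ 20)) + (88 * 13 * 4 * 4096 * 10) * (l * (l / b ^ 20)) := by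
    field_simp
  have h3 : l / b ^ 20 ≤ (1 / 10 ^ 8) * (1 / b) := by
    rw [div_mul_div_comm, div_le_div_iff₀ (by positivity) (by positivity)]
    have h4 : (10:ℝ) ^ 8 ≤ b ^ 18 := by
      calc (10:ℝ) ^ 8 ≤ 10000 ^ 18 := by norm_num
        _ ≤ b ^ 18 := by gcongr
    calc l * (10 ^ 8 * b) ≤ b * (b ^ 18 * b) := by gcongr
      _ = 1 * 1 * b ^ 20 := by ring
  have h5 : l * (l / b ^ 20) ≤ l * ((1 / 10 ^ 8) * (1 / b)) := by gcongr
  have h6 : 0 ≤ l * (e / b ^ 20) := by positivity
  have h7 : 0 ≤ l * (1 / b) := by positivity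
  have h8 : l / b = l * (1 / b) := by ring
  have h9 : 88 * l * (N * (4 * 4096 * (10 * l) / b ^ 20) + 9 / b) =
      88 * l * (N * (4 * 4096 * (10 * l) / b ^ 20)) + 792 * (l * (1 / b)) := by ring
  rw [h9, h8]
  have h10 : 10 * l * (250000 * (1 / b + e / b ^ 20)) =
      2500000 * (l * (1 / b)) + 2500000 * (l * (e / b ^ 20)) := by ring
  rw [h10]
  nlinarith

private lemma mpc35 : MeasurePreserving (fun q : T3 => q.2.1) (volume : Measure T3)
    (volume : Measure UnitAddCircle) := by
  have h1 : MeasurePreserving (Prod.snd : UnitAddCircle × T2 → T2) volume volume :=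
    measurePreserving_snd
  have h2 : MeasurePreserving (Prod.fst : UnitAddCircle × UnitAddCircle → UnitAddCircle)
      volume volume := measurePreserving_fst
  exact h2.comp h1

theorem exp_close {a b ε : ℝ} (hb : 10000 ≤ b) (hab : |a| = b ^ 10) (hε : 0 < ε) (hε4 : ε ≤ 1 / 4)
    {K : ℕ} (hK : 2 ≤ K) :
    ∃ Λ : T3 → ℝ, Measurable Λ ∧ Integrable Λ ∧ (∀ᵐ q, Λ (dr a ε K q) = Λ q) ∧
      (∀ᵐ q, Tendsto (fun n : ℕ => Real.log ‖DT a ε K n q‖ / n) atTop (𝓝 (Λ q))) ∧
      ∫ q, |Λ q - Real.log (π * |a|)| ≤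
        Real.log |a| * (4000 * Real.sqrt (1 / b + Real.log (1 / ε) / |a| ^ 2) +
          250000 * (1 / b + Real.log (1 / ε) / |a| ^ 2)) := by
  have hb0 : 0 < b := by linarith
  have hb1 : 1 ≤ b := by linarith
  have ha1 : 1 ≤ |a| := by rw [hab]; exact one_le_pow₀ hb1
  obtain ⟨N, hN, hN2, hN3⟩ := choose_N' (b := b) (ε := ε) (by linarith) hε hε4
  have hmp := mp_dr a ε hK
  obtain ⟨Λ, hΛm, hΛb, hΛinv, hΛlim, hΛint⟩ := kingman_bdd (μ := (volume : Measure T3)) hmp
    (g := fun n q => Real.log ‖DT a ε K n q‖) (measurable_log_DT a ε K)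
    (C := Real.log (10 * |a|)) (fun n q => abs_log_DT_le ha1 ε K n q)
    (fun n m q => log_DT_sub a ε K n m q)
  have hum : Measurable (fun θ : UnitAddCircle => Real.log (|Phi a θ| + 1)) :=
    Real.measurable_log.comp ((continuous_abs.measurable.comp
      (Pool.Agent.Helper78.SM.measurable_Phi a)).add_const 1)
  have hUm : Measurable (fun q : T3 => Real.log (|Phi a q.2.1| + 1)) := hum.comp mpc35.measurable
  obtain ⟨G, hGm, hGb, hGinv, hGlim, hGint⟩ := birkhoff_bdd (μ := (volume : Measure T3)) hmp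
    (h := fun q : T3 => Real.log (|Phi a q.2.1| + 1)) hUm (C := Real.log (10 * |a|))
    (fun q => Pool.Agent.Helper78.SM.abs_log_le ha1 q.2.1)
  have hU := U_close hb hab hε hε4 hK hGm hGb hGlim
  have hΛi : Integrable Λ (volume : Measure T3) :=
    Integrable.of_bound hΛm.aestronglyMeasurable (Real.log (10 * |a|))
      (Eventually.of_forall fun q => by rw [Real.norm_eq_abs]; exact hΛb q)
  have hGi : Integrable G (volume : Measure T3) :=
    Integrable.of_bound hGm.aestronglyMeasurable (Real.log (10 * |a|))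
      (Eventually.of_forall fun q => by rw [Real.norm_eq_abs]; exact hGb q)
  -- the integral of the upper bound
  have hGint2 : ∫ q, G q = ∫ θ : UnitAddCircle, Real.log (|Phi a θ| + 1) := by
    rw [hGint, ← mpc35.map_eq, integral_map mpc35.measurable.aemeasurable
      hum.aestronglyMeasurable]
  -- the integral of the exponent
  have hΛge : (∫ θ : UnitAddCircle, gg (Phi a θ)) - 88 * Real.log b *
      (N * (4 * 4096 * Real.log |a| / |a| ^ 2) + 9 / b) ≤ ∫ q, Λ q := by
    refine ge_of_tendsto hΛint ?_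
    filter_upwards [eventually_gt_atTop 0] with n hn
    have hn0 : (0:ℝ) < n := by exact_mod_cast hn
    rw [le_div_iff₀ hn0, mul_comm]
    exact int_log_DT_ge (by linarith) hab hε hε4 hK hN hN2 n
  have hdiff := int_diff (a := a) (b := b) (by linarith) hab
  have hnum := numexp35 hb hab hε hε4 hN3
  have hle : ∀ᵐ q : T3, Λ q ≤ G q := by
    filter_upwards [hΛlim, hGlim] with q h1 h2
    refine le_of_tendsto_of_tendsto' h1 h2 fun n => ?_
    exact div_le_div_of_nonneg_right (log_DT_le a ε K n q) (Nat.cast_nonneg n)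
  refine ⟨Λ, hΛm, hΛi, hΛinv, hΛlim, ?_⟩
  have hci : Integrable (fun q : T3 => G q - Real.log (π * |a|)) := hGi.sub (integrable_const _)
  have hGLi : Integrable (fun q : T3 => G q - Λ q) := hGi.sub hΛi
  have hmono : ∫ q : T3, |Λ q - Real.log (π * |a|)| ≤
      ∫ q : T3, ((G q - Λ q) + |G q - Real.log (π * |a|)|) := by
    refine integral_mono_ae (hΛi.sub (integrable_const _)).abs (hGLi.add hci.abs) ?_
    filter_upwards [hle] with q hq
    show |Λ q - Real.log (π * |a|)| ≤ (G q - Λ q) + |G q - Real.log (π * |a|)|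
    have e : Λ q - Real.log (π * |a|) = -(G q - Λ q) + (G q - Real.log (π * |a|)) := by ring
    rw [e]
    refine (abs_add_le _ _).trans ?_
    rw [abs_neg, abs_of_nonneg (sub_nonneg.2 hq)]
  rw [integral_add hGLi hci.abs, integral_sub hGi hΛi, hGint2] at hmono
  calc ∫ q : T3, |Λ q - Real.log (π * |a|)| ≤ _ := hmono
    _ ≤ Real.log |a| * (250000 * (1 / b + Real.log (1 / ε) / |a| ^ 2)) +
        4000 * Real.log |a| * Real.sqrt (1 / b + Real.log (1 / ε) / |a| ^ 2) := by linarith
    _ = _ := by ring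

end Pool.Agent.Helper18.SD
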