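import Mathlib
import Pool.Agent.Helper18.SD.Expo

/-! Block SD-FIN: final form for the driven map.

* `driven_unique`: a map `F` with the formula is `dr a ε K` (every point of `T3` has real
  representatives, `dr_coe`).
* `component`: `near_mixing` with `f = g =` indicator of an invariant set `A`:
  `μ A (1 - μ A) <= B := 20000 / b + 6 * 10 ^ 7 log (1/ε) / |a| ^ 2`; `exists_component`.
* `ae_space`: the map `(θ, p) ↦ (class of θ, mk2 p)` is locally measure preserving (cover the space by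
  integer translates of the unit cube; `mp_mk2`, `AddCircle.measurePreserving_mk`).
* `main`: `b = |a| ^ (1/10)`, `β = 1 / b + log (1/ε) / |a| ^ 2`, correlations are always
  at most `2`: take `C = 2 * 10 ^ 9`; in the case `10 ^ 9 β >= 1` put `E = ∅`,
  `lam = log (π |a|)`. If `10 ^ 9 β < 1` then `b > 10 ^ 9`,
  `B <= 6 * 10 ^ 7 β < 1 / 8`, `near_mixing`, and the set `E` from `component` has `μ E >= 1 / 2`;
  `const_on_component` for `Λ` of `exp_close` gives `lam` with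
  `|lam - log (π |a|)| μ E <= ∫ |Λ - log (π |a|)| <= log |a| (4000 sqrt β + 250000 β)`,
  `β <= sqrt β`. The a.e. statement in the space: `ae_space`, `fderiv_gp`. -/

set_option autoImplicit false
open Real Set MeasureTheory Filter Topology
open scoped ENNReal

namespace Pool.Agent.Helper18.SD

open Pool.Agent.Helper53.SM (T2)
open Pool.Agent.Helper78.SM (psi phi dphi sq csn snn mk2 Phi gg L DX)

attribute [local instance] Pool.Agent.Helper53.SM.instProbU Pool.Agent.Helper53.SM.instProbT2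

theorem driven_unique {a ε : ℝ} {K : ℕ} {F : T3 → T3}
    (hF : ∀ θ x y : ℝ, F ((θ : UnitAddCircle), (x : UnitAddCircle), (y : UnitAddCircle)) =
      (((K * θ : ℝ) : UnitAddCircle), ((2 * x - y + a * Real.sin (2 * π * x) +
        ε * Real.sin (2 * π * θ) : ℝ) : UnitAddCircle), (x : UnitAddCircle))) :
    F = dr a ε K := by
  funext q
  obtain ⟨θ', x', y'⟩ := q
  obtain ⟨θ, rfl⟩ := QuotientAddGroup.mk_surjective θ'
  obtain ⟨x, rfl⟩ := QuotientAddGroup.mk_surjective x'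
  obtain ⟨y, rfl⟩ := QuotientAddGroup.mk_surjective y'
  exact (hF θ x y).trans (dr_coe a ε K θ x y).symm

theorem component {a b ε : ℝ} (hb : 10000 ≤ b) (hab : |a| = b ^ 10) (hε : 0 < ε) (hε4 : ε ≤ 1 / 4)
    {K : ℕ} (hK : 2 ≤ K) (hB : 20000 / b + 6 * 10 ^ 7 * (Real.log (1 / ε) / |a| ^ 2) < 1 / 8) :
    ∃ E : Set T3, MeasurableSet E ∧ (dr a ε K) ⁻¹' E = E ∧
      1 - 2 * (20000 / b + 6 * 10 ^ 7 * (Real.log (1 / ε) / |a| ^ 2)) ≤
        (volume : Measure T3).real E ∧
      ∀ A : Set T3, MeasurableSet A → (dr a ε K) ⁻¹' A = A →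
        volume (A ∩ E) = 0 ∨ volume (E \ A) = 0 := by
  refine exists_component (mp_dr a ε hK) hB fun A hA hinv => ?_
  have hfm : Measurable (A.indicator (fun _ => (1:ℝ))) := measurable_const.indicator hA
  have hf1 : ∀ q, |A.indicator (fun _ => (1:ℝ)) q| ≤ 1 := by
    intro q
    by_cases hq : q ∈ A
    · rw [Set.indicator_of_mem hq, abs_one]
    · rw [Set.indicator_of_notMem hq, abs_zero]; exact zero_le_one
  obtain ⟨n₀, hn₀⟩ := near_mixing hb hab hε hε4 hK hfm hfm hf1 hf1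
  have h := hn₀ n₀ le_rfl
  have hit : ∀ n : ℕ, ∀ q, (dr a ε K)^[n] q ∈ A ↔ q ∈ A := by
    intro n
    induction n with
    | zero => intro q; rfl
    | succ n ih =>
      intro q
      rw [Function.iterate_succ_apply, ih]
      constructor
      · intro hq
        rw [← hinv]
        exact hq
      · intro hq
        rw [← hinv] at hq
        exact hq
  have e1 : ∀ q, A.indicator (fun _ => (1:ℝ)) q *
      A.indicator (fun _ => (1:ℝ)) ((dr a ε K)^[n₀] q) = A.indicator (fun _ => (1:ℝ)) q := by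
    intro q
    by_cases hq : q ∈ A
    · rw [Set.indicator_of_mem hq, Set.indicator_of_mem ((hit n₀ q).mpr hq), mul_one]
    · rw [Set.indicator_of_notMem hq, zero_mul]
  have e2 : ∫ q : T3, A.indicator (fun _ => (1:ℝ)) q = (volume : Measure T3).real A := by
    rw [integral_indicator hA, integral_const, smul_eq_mul, mul_one, Measure.real,
      Measure.restrict_apply_univ, Measure.real]
  simp_rw [e1] at h
  rw [e2] at h
  have h2 := (abs_le.mp h).2
  calc (volume : Measure T3).real A * (1 - (volume : Measure T3).real A)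
      = (volume : Measure T3).real A - (volume : Measure T3).real A * (volume : Measure T3).real A := by
        ring
    _ ≤ _ := h2

/-- a property that holds almost everywhere on the torus holds almost everywhere in the space -/
theorem ae_space {P : T3 → Prop} (h : ∀ᵐ q, P q) :
    ∀ᵐ z : ℝ × (ℝ × ℝ), P ((z.1 : UnitAddCircle), mk2 z.2) := by
  have key : ∀ w : ℤ × (ℤ × ℤ), ∀ᵐ z : ℝ × (ℝ × ℝ) ∂((volume : Measure (ℝ × (ℝ × ℝ))).restrict
      (Ioc (w.1 : ℝ) (w.1 + 1) ×ˢ (Ioc (w.2.1 : ℝ) (w.2.1 + 1) ×ˢ Ioc (w.2.2 : ℝ) (w.2.2 + 1)))),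
      P ((z.1 : UnitAddCircle), mk2 z.2) := by
    intro w
    have h2 := (UnitAddCircle.measurePreserving_mk (w.2.1 : ℝ)).prod
      (UnitAddCircle.measurePreserving_mk (w.2.2 : ℝ))
    rw [Measure.prod_restrict] at h2
    have h3 := (UnitAddCircle.measurePreserving_mk (w.1 : ℝ)).prod h2
    rw [Measure.prod_restrict] at h3
    exact h3.quasiMeasurePreserving.ae h
  have hU := (ae_restrict_iUnion_iff (μ := (volume : Measure (ℝ × (ℝ × ℝ))))
    (fun w : ℤ × (ℤ × ℤ) => Ioc (w.1 : ℝ) (w.1 + 1) ×ˢ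
      (Ioc (w.2.1 : ℝ) (w.2.1 + 1) ×ˢ Ioc (w.2.2 : ℝ) (w.2.2 + 1)))
    (fun z : ℝ × (ℝ × ℝ) => P ((z.1 : UnitAddCircle), mk2 z.2))).mpr key
  have hcov : (⋃ w : ℤ × (ℤ × ℤ), Ioc (w.1 : ℝ) (w.1 + 1) ×ˢ
      (Ioc (w.2.1 : ℝ) (w.2.1 + 1) ×ˢ Ioc (w.2.2 : ℝ) (w.2.2 + 1))) =
      (Set.univ : Set (ℝ × (ℝ × ℝ))) := by
    rw [Set.eq_univ_iff_forall]
    intro z
    have hx : ∀ x : ℝ, x ∈ Ioc ((⌈x⌉ - 1 : ℤ) : ℝ) (((⌈x⌉ - 1 : ℤ) : ℝ) + 1) := by
      intro x
      push_cast
      have h1 := Int.ceil_lt_add_one x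
      have h2 := Int.le_ceil x
      constructor <;> linarith
    rw [Set.mem_iUnion]
    exact ⟨(⌈z.1⌉ - 1, (⌈z.2.1⌉ - 1, ⌈z.2.2⌉ - 1)), hx _, hx _, hx _⟩
  rw [hcov, Measure.restrict_univ] at hU
  exact hU

private lemma probT314 : IsProbabilityMeasure (volume : Measure T3) := by
  show IsProbabilityMeasure ((volume : Measure UnitAddCircle).prod (volume : Measure T2))
  infer_instance

private lemma crude14 {a ε : ℝ} {K : ℕ} {f g : T3 → ℝ}
    (hf : ∀ q, |f q| ≤ 1) (hg : ∀ q, |g q| ≤ 1) (n : ℕ) :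
    |(∫ q, f q * g ((dr a ε K)^[n] q)) - (∫ q, f q) * (∫ q, g q)| ≤ 2 := by
  have hP := probT314
  have key : ∀ h : T3 → ℝ, (∀ q, |h q| ≤ 1) → |∫ q, h q| ≤ 1 := by
    intro h hh
    have := norm_integral_le_of_norm_le_const (μ := (volume : Measure T3)) (f := h) (C := 1)
      (Eventually.of_forall fun q => by rw [Real.norm_eq_abs]; exact hh q)
    rw [Real.norm_eq_abs, probReal_univ, mul_one] at this
    exact this
  have h1 : |∫ q, f q * g ((dr a ε K)^[n] q)| ≤ 1 := by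
    apply key
    intro q
    rw [abs_mul]
    exact mul_le_one₀ (hf q) (abs_nonneg _) (hg _)
  have h2 := key f hf
  have h3 := key g hg
  have h4 : |(∫ q, f q) * (∫ q, g q)| ≤ 1 := by
    rw [abs_mul]
    exact mul_le_one₀ h2 (abs_nonneg _) h3
  have h5 := abs_sub (∫ q, f q * g ((dr a ε K)^[n] q)) ((∫ q, f q) * (∫ q, g q))
  linarith

private lemma num14 {b B β : ℝ} (hb : 0 < b) {e : ℝ} (hβ : β = 1 / b + e)
    (hB : B = 20000 / b + 6 * 10 ^ 7 * e) : B ≤ 6 * 10 ^ 7 * β := by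
  have h : 20000 / b = 20000 * (1 / b) := by ring
  have h2 : 0 ≤ 1 / b := by positivity
  rw [hB, hβ, h]
  nlinarith

private lemma lam14 {E : Set T3} (hE : MeasurableSet E) (hE2 : 1 / 2 ≤ (volume : Measure T3).real E)
    {Λ : T3 → ℝ} (hΛi : Integrable Λ) {c r R : ℝ} (hc : ∀ᵐ q, q ∈ E → Λ q = c)
    (hR : ∫ q, |Λ q - r| ≤ R) : |c - r| ≤ 2 * R := by
  have hP := probT314
  have h1 : ∫ q in E, |Λ q - r| ≤ ∫ q, |Λ q - r| := by
    apply setIntegral_le_integral
    · exact (hΛi.sub (integrable_const r)).abs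
    · exact Eventually.of_forall fun q => abs_nonneg _
  have h2 : ∫ q in E, |Λ q - r| = ∫ q in E, |c - r| := by
    apply setIntegral_congr_ae hE
    filter_upwards [hc] with q hq hqE
    rw [hq hqE]
  rw [h2, setIntegral_const, smul_eq_mul] at h1
  have h3 : 0 ≤ |c - r| := abs_nonneg _
  nlinarith

theorem main : ∃ C : ℝ, 0 < C ∧ ∀ a : ℝ, 1 ≤ |a| → ∀ ε : ℝ, 0 < ε → ε ≤ 1 / 4 →
    ∀ K : ℕ, 2 ≤ K →
    ∀ F : UnitAddCircle × (UnitAddCircle × UnitAddCircle) →
      UnitAddCircle × (UnitAddCircle × UnitAddCircle),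
    (∀ θ x y : ℝ, F ((θ : UnitAddCircle), (x : UnitAddCircle), (y : UnitAddCircle)) =
      (((K * θ : ℝ) : UnitAddCircle), ((2 * x - y + a * Real.sin (2 * π * x) +
        ε * Real.sin (2 * π * θ) : ℝ) : UnitAddCircle), (x : UnitAddCircle))) →
    (∀ f g : UnitAddCircle × (UnitAddCircle × UnitAddCircle) → ℝ, Measurable f → Measurable g →
      (∀ q, |f q| ≤ 1) → (∀ q, |g q| ≤ 1) → ∃ n₀ : ℕ, ∀ n, n₀ ≤ n →
      |(∫ q, f q * g (F^[n] q)) - (∫ q, f q) * (∫ q, g q)| ≤
        C * (|a| ^ (-(1:ℝ) / 10) + Real.log (1 / ε) / |a| ^ 2)) ∧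
    ∃ E : Set (UnitAddCircle × (UnitAddCircle × UnitAddCircle)), MeasurableSet E ∧ F ⁻¹' E = E ∧
      1 - C * (|a| ^ (-(1:ℝ) / 10) + Real.log (1 / ε) / |a| ^ 2) ≤ volume.real E ∧
      (∀ A : Set (UnitAddCircle × (UnitAddCircle × UnitAddCircle)), MeasurableSet A →
        F ⁻¹' A = A → volume (A ∩ E) = 0 ∨ volume (E \ A) = 0) ∧
      ∃ lam : ℝ, |lam - Real.log (π * |a|)| ≤ C * Real.log |a| *
          Real.sqrt (|a| ^ (-(1:ℝ) / 10) + Real.log (1 / ε) / |a| ^ 2) ∧
        ∀ᵐ z : ℝ × (ℝ × ℝ), ((z.1 : UnitAddCircle), ((z.2.1 : UnitAddCircle),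
            (z.2.2 : UnitAddCircle))) ∈ E →
          Tendsto (fun n : ℕ => Real.log ‖fderiv ℝ (fun p : ℝ × ℝ =>
            ((fun q : ℝ × (ℝ × ℝ) => (K * q.1, (2 * q.2.1 - q.2.2 + a * Real.sin (2 * π * q.2.1) +
              ε * Real.sin (2 * π * q.1), q.2.1)))^[n] (z.1, p)).2) z.2‖ / n) atTop (𝓝 lam) := by
  refine ⟨2 * 10 ^ 9, by norm_num, ?_⟩
  intro a ha ε hε hε4 K hK F hF
  have hFd := driven_unique hF
  subst hFd
  have hP := probT314
  -- the parameter b
  set b : ℝ := |a| ^ ((1:ℝ) / 10) with hbdef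
  have ha0 : 0 < |a| := by linarith
  have hb0 : 0 < b := Real.rpow_pos_of_pos ha0 _
  have hab : |a| = b ^ 10 := by
    rw [hbdef, ← Real.rpow_natCast, ← Real.rpow_mul ha0.le]
    norm_num
  have hinv : |a| ^ (-(1:ℝ) / 10) = 1 / b := by
    rw [hbdef, one_div, ← Real.rpow_neg ha0.le]
    norm_num
  rw [hinv]
  have hle : 0 ≤ Real.log (1 / ε) := by
    apply Real.log_nonneg
    rw [le_div_iff₀ hε]; linarith
  set e : ℝ := Real.log (1 / ε) / |a| ^ 2 with hedef
  have he0 : 0 ≤ e := by positivity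
  set β : ℝ := 1 / b + e with hβdef
  have hbi : 0 < 1 / b := by positivity
  have hβ0 : 0 < β := by linarith
  have hla : 0 ≤ Real.log |a| := Real.log_nonneg ha
  by_cases hcase : 1 ≤ 10 ^ 9 * β
  · refine ⟨?_, ∅, MeasurableSet.empty, rfl, ?_, ?_, Real.log (π * |a|), ?_, ?_⟩
    · intro f g _ _ hf hg
      refine ⟨0, fun n _ => (crude14 hf hg n).trans ?_⟩
      linarith
    · have h0 : (volume : Measure T3).real ∅ = 0 := measureReal_empty
      rw [h0]
      linarith
    · intro A _ _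
      left
      rw [Set.inter_empty, measure_empty]
    · rw [sub_self, abs_zero]
      positivity
    · exact Eventually.of_forall fun z hz => absurd hz (Set.notMem_empty _)
  · rw [not_le] at hcase
    have hb9 : 10 ^ 9 ≤ b := by
      have h1 : 10 ^ 9 * (1 / b) ≤ 1 := by nlinarith
      rw [mul_one_div, div_le_one hb0] at h1
      exact h1
    have hb4 : 10000 ≤ b := le_trans (by norm_num) hb9
    have hBle : 20000 / b + 6 * 10 ^ 7 * e ≤ 6 * 10 ^ 7 * β := num14 hb0 hβdef rfl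
    have hB8 : 20000 / b + 6 * 10 ^ 7 * e < 1 / 8 := by nlinarith
    obtain ⟨E, hEm, hEinv, hEmeas, hEcomp⟩ := component hb4 hab hε hε4 hK hB8
    have hEhalf : 1 / 2 ≤ (volume : Measure T3).real E := by linarith
    have hEne : (volume : Measure T3) E ≠ 0 := by
      intro h0
      rw [Measure.real, h0, ENNReal.toReal_zero] at hEhalf
      linarith
    obtain ⟨Λ, hΛm, hΛi, hΛinv, hΛlim, hΛint⟩ := exp_close hb4 hab hε hε4 hK
    obtain ⟨c, hc⟩ := const_on_component (mp_dr a ε hK) hEm hEne hEcomp hΛm hΛinv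
    refine ⟨?_, E, hEm, hEinv, ?_, hEcomp, c, ?_, ?_⟩
    · intro f g hfm hgm hf hg
      obtain ⟨n₀, hn₀⟩ := near_mixing hb4 hab hε hε4 hK hfm hgm hf hg
      refine ⟨n₀, fun n hn => (hn₀ n hn).trans ?_⟩
      linarith
    · refine le_trans ?_ hEmeas
      linarith
    · have h1 := lam14 hEm hEhalf hΛi hc hΛint
      refine h1.trans ?_
      have hβ1 : β ≤ Real.sqrt β := by
        apply Real.le_sqrt_of_sq_le
        nlinarith
      have hs0 := Real.sqrt_nonneg β
      have h2 : 4000 * Real.sqrt β + 250000 * β ≤ 254000 * Real.sqrt β := by linarith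
      have h3 : Real.log |a| * (4000 * Real.sqrt β + 250000 * β) ≤
          Real.log |a| * (254000 * Real.sqrt β) := mul_le_mul_of_nonneg_left h2 hla
      have h4 : 0 ≤ Real.log |a| * Real.sqrt β := mul_nonneg hla hs0
      linarith
    · have hP2 : ∀ᵐ q : T3, Tendsto (fun n : ℕ => Real.log ‖DT a ε K n q‖ / n) atTop (𝓝 (Λ q)) ∧
          (q ∈ E → Λ q = c) := hΛlim.and hc
      filter_upwards [ae_space hP2] with z hz hzE
      have h1 := hz.2 hzE
      rw [h1] at hz
      have h2 : ∀ n : ℕ, Real.log ‖fderiv ℝ (fun p : ℝ × ℝ =>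
            ((fun q : ℝ × (ℝ × ℝ) => ((K:ℝ) * q.1, (2 * q.2.1 - q.2.2 + a * Real.sin (2 * π * q.2.1) +
              ε * Real.sin (2 * π * q.1), q.2.1)))^[n] (z.1, p)).2) z.2‖ / n =
          Real.log ‖DT a ε K n ((z.1 : UnitAddCircle), mk2 z.2)‖ / n := by
        intro n
        rw [← fderiv_gp]
        rfl
      simp only [h2]
      exact hz.1

end Pool.Agent.Helper18.SD
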